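import Mathlib

/-!
# The numbers `y k` and the increments `D k t`
-/

set_option autoImplicit false

namespace SMAb

/-- the numbers of Irving and Leather -/
def y : ℕ → ℕ
  | 0 => 1
  | 1 => 2
  | (k + 2) => 3 * (y (k + 1)) ^ 2 - 2 * (y k) ^ 4

/-- the increments; `D k` belongs to groups of order `2 ^ (k + 2)` and has quasi-period `2 ^ k` -/
def D : ℕ → ℕ → ℕ
  | 0, t => 3 * t
  | (k + 1), t => (t / 2 ^ (k + 1)) * ((D k (2 ^ (k + 1))) ^ 2 + 2 * (y (k + 1)) ^ 2 * D k (2 ^ (k + 1)))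
      + ((D k (t % 2 ^ (k + 1))) ^ 2 + 2 * (y (k + 1)) ^ 2 * D k (t % 2 ^ (k + 1)))

theorem y_pos_and (k : ℕ) : 1 ≤ y k ∧ 3 * (y k) ^ 4 ≤ (y (k + 1)) ^ 2 := by
  induction k with
  | zero => constructor <;> norm_num [y]
  | succ k ih =>
    obtain ⟨h1, h2⟩ := ih
    have hy1 : 1 ≤ y (k + 1) := by
      by_contra h
      have : y (k + 1) = 0 := by omega
      rw [this] at h2
      have : 1 ≤ (y k) ^ 4 := Nat.one_le_pow _ _ h1
      omega
    refine ⟨hy1, ?_⟩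
    have e : y (k + 2) = 3 * (y (k + 1)) ^ 2 - 2 * (y k) ^ 4 := rfl
    have h3 : 7 * (y (k + 1)) ^ 2 ≤ 3 * y (k + 2) := by
      rw [e]; omega
    have h4 : (7 * (y (k + 1)) ^ 2) ^ 2 ≤ (3 * y (k + 2)) ^ 2 := Nat.pow_le_pow_left h3 2
    have h5 : (7 * (y (k + 1)) ^ 2) ^ 2 = 49 * (y (k + 1)) ^ 4 := by ring
    have h6 : (3 * y (k + 2)) ^ 2 = 9 * (y (k + 2)) ^ 2 := by ring
    rw [h5, h6] at h4
    show 3 * (y (k + 1)) ^ 4 ≤ (y (k + 2)) ^ 2
    omega

theorem y_pos (k : ℕ) : 1 ≤ y k := (y_pos_and k).1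

theorem y4_le (k : ℕ) : 3 * (y k) ^ 4 ≤ (y (k + 1)) ^ 2 := (y_pos_and k).2

theorem y_succ (k : ℕ) : y (k + 2) + 2 * (y k) ^ 4 = 3 * (y (k + 1)) ^ 2 := by
  have e : y (k + 2) = 3 * (y (k + 1)) ^ 2 - 2 * (y k) ^ 4 := rfl
  have := y4_le k
  omega

/-- the combination lemma: superadditivity of `z ↦ z ^ 2 + 2 A z` along a quasi-periodic function -/
theorem comb (A x y' T z : ℕ) (hx : x ≤ T) (hy : y' ≤ T) (h : x + y' ≤ T + z) :
    (x ^ 2 + 2 * A * x) + (y' ^ 2 + 2 * A * y') ≤ (T ^ 2 + 2 * A * T) + (z ^ 2 + 2 * A * z) := by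
  have h1 : x ^ 2 + y' ^ 2 ≤ T ^ 2 + z ^ 2 := by
    rcases le_total T (x + y') with h2 | h2
    · obtain ⟨c, hc⟩ := Nat.exists_eq_add_of_le h2
      obtain ⟨u, hu⟩ := Nat.exists_eq_add_of_le hx
      -- T = x + u, x + y' = T + c so y' = u + c
      have hyc : y' = u + c := by omega
      have hcz : c ≤ z := by omega
      have hcx : c ≤ x := by omega
      subst hyc
      rw [hu]
      have : c ^ 2 ≤ z ^ 2 := Nat.pow_le_pow_left hcz 2
      nlinarith [Nat.mul_le_mul_right u hcx]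
    · have : (x + y') ^ 2 ≤ T ^ 2 := Nat.pow_le_pow_left h2 2
      nlinarith
  have h2 : 2 * A * (x + y') ≤ 2 * A * (T + z) := Nat.mul_le_mul_left _ h
  nlinarith

structure Good (u : ℕ → ℕ) (P : ℕ) : Prop where
  zero : u 0 = 0
  sup : ∀ s t, u s + u t ≤ u (s + t)
  per : ∀ t, u (t + P) = u t + u P

theorem Good.mono {u : ℕ → ℕ} {P : ℕ} (h : Good u P) {s t : ℕ} (hst : s ≤ t) : u s ≤ u t := by
  obtain ⟨c, rfl⟩ := Nat.exists_eq_add_of_le hst
  have := h.sup s c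
  omega

theorem Good.per2 {u : ℕ → ℕ} {P : ℕ} (h : Good u P) (t : ℕ) : u (t + 2 * P) = u t + u (2 * P) := by
  have h1 : u (t + 2 * P) = u t + u P + u P := by
    rw [show t + 2 * P = (t + P) + P by ring, h.per, h.per]
  have h2 : u (2 * P) = u P + u P := by
    rw [show 2 * P = P + P by ring, h.per]
  omega

theorem Good.per2mul {u : ℕ → ℕ} {P : ℕ} (h : Good u P) (i t : ℕ) :
    u (i * (2 * P) + t) = i * u (2 * P) + u t := by
  induction i with
  | zero => simp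
  | succ i ih =>
    rw [show (i + 1) * (2 * P) + t = (i * (2 * P) + t) + 2 * P by ring, h.per2, ih]
    ring

theorem good_step (u : ℕ → ℕ) (P A : ℕ) (hP : 0 < P) (h : Good u P) (v : ℕ → ℕ)
    (hv : ∀ t, v t = (t / (2 * P)) * ((u (2 * P)) ^ 2 + 2 * A * u (2 * P))
      + ((u (t % (2 * P))) ^ 2 + 2 * A * u (t % (2 * P)))) : Good v (2 * P) := by
  have h2P : 0 < 2 * P := by omega
  have key : ∀ i s, s < 2 * P → v (i * (2 * P) + s) =
      i * ((u (2 * P)) ^ 2 + 2 * A * u (2 * P)) + ((u s) ^ 2 + 2 * A * u s) := by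
    intro i s hs
    rw [hv]
    have e1 : (i * (2 * P) + s) / (2 * P) = i := by
      rw [Nat.add_comm, Nat.add_mul_div_right _ _ h2P, Nat.div_eq_of_lt hs, Nat.zero_add]
    have e2 : (i * (2 * P) + s) % (2 * P) = s := by
      rw [Nat.add_comm, Nat.add_mul_mod_self_right, Nat.mod_eq_of_lt hs]
    rw [e1, e2]
  have dec : ∀ t, ∃ i s, s < 2 * P ∧ t = i * (2 * P) + s := by
    intro t
    exact ⟨t / (2 * P), t % (2 * P), Nat.mod_lt _ h2P, by
      rw [Nat.mul_comm]; exact (Nat.div_add_mod _ _).symm⟩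
  refine ⟨?_, ?_, ?_⟩
  · have := key 0 0 h2P
    simpa [h.zero] using this
  · intro s t
    obtain ⟨i, s', hs', rfl⟩ := dec s
    obtain ⟨j, t', ht', rfl⟩ := dec t
    rcases lt_or_ge (s' + t') (2 * P) with hst | hst
    · rw [show i * (2 * P) + s' + (j * (2 * P) + t') = (i + j) * (2 * P) + (s' + t') by ring,
        key _ _ hs', key _ _ ht', key _ _ hst]
      have hsup := h.sup s' t'
      have h1 : (u s' + u t') ^ 2 ≤ (u (s' + t')) ^ 2 := Nat.pow_le_pow_left hsup 2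
      have h2 : 2 * A * (u s' + u t') ≤ 2 * A * u (s' + t') := Nat.mul_le_mul_left _ hsup
      nlinarith
    · obtain ⟨c, hc⟩ := Nat.exists_eq_add_of_le hst
      have hc' : c < 2 * P := by omega
      rw [show i * (2 * P) + s' + (j * (2 * P) + t') = (i + j + 1) * (2 * P) + c by
        rw [show i * (2 * P) + s' + (j * (2 * P) + t') = (i + j) * (2 * P) + (s' + t') by ring, hc]; ring,
        key _ _ hs', key _ _ ht', key _ _ hc']
      have h3 : u s' + u t' ≤ u (2 * P) + u c := by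
        have := h.sup s' t'
        rw [hc, Nat.add_comm (2 * P) c, h.per2] at this
        omega
      have := comb A (u s') (u t') (u (2 * P)) (u c) (h.mono hs'.le) (h.mono ht'.le) h3
      nlinarith
  · intro t
    obtain ⟨i, s, hs, rfl⟩ := dec t
    have e1 := key i s hs
    have e2 := key (i + 1) s hs
    have e3 := key 1 0 h2P
    rw [show i * (2 * P) + s + 2 * P = (i + 1) * (2 * P) + s by ring, e1, e2]
    rw [show 1 * (2 * P) + 0 = 2 * P by ring] at e3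
    rw [e3, h.zero]
    ring

theorem D_good (k : ℕ) : Good (D k) (2 ^ k) := by
  induction k with
  | zero =>
    refine ⟨rfl, ?_, ?_⟩
    · intro s t
      show 3 * s + 3 * t ≤ 3 * (s + t)
      omega
    · intro t
      show 3 * (t + 2 ^ 0) = 3 * t + 3 * 2 ^ 0
      ring
  | succ k ih =>
    have e : (2 : ℕ) ^ (k + 1) = 2 * 2 ^ k := by rw [pow_succ]; ring
    rw [e]
    refine good_step (D k) (2 ^ k) ((y (k + 1)) ^ 2) (by positivity) ih (D (k + 1)) ?_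
    intro t
    have : D (k + 1) t = (t / 2 ^ (k + 1)) * ((D k (2 ^ (k + 1))) ^ 2 + 2 * (y (k + 1)) ^ 2 * D k (2 ^ (k + 1)))
      + ((D k (t % 2 ^ (k + 1))) ^ 2 + 2 * (y (k + 1)) ^ 2 * D k (t % 2 ^ (k + 1))) := rfl
    rw [this, e]

/-- values on the first two periods -/
theorem D_low (k t : ℕ) (ht : t ≤ 2 ^ (k + 1)) :
    D (k + 1) t = (D k t) ^ 2 + 2 * (y (k + 1)) ^ 2 * D k t := by
  have e : D (k + 1) t = (t / 2 ^ (k + 1)) * ((D k (2 ^ (k + 1))) ^ 2 + 2 * (y (k + 1)) ^ 2 * D k (2 ^ (k + 1)))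
      + ((D k (t % 2 ^ (k + 1))) ^ 2 + 2 * (y (k + 1)) ^ 2 * D k (t % 2 ^ (k + 1))) := rfl
  have hp : 0 < 2 ^ (k + 1) := by positivity
  rcases lt_or_eq_of_le ht with h | h
  · rw [e, Nat.div_eq_of_lt h, Nat.mod_eq_of_lt h]; ring
  · rw [e, h, Nat.div_self hp, Nat.mod_self, (D_good k).zero]; ring

theorem D_ge (k t : ℕ) : 2 * (y (k + 1)) ^ 2 * D k t ≤ D (k + 1) t := by
  have e : D (k + 1) t = (t / 2 ^ (k + 1)) * ((D k (2 ^ (k + 1))) ^ 2 + 2 * (y (k + 1)) ^ 2 * D k (2 ^ (k + 1)))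
      + ((D k (t % 2 ^ (k + 1))) ^ 2 + 2 * (y (k + 1)) ^ 2 * D k (t % 2 ^ (k + 1))) := rfl
  have e2 : D k t = (t / 2 ^ (k + 1)) * D k (2 ^ (k + 1)) + D k (t % 2 ^ (k + 1)) := by
    have := (D_good k).per2mul (t / 2 ^ (k + 1)) (t % 2 ^ (k + 1))
    have e1 : (2 : ℕ) * 2 ^ k = 2 ^ (k + 1) := by rw [pow_succ]; ring
    rw [e1] at this
    rw [← this]
    congr 1
    rw [Nat.mul_comm]
    exact (Nat.div_add_mod _ _).symm
  rw [e, e2]
  nlinarith [Nat.zero_le ((t / 2 ^ (k + 1)) * (D k (2 ^ (k + 1))) ^ 2), Nat.zero_le ((D k (t % 2 ^ (k + 1))) ^ 2)]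

/-- the value at the quasi-period -/
theorem D_per (k : ℕ) : (y k) ^ 4 + D k (2 ^ k) = (y (k + 1)) ^ 2 := by
  induction k with
  | zero => norm_num [y, D]
  | succ k ih =>
    rw [D_low k _ le_rfl]
    have e1 : D k (2 ^ (k + 1)) = 2 * D k (2 ^ k) := by
      rw [show (2 : ℕ) ^ (k + 1) = 2 ^ k + 2 ^ k by rw [pow_succ]; ring, (D_good k).per]; ring
    have e2 := y_succ k
    have e3 : y (k + 2) = (y (k + 1)) ^ 2 + 2 * D k (2 ^ k) := by omega
    rw [e1]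
    show (y (k + 1)) ^ 4 + ((2 * D k (2 ^ k)) ^ 2 + 2 * (y (k + 1)) ^ 2 * (2 * D k (2 ^ k))) = (y (k + 2)) ^ 2
    rw [e3]; ring

theorem D_two (k : ℕ) : D k (2 ^ (k + 1)) = 2 * D k (2 ^ k) := by
  rw [show (2 : ℕ) ^ (k + 1) = 2 ^ k + 2 ^ k by rw [pow_succ]; ring, (D_good k).per]; ring

theorem y_eq (k : ℕ) : y (k + 2) = (y (k + 1)) ^ 2 + D k (2 ^ (k + 1)) := by
  have e2 := y_succ k
  have e3 := D_per k
  rw [D_two]
  omega

/-- the bound for windows with `L` cut positions in groups of order `2 ^ (k + 2)` -/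
def phi (k L : ℕ) : ℕ := (y k) ^ 4 + D k (L - 2 ^ k)

theorem phi_mono (k : ℕ) {L L' : ℕ} (h : L ≤ L') : phi k L ≤ phi k L' := by
  unfold phi
  have := (D_good k).mono (show L - 2 ^ k ≤ L' - 2 ^ k by omega)
  omega

theorem phi_full (k : ℕ) : phi k (2 ^ (k + 2)) = y (k + 2) := by
  unfold phi
  have e1 : (2 : ℕ) ^ (k + 2) - 2 ^ k = 2 ^ k + 2 ^ k + 2 ^ k := by
    rw [show (2 : ℕ) ^ (k + 2) = 4 * 2 ^ k by rw [pow_add]; ring]; omega
  rw [e1, (D_good k).per, (D_good k).per]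
  have := D_per k
  have := y_succ k
  omega

theorem phi_two (k : ℕ) : phi k (2 ^ (k + 1)) = (y (k + 1)) ^ 2 := by
  unfold phi
  have e1 : (2 : ℕ) ^ (k + 1) - 2 ^ k = 2 ^ k := by rw [pow_succ]; omega
  rw [e1, D_per]

/-- the index two step of the increments -/
theorem power_step (k X Y t : ℕ) (h1 : X ≤ Y + D k t) (hY : Y ≤ (y (k + 1)) ^ 2) (hX : X ≤ y (k + 2))
    (ht : t ≤ 2 ^ (k + 2)) : X ^ 2 ≤ Y ^ 2 + D (k + 1) t := by
  rcases le_total t (2 ^ (k + 1)) with h | h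
  · rw [D_low k t h]
    have h2 : X ^ 2 ≤ (Y + D k t) ^ 2 := Nat.pow_le_pow_left h1 2
    have h3 : Y * D k t ≤ (y (k + 1)) ^ 2 * D k t := Nat.mul_le_mul_right _ hY
    nlinarith
  · obtain ⟨s, rfl⟩ := Nat.exists_eq_add_of_le h
    have hs : s ≤ 2 ^ (k + 1) := by
      have : (2 : ℕ) ^ (k + 2) = 2 ^ (k + 1) + 2 ^ (k + 1) := by rw [pow_succ]; ring
      omega
    have e1 : D (k + 1) (2 ^ (k + 1) + s) = D (k + 1) s + D (k + 1) (2 ^ (k + 1)) := by
      rw [Nat.add_comm (2 ^ (k + 1)) s, (D_good (k + 1)).per]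
    have e2 : D k (2 ^ (k + 1) + s) = D k s + D k (2 ^ (k + 1)) := by
      have := (D_good k).per2 s
      rw [show (2 : ℕ) * 2 ^ k = 2 ^ (k + 1) by rw [pow_succ]; ring] at this
      rw [Nat.add_comm (2 ^ (k + 1)) s, this]
    rw [e1, D_low k s hs, D_low k _ le_rfl]
    rw [e2] at h1
    rw [y_eq] at hX
    set A := (y (k + 1)) ^ 2 with hA
    set e := D k s with he
    set T := D k (2 ^ (k + 1)) with hT
    rcases le_total X (T + e) with hc | hc
    · rcases le_total e A with hd | hd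
      · have h2 : X ^ 2 ≤ (T + e) ^ 2 := Nat.pow_le_pow_left hc 2
        have h3 : T * e ≤ T * A := Nat.mul_le_mul_left _ hd
        nlinarith [Nat.zero_le (Y ^ 2), Nat.zero_le (A * e)]
      · have h2 : X ^ 2 ≤ (A + T) ^ 2 := Nat.pow_le_pow_left hX 2
        have h3 : A ^ 2 ≤ e ^ 2 := Nat.pow_le_pow_left hd 2
        nlinarith [Nat.zero_le (Y ^ 2), Nat.zero_le (A * e)]
    · obtain ⟨c, hc'⟩ := Nat.exists_eq_add_of_le hc
      have hcY : c ≤ Y := by omega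
      have h2 : c ^ 2 ≤ Y ^ 2 := Nat.pow_le_pow_left hcY 2
      have h3 : e + c ≤ A := by omega
      -- X = T + e + c ; X^2 - c^2 = (T+e)(T+e+2c) and e + c ≤ A
      rw [hc']
      have h4 : (T + e) * (e + c) ≤ (T + e) * A := Nat.mul_le_mul_left _ h3
      nlinarith
  
end SMAb
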