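import Mathlib
import Pool.Agent.Lib.MP_c91ad1_co.AbNum

/-!
# Chains of translation invariant sets in a finite abelian group

`Ch d a b` is the set of all functions `h : G → [a, b]` such that every set `{h > j}` is invariant
under the translation by `d j`; `F d a b` is their number. `Hw d a b` is the subgroup generated by
`d a, ..., d (b - 1)`.
-/

set_option autoImplicit false

namespace SMAb

variable {G : Type} [AddCommGroup G]

/-- chains of invariant sets, as height functions -/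
def Ch (d : ℕ → G) (a b : ℕ) : Set (G → ℕ) :=
  {h | (∀ g, a ≤ h g ∧ h g ≤ b) ∧ ∀ j g, j < h g → j < h (g + d j)}

noncomputable def F (d : ℕ → G) (a b : ℕ) : ℕ := (Ch d a b).ncard

def Hw (d : ℕ → G) (a b : ℕ) : AddSubgroup G := AddSubgroup.closure (d '' Set.Ico a b)

theorem Ch_finite [Finite G] (d : ℕ → G) (a b : ℕ) : (Ch d a b).Finite := by
  refine (Set.Finite.pi' (fun _ : G => Set.finite_Icc a b)).subset ?_
  intro h hh g
  exact hh.1 g

theorem Ch_mono (d : ℕ → G) {a b a' b' : ℕ} (h1 : a ≤ a') (h2 : b' ≤ b) : Ch d a' b' ⊆ Ch d a b := by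
  intro h hh
  exact ⟨fun g => ⟨h1.trans (hh.1 g).1, (hh.1 g).2.trans h2⟩, hh.2⟩

theorem F_mono [Finite G] (d : ℕ → G) {a b a' b' : ℕ} (h1 : a ≤ a') (h2 : b' ≤ b) :
    F d a' b' ≤ F d a b := Set.ncard_le_ncard (Ch_mono d h1 h2) (Ch_finite d a b)

theorem F_self (d : ℕ → G) (a : ℕ) : F d a a = 1 := by
  unfold F
  rw [Set.ncard_eq_one]
  refine ⟨fun _ => a, ?_⟩
  ext h
  constructor
  · intro hh
    rw [Set.mem_singleton_iff]
    funext g
    have := hh.1 g
    omega
  · intro hh
    rw [Set.mem_singleton_iff] at hh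
    subst hh
    exact ⟨fun _ => ⟨le_rfl, le_rfl⟩, fun _ _ h => h⟩

theorem F_empty (d : ℕ → G) (b : ℕ) : F d (b + 1) b = 0 := by
  unfold F
  have : Ch d (b + 1) b = ∅ := by
    rw [Set.eq_empty_iff_forall_notMem]
    intro h hh
    have := hh.1 0
    omega
  rw [this, Set.ncard_empty]

theorem Hw_mono (d : ℕ → G) {a b a' b' : ℕ} (h1 : a ≤ a') (h2 : b' ≤ b) : Hw d a' b' ≤ Hw d a b :=
  AddSubgroup.closure_mono (Set.image_mono (Set.Ico_subset_Ico h1 h2))

theorem Hw_self (d : ℕ → G) (a : ℕ) : Hw d a a = ⊥ := by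
  unfold Hw
  rw [Set.Ico_self, Set.image_empty, AddSubgroup.closure_empty]

theorem Hw_left (d : ℕ → G) {a b : ℕ} (h : a < b) :
    Hw d a b = AddSubgroup.closure {d a} ⊔ Hw d (a + 1) b := by
  unfold Hw
  rw [← AddSubgroup.closure_union]
  congr 1
  ext u
  simp only [Set.mem_image, Set.mem_Ico, Set.mem_union, Set.mem_singleton_iff]
  constructor
  · rintro ⟨j, ⟨h1, h2⟩, rfl⟩
    rcases Nat.lt_or_ge a j with h3 | h3
    · exact Or.inr ⟨j, ⟨h3, h2⟩, rfl⟩
    · left
      have : j = a := by omega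
      rw [this]
  · rintro (h1 | ⟨j, ⟨h1, h2⟩, rfl⟩)
    · exact ⟨a, ⟨le_rfl, h⟩, h1.symm⟩
    · exact ⟨j, ⟨by omega, h2⟩, rfl⟩

theorem Hw_right (d : ℕ → G) {a b : ℕ} (h : a ≤ b) :
    Hw d a (b + 1) = Hw d a b ⊔ AddSubgroup.closure {d b} := by
  unfold Hw
  rw [← AddSubgroup.closure_union]
  congr 1
  ext u
  simp only [Set.mem_image, Set.mem_Ico, Set.mem_union, Set.mem_singleton_iff]
  constructor
  · rintro ⟨j, ⟨h1, h2⟩, rfl⟩
    rcases Nat.lt_or_ge j b with h3 | h3
    · exact Or.inl ⟨j, ⟨h1, h3⟩, rfl⟩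
    · right
      have : j = b := by omega
      rw [this]
  · rintro (⟨j, ⟨h1, h2⟩, rfl⟩ | h1)
    · exact ⟨j, ⟨h1, by omega⟩, rfl⟩
    · exact ⟨b, ⟨h, by omega⟩, h1.symm⟩

theorem inv_neg [Finite G] (S : Set G) (u : G) (hu : ∀ g ∈ S, g + u ∈ S) : ∀ g ∈ S, g + -u ∈ S := by
  intro g hg
  have hinj : Function.Injective (fun x : S => (⟨(x : G) + u, hu x x.2⟩ : S)) := by
    intro x x' h
    have := congrArg Subtype.val h
    simp only [add_left_inj] at this
    exact Subtype.ext this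
  obtain ⟨x, hx⟩ := (Finite.injective_iff_surjective.1 hinj) ⟨g, hg⟩
  have h1 : (x : G) + u = g := congrArg Subtype.val hx
  have h2 : g + -u = (x : G) := by rw [← h1]; abel
  rw [h2]
  exact x.2

theorem inv_closure [Finite G] (S T : Set G) (hT : ∀ u ∈ T, ∀ g ∈ S, g + u ∈ S) :
    ∀ u ∈ AddSubgroup.closure T, ∀ g ∈ S, g + u ∈ S := by
  intro u hu
  induction hu using AddSubgroup.closure_induction with
  | mem u hu => exact hT u hu
  | zero => intro g hg; rwa [add_zero]
  | add u v _ _ h1 h2 => intro g hg; rw [← add_assoc]; exact h2 _ (h1 _ hg)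
  | neg u _ h => exact inv_neg S u h

theorem reach [Finite G] {d : ℕ → G} {a b : ℕ} {h : G → ℕ} (hh : h ∈ Ch d a b) :
    ∀ n p g0, p + (n + 1) ≤ h g0 → ∀ u ∈ Hw d p (p + n + 1), p < h (g0 + u) := by
  intro n
  induction n with
  | zero =>
    intro p g0 hg u hu
    refine inv_closure {g | p < h g} (d '' Set.Ico p (p + 0 + 1)) ?_ u hu g0 (by
      show p < h g0
      omega)
    rintro _ ⟨j, ⟨h1, h2⟩, rfl⟩ g hg'
    have : j = p := by omega
    subst this
    exact hh.2 j g hg'
  | succ n ih =>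
    intro p g0 hg u hu
    rw [Hw_left d (by omega)] at hu
    obtain ⟨v, hv, w, hw, rfl⟩ := AddSubgroup.mem_sup.1 hu
    have h1 := ih (p + 1) g0 (by omega) w (by
      rw [show p + 1 + n + 1 = p + (n + 1) + 1 by ring]
      exact hw)
    rw [show g0 + (v + w) = g0 + w + v by abel]
    refine inv_closure {g | p < h g} {d p} ?_ v hv (g0 + w) (by
      show p < h (g0 + w)
      omega)
    rintro _ rfl g hg'
    exact hh.2 p g hg'

/-- the support lemma -/
theorem support [Finite G] {d : ℕ → G} {a b : ℕ} {h : G → ℕ} (hh : h ∈ Ch d a b) {p q : ℕ}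
    (hpq : p < q) {g0 g1 : G} (h0 : q ≤ h g0) (h1 : h g1 ≤ p) : Hw d p q ≠ ⊤ := by
  intro htop
  obtain ⟨n, rfl⟩ : ∃ n, q = p + n + 1 := ⟨q - p - 1, by omega⟩
  have := reach hh n p g0 (by omega) (g1 - g0) (by rw [htop]; exact AddSubgroup.mem_top _)
  rw [show g0 + (g1 - g0) = g1 by abel] at this
  omega

/-- the window recursion -/
theorem F_step [Finite G] (d : ℕ → G) {a a2 b1 b : ℕ} (h1 : a ≤ a2) (h2 : b1 ≤ b) (h3 : a2 ≤ b1 + 1)
    (hfull : a < a2 → b1 < b → Hw d (a2 - 1) (b1 + 1) = ⊤) :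
    F d a b + F d a2 b1 = F d a2 b + F d a b1 := by
  rcases lt_or_eq_of_le h1 with h1 | h1
  · rcases lt_or_eq_of_le h2 with h2 | h2
    · have hU : Ch d a b = Ch d a2 b ∪ Ch d a b1 := by
        apply Set.Subset.antisymm
        · intro h hh
          by_contra hcon
          rw [Set.mem_union, not_or] at hcon
          obtain ⟨c1, c2⟩ := hcon
          have e1 : ∃ g1, h g1 < a2 := by
            by_contra hc
            push Not at hc
            exact c1 ⟨fun g => ⟨hc g, (hh.1 g).2⟩, hh.2⟩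
          have e2 : ∃ g0, b1 < h g0 := by
            by_contra hc
            push Not at hc
            exact c2 ⟨fun g => ⟨(hh.1 g).1, hc g⟩, hh.2⟩
          obtain ⟨g1, hg1⟩ := e1
          obtain ⟨g0, hg0⟩ := e2
          exact support hh (p := a2 - 1) (q := b1 + 1) (by omega) (g0 := g0) (g1 := g1) hg0 (by omega)
            (hfull h1 h2)
        · rintro h (hh | hh)
          · exact Ch_mono d h1.le le_rfl hh
          · exact Ch_mono d le_rfl h2.le hh
      have hI : Ch d a2 b1 = Ch d a2 b ∩ Ch d a b1 := by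
        ext h
        constructor
        · intro hh
          exact ⟨Ch_mono d le_rfl h2.le hh, Ch_mono d h1.le le_rfl hh⟩
        · rintro ⟨hh1, hh2⟩
          exact ⟨fun g => ⟨(hh1.1 g).1, (hh2.1 g).2⟩, hh1.2⟩
      unfold F
      rw [hU, hI]
      exact Set.ncard_union_add_ncard_inter _ _ (Ch_finite d a2 b) (Ch_finite d a b1)
    · subst h2
      ring
  · subst h1
    rfl

/-- `c` is a change position for windows with right end `b` -/
def CC (d : ℕ → G) (a c b : ℕ) : Prop := a < c → (c = b + 1 ∨ Hw d (c - 1) b ≠ Hw d c b)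

theorem crossing (Q : ℕ → Prop) {a b : ℕ} (hab : a ≤ b) (ha : ¬ Q a) (hb : Q b) :
    ∃ n, a ≤ n ∧ n < b ∧ ¬ Q n ∧ Q (n + 1) := by
  classical
  induction b, hab using Nat.le_induction with
  | base => exact absurd hb ha
  | succ b hab ih =>
    by_cases h : Q b
    · obtain ⟨n, h1, h2, h3, h4⟩ := ih h
      exact ⟨n, h1, by omega, h3, h4⟩
    · exact ⟨b, hab, by omega, h, hb⟩

theorem bot_ne_top' [Nontrivial G] : (⊥ : AddSubgroup G) ≠ ⊤ := bot_ne_top

/-- telescoping over the maximal windows -/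
theorem tele [Finite G] [Nontrivial G] (d : ℕ → G) (lo hi : ℕ) (Φ : ℕ → ℕ)
    (hΦ : ∀ s t, Φ s + Φ t ≤ Φ (s + t))
    (H : ∀ a c b, lo ≤ a → a < c → c ≤ b + 1 → b ≤ hi → Hw d a b ≠ ⊤ → CC d a c b →
      F d a b ≤ F d c b + Φ (c - a)) :
    ∀ n a c b, c - a ≤ n → lo ≤ a → a ≤ c → c ≤ b + 1 → b ≤ hi → CC d a c b →
      F d a b ≤ F d c b + Φ (c - a) := by
  intro n
  induction n with
  | zero =>
    intro a c b h1 _ h2 _ _ _
    have : a = c := by omega
    subst this
    omega
  | succ n ih =>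
    intro a c b hn hlo hac hcb hhi hcc
    rcases lt_or_eq_of_le hac with hac | hac
    swap
    · subst hac; omega
    by_cases htop : Hw d a b = ⊤
    swap
    · exact H a c b hlo hac hcb hhi htop hcc
    have hab : a ≤ b := by omega
    obtain ⟨b1, hb1, hb2, hb3, hb4⟩ := crossing (fun n => Hw d a n = ⊤) hab (by
      show ¬ Hw d a a = ⊤
      rw [Hw_self]; exact bot_ne_top) htop
    obtain ⟨a1, ha1, ha2, ha3, ha4⟩ := crossing (fun n => Hw d n (b1 + 1) ≠ ⊤)
      (show a ≤ b1 + 1 by omega) (by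
        show ¬ Hw d a (b1 + 1) ≠ ⊤
        exact not_not.2 hb4) (by
        show Hw d (b1 + 1) (b1 + 1) ≠ ⊤
        rw [Hw_self]; exact bot_ne_top)
    have ha3' : Hw d a1 (b1 + 1) = ⊤ := not_not.1 ha3
    have hs := F_step d (a := a) (a2 := a1 + 1) (b1 := b1) (b := b) (by omega) (by omega) (by omega)
      (by intro _ _; rw [Nat.add_sub_cancel]; exact ha3')
    have hH := H a (a1 + 1) b1 hlo (by omega) (by omega) (by omega) hb3 (by
      intro _
      by_cases hc : a1 + 1 = b1 + 1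
      · exact Or.inl hc
      · right
        rw [Nat.add_sub_cancel]
        intro he
        apply ha4
        rw [Hw_right d (by omega), ← he, ← Hw_right d (by omega)]
        exact ha3')
    have hle : a1 + 1 ≤ c := by
      rcases hcc hac with hc | hc
      · omega
      · by_contra hcon
        apply hc
        have h1 : Hw d c b = ⊤ := by
          rw [← top_le_iff, ← ha3']
          exact Hw_mono d (by omega) (by omega)
        rw [h1, ← top_le_iff, ← h1]
        exact Hw_mono d (by omega) le_rfl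
    have hI := ih (a1 + 1) c b (by omega) (by omega) hle hcb hhi (fun _ => hcc hac)
    have h5 := hΦ (c - (a1 + 1)) (a1 + 1 - a)
    rw [show c - (a1 + 1) + (a1 + 1 - a) = c - a by omega] at h5
    omega

end SMAb
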