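import Mathlib
import Pool.Agent.Lib.MP_c91ad1_co.AbChain

/-!
# Subgroups of index two, distinctness, reversal
-/

set_option autoImplicit false

namespace SMAb

variable {G : Type} [AddCommGroup G]

theorem exists_index_two [Finite G] (k : ℕ) (hcard : Nat.card G = 2 ^ k) (H : AddSubgroup G)
    (hH : H ≠ ⊤) : ∃ M : AddSubgroup G, H ≤ M ∧ M.index = 2 := by
  have hp : Fact (Nat.Prime 2) := ⟨Nat.prime_two⟩
  have hdvd : Nat.card H ∣ 2 ^ k := by
    rw [← hcard]
    exact AddSubgroup.card_addSubgroup_dvd_card H
  obtain ⟨m, hm, hHm⟩ := (Nat.dvd_prime_pow Nat.prime_two).1 hdvd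
  have hmk : m < k := by
    rcases lt_or_eq_of_le hm with h | h
    · exact h
    · exfalso
      apply hH
      apply AddSubgroup.eq_top_of_card_eq
      rw [hHm, hcard, h]
  obtain ⟨k', rfl⟩ : ∃ k', k = k' + 1 := ⟨k - 1, by omega⟩
  let H' : Subgroup (Multiplicative G) := AddSubgroup.toSubgroup H
  have hcardM : Nat.card (Multiplicative G) = 2 ^ (k' + 1) := hcard
  have hH' : Nat.card H' = 2 ^ m := hHm
  obtain ⟨K, hK1, hK2⟩ := Sylow.exists_subgroup_card_pow_prime_le (G := Multiplicative G) 2 (n := m)
    (m := k') (by rw [hcardM]; exact pow_dvd_pow 2 (by omega)) H' hH' (by omega)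
  refine ⟨AddSubgroup.toSubgroup.symm K, ?_, ?_⟩
  · intro x hx
    exact hK2 hx
  · have h1 : Nat.card (AddSubgroup.toSubgroup.symm K : AddSubgroup G) = 2 ^ k' := hK1
    have h2 := AddSubgroup.card_mul_index (AddSubgroup.toSubgroup.symm K : AddSubgroup G)
    rw [h1, hcard, pow_succ] at h2
    exact Nat.eq_of_mul_eq_mul_left (by positivity) h2

theorem card_of_index_two (k : ℕ) (hcard : Nat.card G = 2 ^ (k + 1)) (M : AddSubgroup G)
    (hM : M.index = 2) : Nat.card M = 2 ^ k := by
  have h2 := AddSubgroup.card_mul_index M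
  rw [hM, hcard, pow_succ] at h2
  exact Nat.eq_of_mul_eq_mul_right (by norm_num) h2

open Classical in
/-- restriction of a letter sequence to a subgroup -/
noncomputable def restr (M : AddSubgroup G) (d : ℕ → G) : ℕ → M :=
  fun j => if h : d j ∈ M then ⟨d j, h⟩ else 0

theorem restr_coe (M : AddSubgroup G) (d : ℕ → G) (j : ℕ) (h : d j ∈ M) : (restr M d j : G) = d j := by
  unfold restr
  rw [dif_pos h]

/-- the index two decomposition -/
theorem F_sq [Finite G] (M : AddSubgroup G) (hM : M.index = 2) (d : ℕ → G) (a b : ℕ)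
    (hd : ∀ j, a ≤ j → j < b → d j ∈ M) : F d a b = (F (restr M d) a b) ^ 2 := by
  classical
  obtain ⟨s, hs⟩ := AddSubgroup.index_eq_two_iff.1 hM
  have hin : ∀ g, g ∈ M → g - s ∉ M := by
    intro g hg
    have h1 := hs (g - s)
    rw [show g - s + s = g by abel] at h1
    rcases h1 with h1 | h1
    · exact h1.2
    · exact absurd hg h1.2
  have hout : ∀ g, g ∉ M → g + s ∈ M := by
    intro g hg
    rcases hs g with h1 | h1
    · exact h1.1
    · exact absurd h1.1 hg
  have e : Nat.card (Ch d a b) = Nat.card (Ch (restr M d) a b × Ch (restr M d) a b) := by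
    refine Nat.card_congr ⟨fun h => (⟨fun u => h.1 u, ?_⟩, ⟨fun u => h.1 (u - s), ?_⟩),
      fun p => ⟨fun g => if hg : g ∈ M then p.1.1 ⟨g, hg⟩ else p.2.1 ⟨g + s, hout g hg⟩, ?_⟩, ?_, ?_⟩
    · refine ⟨fun u => h.2.1 u, ?_⟩
      intro j u hj
      beta_reduce at hj ⊢
      by_cases h1 : a ≤ j
      · by_cases h2 : j < b
        · have := h.2.2 j u hj
          rw [AddSubgroup.coe_add, restr_coe M d j (hd j h1 h2)]
          exact this
        · have := (h.2.1 u).2
          omega
      · have := (h.2.1 ((u + restr M d j : M) : G)).1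
        omega
    · refine ⟨fun u => h.2.1 _, ?_⟩
      intro j u hj
      beta_reduce at hj ⊢
      by_cases h1 : a ≤ j
      · by_cases h2 : j < b
        · have := h.2.2 j _ hj
          rw [AddSubgroup.coe_add, restr_coe M d j (hd j h1 h2)]
          rw [show (u : G) + d j - s = u - s + d j by abel]
          exact this
        · have := (h.2.1 ((u : G) - s)).2
          omega
      · have := (h.2.1 (((u + restr M d j : M) : G) - s)).1
        omega
    · constructor
      · intro g
        by_cases hg : g ∈ M
        · simp only [dif_pos hg]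
          exact p.1.2.1 _
        · simp only [dif_neg hg]
          exact p.2.2.1 _
      · intro j g hj
        beta_reduce at hj ⊢
        have hrange : ∀ g : G, a ≤ (if hg : g ∈ M then p.1.1 ⟨g, hg⟩ else p.2.1 ⟨g + s, hout g hg⟩) ∧
            (if hg : g ∈ M then p.1.1 ⟨g, hg⟩ else p.2.1 ⟨g + s, hout g hg⟩) ≤ b := by
          intro g
          by_cases hg : g ∈ M
          · simp only [dif_pos hg]
            exact p.1.2.1 _
          · simp only [dif_neg hg]
            exact p.2.2.1 _
        by_cases h1 : a ≤ j
        · by_cases h2 : j < b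
          · have hdj := hd j h1 h2
            by_cases hg : g ∈ M
            · have hg2 : g + d j ∈ M := M.add_mem hg hdj
              simp only [dif_pos hg] at hj
              simp only [dif_pos hg2]
              have := p.1.2.2 j _ hj
              have e2 : (⟨g, hg⟩ : M) + restr M d j = ⟨g + d j, hg2⟩ := by
                apply Subtype.ext
                rw [AddSubgroup.coe_add, restr_coe M d j hdj]
              rw [e2] at this
              exact this
            · have hg2 : g + d j ∉ M := by
                intro hc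
                apply hg
                have := M.sub_mem hc hdj
                rwa [show g + d j - d j = g by abel] at this
              simp only [dif_neg hg] at hj
              simp only [dif_neg hg2]
              have := p.2.2.2 j _ hj
              have e2 : (⟨g + s, hout g hg⟩ : M) + restr M d j = ⟨g + d j + s, hout _ hg2⟩ := by
                apply Subtype.ext
                rw [AddSubgroup.coe_add, restr_coe M d j hdj]
                show g + s + d j = g + d j + s
                abel
              rw [e2] at this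
              exact this
          · have := (hrange g).2
            omega
        · have := (hrange (g + d j)).1
          omega
    · intro h
      apply Subtype.ext
      funext g
      by_cases hg : g ∈ M
      · simp only [dif_pos hg]
      · simp only [dif_neg hg]
        exact congrArg h.1 (by
          show g + s - s = g
          abel)
    · intro p
      apply Prod.ext
      · apply Subtype.ext
        funext u
        have hu := u.2
        simp only [dif_pos hu]
      · apply Subtype.ext
        funext u
        have hu := hin u u.2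
        simp only [dif_neg hu]
        exact congrArg p.2.1 (Subtype.ext (by
          show (u : G) - s + s = u
          abel))
  unfold F
  rw [← Nat.card_coe_set_eq, ← Nat.card_coe_set_eq, e, Nat.card_prod, sq]

/-- distinct partial sums -/
def Dist (d : ℕ → G) (a b : ℕ) : Prop :=
  ∀ i j, a ≤ i → i < j → j ≤ b → ∑ l ∈ Finset.Ico i j, d l ≠ 0

theorem Dist.sub {d : ℕ → G} {a b a' b' : ℕ} (h : Dist d a b) (h1 : a ≤ a') (h2 : b' ≤ b) :
    Dist d a' b' := fun i j hi hij hj => h i j (by omega) hij (by omega)

theorem Dist.restr {d : ℕ → G} {a b : ℕ} (h : Dist d a b) (M : AddSubgroup G)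
    (hd : ∀ j, a ≤ j → j < b → d j ∈ M) : Dist (SMAb.restr M d) a b := by
  intro i j hi hij hj h0
  apply h i j hi hij hj
  have := congrArg (M.subtype) h0
  rw [map_sum, map_zero] at this
  rw [← this]
  refine Finset.sum_congr rfl ?_
  intro l hl
  rw [Finset.mem_Ico] at hl
  exact (restr_coe M d l (hd l (by omega) (by omega))).symm

theorem Dist.card_le [Finite G] {d : ℕ → G} {a b : ℕ} (h : Dist d a b) (hab : a ≤ b)
    (M : AddSubgroup G) (hd : ∀ j, a ≤ j → j < b → d j ∈ M) : b + 1 - a ≤ Nat.card M := by
  have hmem : ∀ i : Fin (b + 1 - a), ∑ l ∈ Finset.Ico a (a + i), d l ∈ M := by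
    intro i
    apply AddSubgroup.sum_mem
    intro l hl
    rw [Finset.mem_Ico] at hl
    have := i.2
    exact hd l hl.1 (by omega)
  have hinj : Function.Injective (fun i : Fin (b + 1 - a) =>
      (⟨∑ l ∈ Finset.Ico a (a + i), d l, hmem i⟩ : M)) := by
    have key : ∀ i j : Fin (b + 1 - a), i < j →
        ∑ l ∈ Finset.Ico a (a + (i : ℕ)), d l ≠ ∑ l ∈ Finset.Ico a (a + (j : ℕ)), d l := by
      intro i j hij he
      have h1 := Finset.sum_Ico_consecutive d (show a ≤ a + (i : ℕ) by omega)
        (show a + (i : ℕ) ≤ a + (j : ℕ) by have : (i : ℕ) < j := hij; omega)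
      rw [he] at h1
      have h2 : ∑ l ∈ Finset.Ico (a + (i : ℕ)) (a + (j : ℕ)), d l = 0 := by
        have := h1
        rwa [add_eq_left] at this
      have := j.2
      have h3 : (i : ℕ) < j := hij
      exact h (a + i) (a + j) (by omega) (by omega) (by omega) h2
    intro i j hij
    have hij' := congrArg Subtype.val hij
    rcases lt_trichotomy i j with h1 | h1 | h1
    · exact absurd hij' (key i j h1)
    · exact h1
    · exact absurd hij'.symm (key j i h1)
  have := Nat.card_le_card_of_injective _ hinj
  rwa [Nat.card_eq_fintype_card, Fintype.card_fin] at this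

theorem Dist.card_le' [Finite G] {d : ℕ → G} {a b : ℕ} (h : Dist d a b) (hab : a ≤ b) :
    b + 1 - a ≤ Nat.card G := by
  have := h.card_le hab (⊤ : AddSubgroup G) (fun j _ _ => AddSubgroup.mem_top _)
  rwa [AddSubgroup.card_top] at this

theorem Hw_le_iff (d : ℕ → G) (a b : ℕ) (M : AddSubgroup G) :
    Hw d a b ≤ M ↔ ∀ j, a ≤ j → j < b → d j ∈ M := by
  unfold Hw
  rw [AddSubgroup.closure_le]
  constructor
  · intro h j h1 h2
    exact h ⟨j, ⟨h1, h2⟩, rfl⟩
  · rintro h _ ⟨j, ⟨h1, h2⟩, rfl⟩
    exact h j h1 h2

theorem Hw_restr (M : AddSubgroup G) (d : ℕ → G) (a b : ℕ) (hd : ∀ j, a ≤ j → j < b → d j ∈ M) :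
    (Hw (restr M d) a b).map M.subtype = Hw d a b := by
  unfold Hw
  rw [AddMonoidHom.map_closure]
  congr 1
  ext u
  simp only [Set.mem_image, Set.mem_Ico]
  constructor
  · rintro ⟨_, ⟨j, hj, rfl⟩, rfl⟩
    exact ⟨j, hj, (restr_coe M d j (hd j hj.1 hj.2)).symm⟩
  · rintro ⟨j, hj, rfl⟩
    exact ⟨restr M d j, ⟨j, hj, rfl⟩, restr_coe M d j (hd j hj.1 hj.2)⟩

theorem CC.restr {d : ℕ → G} {a c b : ℕ} (h : CC d a c b) (M : AddSubgroup G)
    (hd : ∀ j, a ≤ j → j < b → d j ∈ M) : CC (SMAb.restr M d) a c b := by
  intro hac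
  rcases h hac with h | h
  · exact Or.inl h
  · right
    intro he
    apply h
    rw [← Hw_restr M d (c - 1) b (fun j h1 h2 => hd j (by omega) h2),
      ← Hw_restr M d c b (fun j h1 h2 => hd j (by omega) h2), he]

/-- reversal of the time -/
def rev (d : ℕ → G) (N : ℕ) : ℕ → G := fun j => d (N - 1 - j)

theorem F_rev [Finite G] (d : ℕ → G) {a b N : ℕ} (hab : a ≤ b) (hb : b ≤ N) :
    F d a b = F (rev d N) (N - b) (N - a) := by
  have key : ∀ (d : ℕ → G) (a b : ℕ), a ≤ b → b ≤ N → ∀ h ∈ Ch d a b,
      (fun g => N - h g) ∈ Ch (rev d N) (N - b) (N - a) := by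
    intro d a b hab hb h hh
    refine ⟨fun g => ?_, ?_⟩
    · have := hh.1 g
      constructor
      · show N - b ≤ N - h g
        omega
      · show N - h g ≤ N - a
        omega
    · intro j g hj
      show j < N - h (g + d (N - 1 - j))
      have hj' : j < N - h g := hj
      by_contra hcon
      have h1 : N - 1 - j < h (g + d (N - 1 - j)) := by
        have := (hh.1 (g + d (N - 1 - j))).2
        omega
      have h2 := inv_neg {g | N - 1 - j < h g} (d (N - 1 - j)) (fun g hg => hh.2 _ g hg) _ h1
      rw [show g + d (N - 1 - j) + -d (N - 1 - j) = g by abel] at h2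
      have h3 : N - 1 - j < h g := h2
      omega
  unfold F
  refine Set.ncard_congr (fun h _ g => N - h g) (fun h hh => key d a b hab hb h hh) ?_ ?_
  · intro h h' hh hh' he
    funext g
    have h1 := congrFun he g
    have h2 := (hh.1 g).2
    have h3 := (hh'.1 g).2
    have h4 : N - h g = N - h' g := h1
    omega
  · intro h' hh'
    refine ⟨fun g => N - h' g, ?_, ?_⟩
    · have hk := key (rev d N) (N - b) (N - a) (by omega) (by omega) h' hh'
      have e1 : N - (N - a) = a := by omega
      have e2 : N - (N - b) = b := by omega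
      rw [e1, e2] at hk
      refine ⟨hk.1, ?_⟩
      intro j g hj
      have hb' := (hk.1 g).2
      have hj2 : j < N := by
        have : j < N - h' g := hj
        omega
      have := hk.2 j g hj
      have e3 : rev (rev d N) N j = d j := by
        show d (N - 1 - (N - 1 - j)) = d j
        congr 1
        omega
      rw [e3] at this
      exact this
    · funext g
      have := (hh'.1 g).2
      show N - (N - h' g) = h' g
      omega

theorem Hw_rev (d : ℕ → G) {a b N : ℕ} (hab : a ≤ b) (hb : b ≤ N) :
    Hw (rev d N) a b = Hw d (N - b) (N - a) := by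
  unfold Hw
  congr 1
  ext u
  simp only [Set.mem_image, Set.mem_Ico]
  constructor
  · rintro ⟨j, hj, rfl⟩
    exact ⟨N - 1 - j, ⟨by omega, by omega⟩, rfl⟩
  · rintro ⟨j, hj, rfl⟩
    refine ⟨N - 1 - j, ⟨by omega, by omega⟩, ?_⟩
    show d (N - 1 - (N - 1 - j)) = d j
    congr 1
    omega

theorem Dist.rev {d : ℕ → G} {a b N : ℕ} (h : Dist d a b) (hb : b ≤ N) :
    Dist (SMAb.rev d N) (N - b) (N - a) := by
  intro i j hi hij hj h0
  have hN : 1 ≤ N := by omega
  have e : ∑ l ∈ Finset.Ico i j, SMAb.rev d N l = ∑ l ∈ Finset.Ico (N - j) (N - i), d l := by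
    have := Finset.sum_Ico_reflect d i (show j ≤ (N - 1) + 1 by omega)
    rw [show N - 1 + 1 - j = N - j by omega, show N - 1 + 1 - i = N - i by omega] at this
    exact this
  rw [e] at h0
  exact h (N - j) (N - i) (by omega) (by omega) (by omega) h0

end SMAb
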