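import Mathlib
import Pool.Agent.Lib.MP_c91ad1_co.AbIndex

/-!
# The upper bound for the number of chains in an abelian group of order `2 ^ k`
-/

set_option autoImplicit false

namespace SMAb

theorem case_num (k L' L : ℕ) (h1 : L' < 2 ^ (k + 1)) (h2 : L' ≤ L) :
    (phi k L') ^ 2 + 2 * phi k L' * D k (L - L') ≤ phi (k + 1) L := by
  have hg := D_good k
  have hper := D_per k
  have h3B := y4_le k
  have e2 : (2 : ℕ) ^ (k + 1) = 2 * 2 ^ k := by rw [pow_succ]; ring
  have hphi : phi (k + 1) L = ((y (k + 1)) ^ 2) ^ 2 + D (k + 1) (L - 2 ^ (k + 1)) := by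
    unfold phi; ring
  have hge := D_ge k (L - 2 ^ (k + 1))
  rw [hphi]
  rw [e2] at h1 hge ⊢
  unfold phi
  set Q := 2 ^ k with hQ
  set B := (y k) ^ 4 with hB
  set A := (y (k + 1)) ^ 2 with hA
  rcases le_total Q L' with hL | hL
  · obtain ⟨s, hs⟩ := Nat.exists_eq_add_of_le hL
    have hs' : L' - Q = s := by omega
    have hsQ : s ≤ Q := by omega
    rw [hs']
    have hEs := hg.mono hsQ
    rcases le_total (2 * Q) L with hL2 | hL2
    · obtain ⟨m, hm⟩ := Nat.exists_eq_add_of_le hL2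
      have hm' : L - 2 * Q = m := by omega
      rw [hm'] at hge ⊢
      have h4 := hg.sup (L - L') s
      rw [show L - L' + s = m + Q by omega, hg.per] at h4
      have h5 : (B + D k s) + D k (L - L') ≤ A + D k m := by omega
      have h6 : B + D k s ≤ A := by omega
      set P := B + D k s with hP
      set e1 := D k (L - L') with he1
      set em := D k m with hem
      have h7 : P ^ 2 + 2 * P * e1 ≤ A ^ 2 + 2 * A * em := by
        obtain ⟨c, hc⟩ := Nat.exists_eq_add_of_le h6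
        have h8 : e1 ≤ c + em := by omega
        have h9 : 2 * P * e1 ≤ 2 * P * (c + em) := Nat.mul_le_mul_left _ h8
        rw [hc]
        nlinarith [Nat.zero_le (c * em), Nat.zero_le (c ^ 2)]
      omega
    · have h4 := hg.sup (L - L') s
      have h5 := hg.mono (show L - L' + s ≤ Q by omega)
      have h6 : (B + D k s) + D k (L - L') ≤ A := by omega
      have h7 := Nat.pow_le_pow_left h6 2
      nlinarith [Nat.zero_le (D k (L - L') ^ 2)]
  · have hs' : L' - Q = 0 := by omega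
    rw [hs', hg.zero, Nat.add_zero]
    set eQ := D k Q with heQ
    have h2B : 2 * B ≤ eQ := by omega
    rcases le_total (2 * Q) L with hL2 | hL2
    · obtain ⟨m, hm⟩ := Nat.exists_eq_add_of_le hL2
      have hm' : L - 2 * Q = m := by omega
      rw [hm'] at hge ⊢
      have h5 := hg.mono (show L - L' ≤ m + 2 * Q by omega)
      rw [hg.per2, show 2 * Q = Q + Q by ring, hg.per] at h5
      have h6 : 2 * B * D k (L - L') ≤ 2 * B * (D k m + (eQ + eQ)) := Nat.mul_le_mul_left _ h5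
      have h7 : 2 * B * eQ ≤ eQ * eQ := Nat.mul_le_mul_right _ h2B
      have h8 : A = B + eQ := by omega
      have h9 : 2 * B * D k m ≤ 2 * A * D k m := by
        apply Nat.mul_le_mul_right
        omega
      have h10 : A ^ 2 = B ^ 2 + 2 * B * eQ + eQ * eQ := by rw [h8]; ring
      have h11 : 2 * B * (D k m + (eQ + eQ)) = 2 * B * D k m + 2 * (2 * B * eQ) := by ring
      rw [h11] at h6
      rw [h10]
      linarith
    · have h5 := hg.mono (show L - L' ≤ Q + Q by omega)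
      rw [hg.per] at h5
      have h6 : 2 * B * D k (L - L') ≤ 2 * B * (eQ + eQ) := Nat.mul_le_mul_left _ h5
      have h7 : 2 * B * eQ ≤ eQ * eQ := Nat.mul_le_mul_right _ h2B
      have h8 : A = B + eQ := by omega
      have h10 : A ^ 2 = B ^ 2 + 2 * B * eQ + eQ * eQ := by rw [h8]; ring
      have h11 : 2 * B * (eQ + eQ) = 2 * (2 * B * eQ) := by ring
      rw [h11] at h6
      rw [h10]
      linarith

theorem phi_sq (k L : ℕ) (h1 : 2 ^ (k + 1) ≤ L) (h2 : L ≤ 2 ^ (k + 2)) :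
    (phi k L) ^ 2 = phi (k + 1) L := by
  have hg := D_good k
  have hper := D_per k
  have e2 : (2 : ℕ) ^ (k + 1) = 2 * 2 ^ k := by rw [pow_succ]; ring
  have e3 : (2 : ℕ) ^ (k + 2) = 2 * 2 ^ (k + 1) := by rw [pow_succ]; ring
  obtain ⟨m, hm⟩ := Nat.exists_eq_add_of_le h1
  have hm2 : m ≤ 2 ^ (k + 1) := by omega
  unfold phi
  rw [show L - 2 ^ (k + 1) = m by omega, D_low k m hm2, show L - 2 ^ k = m + 2 ^ k by omega, hg.per]
  have : (y k) ^ 4 + (D k m + D k (2 ^ k)) = (y (k + 1)) ^ 2 + D k m := by omega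
  rw [this]
  ring

variable {G : Type} [AddCommGroup G]

theorem exists_pivot [Finite G] [Nontrivial G] (d : ℕ → G) {a b : ℕ} (hab : a ≤ b) :
    ∃ p r, a ≤ p ∧ p ≤ r ∧ r ≤ b ∧ Hw d p r ≠ ⊤ ∧
      ∀ p' r', a ≤ p' → p' ≤ r' → r' ≤ b → Hw d p' r' ≠ ⊤ → r' - p' ≤ r - p := by
  classical
  let S := ((Finset.Icc a b) ×ˢ (Finset.Icc a b)).filter (fun x => x.1 ≤ x.2 ∧ Hw d x.1 x.2 ≠ ⊤)
  have hS : S.Nonempty := by
    refine ⟨(a, a), ?_⟩
    simp only [S, Finset.mem_filter, Finset.mem_product, Finset.mem_Icc]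
    refine ⟨⟨⟨le_rfl, hab⟩, ⟨le_rfl, hab⟩⟩, le_rfl, ?_⟩
    rw [Hw_self]
    exact bot_ne_top
  obtain ⟨x, hx, hmax⟩ := Finset.exists_max_image S (fun x => x.2 - x.1) hS
  simp only [S, Finset.mem_filter, Finset.mem_product, Finset.mem_Icc] at hx hmax
  refine ⟨x.1, x.2, hx.1.1.1, hx.2.1, hx.1.2.2, hx.2.2, ?_⟩
  intro p' r' h1 h2 h3 h4
  exact hmax (p', r') ⟨⟨⟨h1, by omega⟩, ⟨by omega, h3⟩⟩, h2, h4⟩

theorem pivot_bound [Finite G] [Nontrivial G] (d : ℕ → G) {a b p r : ℕ} (h1 : a ≤ p) (h2 : p ≤ r)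
    (h3 : r ≤ b) (h4 : Hw d p r ≠ ⊤)
    (hmax : ∀ p' r', a ≤ p' → p' ≤ r' → r' ≤ b → Hw d p' r' ≠ ⊤ → r' - p' ≤ r - p)
    (Φ : ℕ → ℕ) (hΦ : ∀ s t, Φ s + Φ t ≤ Φ (s + t))
    (H1 : ∀ a' c' b', a ≤ a' → a' < c' → c' ≤ b' + 1 → b' ≤ b → Hw d a' b' ≠ ⊤ → CC d a' c' b' →
      F d a' b' ≤ F d c' b' + Φ (c' - a'))
    (H2 : ∀ a' c' b', a' < c' → c' ≤ b' + 1 → b' ≤ b - a → Hw (rev d b) a' b' ≠ ⊤ →
      CC (rev d b) a' c' b' → F (rev d b) a' b' ≤ F (rev d b) c' b' + Φ (c' - a')) :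
    F d a b ≤ F d p r + Φ ((b + 1 - a) - (r + 1 - p)) := by
  have hs := F_step d (a := a) (a2 := p) (b1 := r) (b := b) h1 h3 (by omega) (by
    intro h5 h6
    by_contra hc
    have := hmax (p - 1) (r + 1) (by omega) (by omega) (by omega) hc
    omega)
  have hL : F d a r ≤ F d p r + Φ (p - a) := by
    refine tele d a b Φ hΦ (fun a' c' b' h5 h6 h7 h8 h9 h10 => H1 a' c' b' h5 h6 h7 h8 h9 h10)
      (p - a) a p r le_rfl le_rfl h1 (by omega) h3 ?_
    intro h5
    right
    intro he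
    apply h4
    rw [← he]
    by_contra hc
    have := hmax (p - 1) r (by omega) (by omega) (by omega) hc
    omega
  have hR : F d p b ≤ F d p r + Φ (b - r) := by
    rw [F_rev d (show p ≤ b by omega) (le_refl b), F_rev d h2 h3, Nat.sub_self]
    have := tele (rev d b) 0 (b - a) Φ hΦ (fun a' c' b' _ h6 h7 h8 h9 h10 => H2 a' c' b' h6 h7 h8 h9 h10)
      (b - r - 0) 0 (b - r) (b - p) le_rfl le_rfl (by omega) (by omega) (by omega) ?_
    · rw [Nat.sub_zero] at this
      exact this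
    · intro h5
      right
      intro he
      apply h4
      rw [Hw_rev d (show b - r ≤ b - p by omega) (by omega),
        Hw_rev d (show b - r - 1 ≤ b - p by omega) (by omega)] at he
      rw [show b - (b - p) = p by omega, show b - (b - r) = r by omega,
        show b - (b - r - 1) = r + 1 by omega] at he
      rw [← he]
      by_contra hc
      have := hmax p (r + 1) (by omega) (by omega) (by omega) hc
      omega
  have hsum := hΦ (p - a) (b - r)
  rw [show p - a + (b - r) = (b + 1 - a) - (r + 1 - p) by omega] at hsum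
  omega

/-! ### orders one and two -/

theorem bmax_one [Finite G] (hc : Nat.card G = 2 ^ 0) (d : ℕ → G) (a b : ℕ) (hab : a ≤ b)
    (hd : Dist d a b) : F d a b ≤ 1 := by
  have := hd.card_le' hab
  rw [hc] at this
  have h2 : a = b := by omega
  rw [h2, F_self]

theorem F_two [Finite G] (hc : Nat.card G = 2 ^ 1) (d : ℕ → G) (a b : ℕ) (hab : a ≤ b)
    (hd : Dist d a b) : F d a b ≤ b + 1 - a := by
  have h1 := hd.card_le' hab
  rw [hc] at h1
  rcases Nat.lt_or_ge a b with h2 | h2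
  · have h3 : b = a + 1 := by omega
    subst h3
    have htop : Hw d a (a + 1) = ⊤ := by
      by_contra hne
      obtain ⟨M, hM1, hM2⟩ := exists_index_two 1 hc _ hne
      have hM3 := card_of_index_two 0 hc M hM2
      have hM4 := (Hw_le_iff d a (a + 1) M).1 hM1
      have := hd.card_le hab M hM4
      rw [hM3] at this
      omega
    have hs := F_step d (a := a) (a2 := a + 1) (b1 := a) (b := a + 1) (by omega) (by omega) le_rfl
      (by intro _ _; rw [Nat.add_sub_cancel]; exact htop)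
    rw [F_empty, F_self, F_self] at hs
    omega
  · have h3 : a = b := by omega
    rw [h3, F_self]
    omega

/-- the two statements of the induction -/
structure Main (k : ℕ) : Prop where
  star : ∀ (G : Type) [AddCommGroup G] [Finite G], Nat.card G = 2 ^ (k + 2) →
    ∀ (d : ℕ → G) (a c b : ℕ), a ≤ c → c ≤ b + 1 → Dist d a b → CC d a c b →
      F d a b ≤ F d c b + D k (c - a)
  bd : ∀ (G : Type) [AddCommGroup G] [Finite G], Nat.card G = 2 ^ (k + 2) →
    ∀ (d : ℕ → G) (a b : ℕ), a ≤ b → Dist d a b → F d a b ≤ phi k (b + 1 - a)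

omit [AddCommGroup G] in
theorem nontrivial_of_card [Finite G] {k : ℕ} (hc : Nat.card G = 2 ^ (k + 1)) : Nontrivial G := by
  rw [← Finite.one_lt_card_iff_nontrivial, hc]
  exact Nat.one_lt_two_pow (by omega)

theorem nf_four [Finite G] (hc : Nat.card G = 2 ^ (0 + 2)) (d : ℕ → G) (a b : ℕ) (hab : a ≤ b)
    (hd : Dist d a b) (hH : Hw d a b ≠ ⊤) :
    b + 1 - a ≤ 2 ∧ F d a b + 2 ≤ 3 * (b + 1 - a) := by
  obtain ⟨M, hM1, hM2⟩ := exists_index_two 2 hc _ hH
  have hM3 := card_of_index_two 1 hc M hM2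
  have hM4 := (Hw_le_iff d a b M).1 hM1
  have h1 := hd.card_le hab M hM4
  rw [hM3] at h1
  have h2 := F_two hM3 (restr M d) a b hab (hd.restr M hM4)
  rw [F_sq M hM2 d a b hM4]
  have h3 : b + 1 - a = 1 ∨ b + 1 - a = 2 := by omega
  refine ⟨by omega, ?_⟩
  rcases h3 with h3 | h3
  · rw [h3] at h2 ⊢
    have := Nat.pow_le_pow_left h2 2
    omega
  · rw [h3] at h2 ⊢
    have := Nat.pow_le_pow_left h2 2
    omega

theorem nf_four_star [Finite G] (hc : Nat.card G = 2 ^ (0 + 2)) (d : ℕ → G) (a c b : ℕ)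
    (h1 : a < c) (h2 : c ≤ b + 1) (hd : Dist d a b) (hH : Hw d a b ≠ ⊤) :
    F d a b ≤ F d c b + D 0 (c - a) := by
  obtain ⟨h3, h4⟩ := nf_four hc d a b (by omega) hd hH
  have e : D 0 (c - a) = 3 * (c - a) := rfl
  rw [e]
  rcases Nat.lt_or_ge b c with h5 | h5
  · omega
  · have h6 : c = b := by omega
    subst h6
    rw [F_self]
    omega

theorem main_zero : Main 0 := by
  constructor
  · intro G _ _ hc d a c b h1 h2 hd hcc
    have := nontrivial_of_card hc
    refine tele d a b (D 0) (D_good 0).sup ?_ (c - a) a c b le_rfl le_rfl h1 h2 le_rfl hcc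
    intro a' c' b' h3 h4 h5 h6 h7 _
    exact nf_four_star hc d a' c' b' h4 h5 (hd.sub h3 h6) h7
  · intro G _ _ hc d a b hab hd
    have := nontrivial_of_card hc
    obtain ⟨p, r, h1, h2, h3, h4, hmax⟩ := exists_pivot d hab
    have hpb := pivot_bound d h1 h2 h3 h4 hmax (D 0) (D_good 0).sup
      (fun a' c' b' h5 h6 h7 h8 h9 _ => nf_four_star hc d a' c' b' h6 h7 (hd.sub h5 h8) h9)
      (fun a' c' b' h6 h7 h8 h9 _ => nf_four_star hc _ a' c' b' h6 h7
        ((hd.rev (le_refl b)).sub (by omega) (by omega)) h9)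
    obtain ⟨h5, h6⟩ := nf_four hc d p r h2 (hd.sub h1 h3) h4
    have e1 : D 0 ((b + 1 - a) - (r + 1 - p)) = 3 * ((b + 1 - a) - (r + 1 - p)) := rfl
    have e2 : phi 0 (b + 1 - a) = 1 ^ 4 + 3 * ((b + 1 - a) - 2 ^ 0) := rfl
    rw [e1] at hpb
    rw [e2]
    norm_num
    omega

theorem bmax_of_main {k : ℕ} (h : Main k) [Finite G] (hc : Nat.card G = 2 ^ (k + 2)) (d : ℕ → G)
    (a b : ℕ) (hab : a ≤ b) (hd : Dist d a b) : F d a b ≤ y (k + 2) := by
  refine (h.bd G hc d a b hab hd).trans ?_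
  rw [← phi_full]
  apply phi_mono
  rw [← hc]
  exact hd.card_le' hab

/-- the statement for windows which do not generate the group -/
theorem nf_star {k : ℕ} (h : Main k)
    (hb1 : ∀ (G : Type) [AddCommGroup G] [Finite G], Nat.card G = 2 ^ (k + 1) →
      ∀ (d : ℕ → G) (a b : ℕ), a ≤ b → Dist d a b → F d a b ≤ y (k + 1))
    [Finite G] (hc : Nat.card G = 2 ^ (k + 1 + 2)) (d : ℕ → G) (a c b : ℕ)
    (h1 : a < c) (h2 : c ≤ b + 1) (hd : Dist d a b) (hH : Hw d a b ≠ ⊤) (hcc : CC d a c b) :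
    ∃ X Y, F d a b = X ^ 2 ∧ F d c b = Y ^ 2 ∧ X ≤ Y + D k (c - a) ∧ Y ≤ (y (k + 1)) ^ 2 ∧
      X ≤ y (k + 2) ∧ c - a ≤ 2 ^ (k + 2) ∧ X ≤ phi k (b + 1 - a) := by
  obtain ⟨M, hM1, hM2⟩ := exists_index_two (k + 1 + 2) hc _ hH
  have hM3 : Nat.card M = 2 ^ (k + 2) := card_of_index_two (k + 2) hc M hM2
  have hM4 := (Hw_le_iff d a b M).1 hM1
  have hab : a ≤ b := by omega
  have hdM := hd.restr M hM4
  refine ⟨F (restr M d) a b, F (restr M d) c b, F_sq M hM2 d a b hM4,
    F_sq M hM2 d c b (fun j hj1 hj2 => hM4 j (by omega) hj2), ?_, ?_, ?_, ?_, ?_⟩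
  · exact h.star M hM3 (restr M d) a c b h1.le h2 hdM (hcc.restr M hM4)
  · by_cases hcb : c = b + 1
    · rw [hcb, F_empty]
      exact Nat.zero_le _
    · have hne : Hw (restr M d) c b ≠ ⊤ := by
        rcases hcc.restr M hM4 h1 with h5 | h5
        · exact absurd h5 hcb
        · intro htop
          apply h5
          rw [htop, ← top_le_iff, ← htop]
          exact Hw_mono _ (by omega) le_rfl
      obtain ⟨M', hM1', hM2'⟩ := exists_index_two (k + 2) hM3 _ hne
      have hM3' : Nat.card M' = 2 ^ (k + 1) := card_of_index_two (k + 1) hM3 M' hM2'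
      have hM4' := (Hw_le_iff (restr M d) c b M').1 hM1'
      rw [F_sq M' hM2' (restr M d) c b hM4']
      exact Nat.pow_le_pow_left (hb1 M' hM3' _ c b (by omega)
        ((hdM.sub h1.le le_rfl).restr M' hM4')) 2
  · exact bmax_of_main h hM3 _ a b hab hdM
  · have := hd.card_le hab M hM4
    rw [hM3] at this
    omega
  · exact h.bd M hM3 _ a b hab hdM

theorem nf_phi {k : ℕ} (h : Main k) [Finite G] (hc : Nat.card G = 2 ^ (k + 1 + 2)) (d : ℕ → G) (a b : ℕ)
    (hab : a ≤ b) (hd : Dist d a b) (hH : Hw d a b ≠ ⊤) :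
    F d a b ≤ (phi k (b + 1 - a)) ^ 2 ∧ b + 1 - a ≤ 2 ^ (k + 2) := by
  obtain ⟨M, hM1, hM2⟩ := exists_index_two (k + 1 + 2) hc _ hH
  have hM3 : Nat.card M = 2 ^ (k + 2) := card_of_index_two (k + 2) hc M hM2
  have hM4 := (Hw_le_iff d a b M).1 hM1
  refine ⟨?_, ?_⟩
  · rw [F_sq M hM2 d a b hM4]
    exact Nat.pow_le_pow_left (h.bd M hM3 _ a b hab (hd.restr M hM4)) 2
  · have := hd.card_le hab M hM4
    rwa [hM3] at this

theorem sq_le_aux (X Y e P : ℕ) (h1 : X ≤ Y + e) (h2 : X ≤ P) : X ^ 2 ≤ Y ^ 2 + 2 * P * e := by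
  rcases le_total X Y with h | h
  · have := Nat.pow_le_pow_left h 2
    omega
  · obtain ⟨c, rfl⟩ := Nat.exists_eq_add_of_le h
    have h3 : c ≤ e := by omega
    have h4 : c * (2 * Y + c) ≤ e * (2 * P) := Nat.mul_le_mul h3 (by omega)
    nlinarith

theorem main_succ {k : ℕ} (h : Main k)
    (hb1 : ∀ (G : Type) [AddCommGroup G] [Finite G], Nat.card G = 2 ^ (k + 1) →
      ∀ (d : ℕ → G) (a b : ℕ), a ≤ b → Dist d a b → F d a b ≤ y (k + 1)) : Main (k + 1) := by
  have hstar : ∀ (G : Type) [AddCommGroup G] [Finite G], Nat.card G = 2 ^ (k + 1 + 2) →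
      ∀ (d : ℕ → G) (a c b : ℕ), a < c → c ≤ b + 1 → Dist d a b → Hw d a b ≠ ⊤ → CC d a c b →
      F d a b ≤ F d c b + D (k + 1) (c - a) := by
    intro G _ _ hc d a c b h1 h2 hd hH hcc
    obtain ⟨X, Y, e1, e2, h3, h4, h5, h6, _⟩ := nf_star h hb1 hc d a c b h1 h2 hd hH hcc
    rw [e1, e2]
    exact power_step k X Y (c - a) h3 h4 h5 h6
  constructor
  · intro G _ _ hc d a c b h1 h2 hd hcc
    have := nontrivial_of_card hc
    refine tele d a b (D (k + 1)) (D_good (k + 1)).sup ?_ (c - a) a c b le_rfl le_rfl h1 h2 le_rfl hcc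
    intro a' c' b' h3 h4 h5 h6 h7 h8
    exact hstar G hc d a' c' b' h4 h5 (hd.sub h3 h6) h7 h8
  · intro G _ _ hc d a b hab hd
    have := nontrivial_of_card hc
    obtain ⟨p, r, h1, h2, h3, h4, hmax⟩ := exists_pivot d hab
    obtain ⟨h5, h6⟩ := nf_phi h hc d p r h2 (hd.sub h1 h3) h4
    rcases Nat.lt_or_ge (r + 1 - p) (2 ^ (k + 1)) with h7 | h7
    · have hrevmax : ∀ a' b', a' ≤ b' → b' ≤ b - a → Hw (rev d b) a' b' ≠ ⊤ → b' - a' ≤ r - p := by
        intro a' b' h8 h9 h10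
        rw [Hw_rev d h8 (by omega)] at h10
        have := hmax (b - b') (b - a') (by omega) (by omega) (by omega) h10
        omega
      have hpb := pivot_bound d h1 h2 h3 h4 hmax (fun t => 2 * phi k (r + 1 - p) * D k t)
        (fun s t => by
          have := Nat.mul_le_mul_left (2 * phi k (r + 1 - p)) ((D_good k).sup s t)
          rw [← Nat.mul_add]
          exact this)
        (fun a' c' b' h8 h9 h10 h11 h12 h13 => by
          obtain ⟨X, Y, e1, e2, h14, _, _, _, h15⟩ :=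
            nf_star h hb1 hc d a' c' b' h9 h10 (hd.sub h8 h11) h12 h13
          rw [e1, e2]
          refine sq_le_aux X Y _ _ h14 (h15.trans (phi_mono k ?_))
          have := hmax a' b' h8 (by omega) h11 h12
          omega)
        (fun a' c' b' h9 h10 h11 h12 h13 => by
          obtain ⟨X, Y, e1, e2, h14, _, _, _, h15⟩ :=
            nf_star h hb1 hc (rev d b) a' c' b' h9 h10
              ((hd.rev (le_refl b)).sub (by omega) (by omega)) h12 h13
          rw [e1, e2]
          refine sq_le_aux X Y _ _ h14 (h15.trans (phi_mono k ?_))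
          have := hrevmax a' b' (by omega) h11 h12
          omega)
      have hn := case_num k (r + 1 - p) (b + 1 - a) h7 (by omega)
      beta_reduce at hpb
      omega
    · have hpb := pivot_bound d h1 h2 h3 h4 hmax (D (k + 1)) (D_good (k + 1)).sup
        (fun a' c' b' h8 h9 h10 h11 h12 h13 => hstar G hc d a' c' b' h9 h10 (hd.sub h8 h11) h12 h13)
        (fun a' c' b' h9 h10 h11 h12 h13 => hstar G hc _ a' c' b' h9 h10
          ((hd.rev (le_refl b)).sub (by omega) (by omega)) h12 h13)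
      rw [phi_sq k _ h7 h6] at h5
      have hsup := (D_good (k + 1)).sup (r + 1 - p - 2 ^ (k + 1)) ((b + 1 - a) - (r + 1 - p))
      rw [show r + 1 - p - 2 ^ (k + 1) + ((b + 1 - a) - (r + 1 - p)) = b + 1 - a - 2 ^ (k + 1) by omega]
        at hsup
      unfold phi at h5 ⊢
      omega

theorem main_all (k : ℕ) : Main k ∧ (∀ (G : Type) [AddCommGroup G] [Finite G],
    Nat.card G = 2 ^ (k + 1) → ∀ (d : ℕ → G) (a b : ℕ), a ≤ b → Dist d a b → F d a b ≤ y (k + 1)) := by
  induction k with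
  | zero =>
    refine ⟨main_zero, ?_⟩
    intro G _ _ hc d a b hab hd
    have h1 := F_two hc d a b hab hd
    have h2 := hd.card_le' hab
    rw [hc] at h2
    show F d a b ≤ 2
    omega
  | succ k ih =>
    refine ⟨main_succ ih.1 ih.2, ?_⟩
    intro G _ _ hc d a b hab hd
    exact bmax_of_main ih.1 hc d a b hab hd

/-- the number of chains in an abelian group of order `2 ^ k` is at most `y k` -/
theorem F_le [Finite G] (k : ℕ) (hc : Nat.card G = 2 ^ k) (d : ℕ → G) (a b : ℕ) (hab : a ≤ b)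
    (hd : Dist d a b) : F d a b ≤ y k := by
  match k, hc with
  | 0, hc => exact bmax_one hc d a b hab hd
  | k + 1, hc => exact (main_all k).2 G hc d a b hab hd

end SMAb
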