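import Mathlib
import Pool.Agent.Lib.MP_c91ad1_co.AbMain

/-!
# The ruler word attains the bound
-/

set_option autoImplicit false

namespace SMAb

/-- the exponent of two -/
def v2 (n : ℕ) : ℕ := padicValNat 2 n

theorem v2_dvd_iff {n c : ℕ} (hn : n ≠ 0) : 2 ^ c ∣ n ↔ c ≤ v2 n := by
  unfold v2
  exact padicValNat_dvd_iff_le hn

theorem v2_pow (s : ℕ) : v2 (2 ^ s) = s := by
  unfold v2
  exact padicValNat.prime_pow s

theorem v2_lt {i s : ℕ} (hi : 0 < i) (his : i < 2 ^ s) : v2 i < s := by
  by_contra h
  push Not at h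
  have h1 : 2 ^ s ∣ i := (v2_dvd_iff hi.ne').2 h
  have := Nat.le_of_dvd hi h1
  omega

theorem v2_add {i s c : ℕ} (hi : 0 < i) (his : i < 2 ^ s) : v2 (c * 2 ^ s + i) = v2 i := by
  have hs := v2_lt hi his
  have hne : c * 2 ^ s + i ≠ 0 := by omega
  have key : ∀ n, n ≤ s → (2 ^ n ∣ c * 2 ^ s + i ↔ 2 ^ n ∣ i) := by
    intro n hn
    have h1 : 2 ^ n ∣ c * 2 ^ s := (pow_dvd_pow 2 hn).trans (Nat.dvd_mul_left _ _)
    exact Nat.dvd_add_right h1
  apply le_antisymm
  · by_contra h
    push Not at h
    have h1 : 2 ^ (v2 i + 1) ∣ c * 2 ^ s + i := (v2_dvd_iff hne).2 h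
    rw [key _ (by omega), v2_dvd_iff hi.ne'] at h1
    omega
  · rw [← v2_dvd_iff hne, key _ hs.le, v2_dvd_iff hi.ne']

variable {G : Type} [AddCommGroup G]

theorem card_sup_le [Finite G] (H : AddSubgroup G) (x : G) (h2 : x + x = 0) :
    Nat.card (H ⊔ AddSubgroup.closure {x} : AddSubgroup G) ≤ 2 * Nat.card H := by
  have hx : x ∈ (H ⊔ AddSubgroup.closure {x} : AddSubgroup G) :=
    (le_sup_right : _ ≤ H ⊔ AddSubgroup.closure {x}) (AddSubgroup.mem_closure_singleton_self x)
  have hH : ∀ h : H, (h : G) ∈ (H ⊔ AddSubgroup.closure {x} : AddSubgroup G) :=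
    fun h => (le_sup_left : H ≤ H ⊔ AddSubgroup.closure {x}) h.2
  let f : H × Bool → (H ⊔ AddSubgroup.closure {x} : AddSubgroup G) := fun a =>
    ⟨(a.1 : G) + (if a.2 then x else 0), AddSubgroup.add_mem _ (hH a.1) (by
      by_cases h : a.2 = true
      · rw [if_pos h]; exact hx
      · rw [if_neg h]; exact AddSubgroup.zero_mem _)⟩
  have hf : Function.Surjective f := by
    rintro ⟨u, hu⟩
    obtain ⟨v, hv, w, hw, rfl⟩ := AddSubgroup.mem_sup.1 hu
    obtain ⟨n, rfl⟩ := AddSubgroup.mem_closure_singleton.1 hw
    rcases Int.even_or_odd n with ⟨m, hm⟩ | ⟨m, hm⟩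
    · refine ⟨(⟨v, hv⟩, false), Subtype.ext ?_⟩
      show v + (if (false = true) then x else 0) = v + n • x
      rw [if_neg (by decide), hm, add_zsmul, ← zsmul_add, h2, zsmul_zero]
    · refine ⟨(⟨v, hv⟩, true), Subtype.ext ?_⟩
      show v + (if (true = true) then x else 0) = v + n • x
      rw [if_pos rfl, hm, add_zsmul, one_zsmul, two_mul, add_zsmul, ← zsmul_add, h2, zsmul_zero, zero_add]
  have h := Nat.card_le_card_of_surjective f hf
  rw [Nat.card_prod, Nat.card_eq_fintype_card (α := Bool), Fintype.card_bool] at h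
  omega

theorem closure_Iio_succ (e : ℕ → G) (s : ℕ) : AddSubgroup.closure (e '' Set.Iio (s + 1)) =
    AddSubgroup.closure (e '' Set.Iio s) ⊔ AddSubgroup.closure {e s} := by
  rw [← AddSubgroup.closure_union]
  congr 1
  ext u
  simp only [Set.mem_image, Set.mem_Iio, Set.mem_union, Set.mem_singleton_iff]
  constructor
  · rintro ⟨j, hj, rfl⟩
    rcases Nat.lt_or_ge j s with h | h
    · exact Or.inl ⟨j, h, rfl⟩
    · right
      rw [show j = s by omega]
  · rintro (⟨j, hj, rfl⟩ | h)
    · exact ⟨j, by omega, rfl⟩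
    · exact ⟨s, by omega, h.symm⟩

theorem card_closure_le [Finite G] (h2 : ∀ g : G, g + g = 0) (e : ℕ → G) (s : ℕ) :
    Nat.card (AddSubgroup.closure (e '' Set.Iio s)) ≤ 2 ^ s := by
  induction s with
  | zero =>
    have : (Set.Iio 0 : Set ℕ) = ∅ := by
      ext x; simp
    rw [this, Set.image_empty, AddSubgroup.closure_empty, AddSubgroup.card_bot, pow_zero]
  | succ s ih =>
    rw [closure_Iio_succ]
    have := card_sup_le (AddSubgroup.closure (e '' Set.Iio s)) (e s) (h2 _)
    rw [pow_succ]
    omega

/-- independence -/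
def Ind (e : ℕ → G) (s : ℕ) : Prop :=
  ∀ I : Finset ℕ, I ⊆ Finset.range s → I.Nonempty → ∑ l ∈ I, e l ≠ 0

theorem top_of_ind [Finite G] (h2 : ∀ g : G, g + g = 0) (s : ℕ) (hc : Nat.card G = 2 ^ s) (e : ℕ → G)
    (he : Ind e s) : AddSubgroup.closure (e '' Set.Iio s) = ⊤ := by
  apply AddSubgroup.eq_top_of_le_card
  rw [hc]
  have hmem : ∀ I : (Finset.range s).powerset, ∑ l ∈ I.1, e l ∈ AddSubgroup.closure (e '' Set.Iio s) := by
    intro I
    apply AddSubgroup.sum_mem
    intro l hl
    apply AddSubgroup.subset_closure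
    have := Finset.mem_powerset.1 I.2 hl
    rw [Finset.mem_range] at this
    exact ⟨l, this, rfl⟩
  have hinj : Function.Injective (fun I : (Finset.range s).powerset =>
      (⟨∑ l ∈ I.1, e l, hmem I⟩ : AddSubgroup.closure (e '' Set.Iio s))) := by
    intro I J hIJ
    have h : ∑ l ∈ I.1, e l = ∑ l ∈ J.1, e l := congrArg Subtype.val hIJ
    apply Subtype.ext
    by_contra hne
    have h3 : (symmDiff I.1 J.1).Nonempty := by
      rw [Finset.nonempty_iff_ne_empty]
      intro h4
      exact hne (symmDiff_eq_bot.1 h4)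
    have h4 : symmDiff I.1 J.1 ⊆ Finset.range s := by
      intro l hl
      rw [Finset.mem_symmDiff] at hl
      rcases hl with hl | hl
      · exact Finset.mem_powerset.1 I.2 hl.1
      · exact Finset.mem_powerset.1 J.2 hl.1
    apply he _ h4 h3
    have e1 : ∑ l ∈ I.1, e l = ∑ l ∈ I.1 \ J.1, e l + ∑ l ∈ I.1 ∩ J.1, e l := by
      rw [← Finset.sum_union (Finset.disjoint_sdiff_inter _ _), Finset.sdiff_union_inter]
    have e2 : ∑ l ∈ J.1, e l = ∑ l ∈ J.1 \ I.1, e l + ∑ l ∈ I.1 ∩ J.1, e l := by
      rw [Finset.inter_comm, ← Finset.sum_union (Finset.disjoint_sdiff_inter _ _),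
        Finset.sdiff_union_inter]
    have e3 : ∑ l ∈ symmDiff I.1 J.1, e l = ∑ l ∈ I.1 \ J.1, e l + ∑ l ∈ J.1 \ I.1, e l := by
      rw [← Finset.sum_union]
      · rfl
      · rw [Finset.disjoint_left]
        intro l hl hl'
        rw [Finset.mem_sdiff] at hl hl'
        exact hl.2 hl'.1
    rw [e3]
    have e4 : ∑ l ∈ I.1 \ J.1, e l = ∑ l ∈ J.1 \ I.1, e l := by
      have : ∑ l ∈ I.1 \ J.1, e l + ∑ l ∈ I.1 ∩ J.1, e l =
        ∑ l ∈ J.1 \ I.1, e l + ∑ l ∈ I.1 ∩ J.1, e l := by rw [← e1, ← e2, h]
      exact add_right_cancel this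
    rw [e4]
    exact h2 _
  have := Nat.card_le_card_of_injective _ hinj
  rw [Nat.card_eq_fintype_card, Fintype.card_coe, Finset.card_powerset, Finset.card_range] at this
  exact this

/-- the value of a ruler window -/
def Rul (s t : ℕ) : Prop := ∀ (G : Type) [AddCommGroup G] [Finite G], (∀ g : G, g + g = 0) →
  Nat.card G = 2 ^ (s + t) → ∀ e : ℕ → G, Ind e s → ∀ (d : ℕ → G) (a : ℕ),
    (∀ i, i + 1 < 2 ^ s → d (a + i) = e (v2 (i + 1))) → F d a (a + 2 ^ s - 1) = (y s) ^ (2 ^ t)

theorem rul_t (s : ℕ) (h : Rul s 0) : ∀ t, Rul s t := by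
  intro t
  induction t with
  | zero => exact h
  | succ t ih =>
    intro G _ _ h2 hc e he d a hd
    have hpos : 0 < 2 ^ s := by positivity
    have hne : AddSubgroup.closure (e '' Set.Iio s) ≠ ⊤ := by
      intro htop
      have h1 := card_closure_le h2 e s
      rw [htop, AddSubgroup.card_top, hc] at h1
      have : 2 ^ s < 2 ^ (s + (t + 1)) := Nat.pow_lt_pow_right (by norm_num) (by omega)
      omega
    obtain ⟨M, hM1, hM2⟩ := exists_index_two _ hc _ hne
    have hM3 : Nat.card M = 2 ^ (s + t) := card_of_index_two (s + t) hc M hM2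
    have heM : ∀ l, l < s → e l ∈ M := fun l hl => hM1 (AddSubgroup.subset_closure ⟨l, hl, rfl⟩)
    have hdM : ∀ j, a ≤ j → j < a + 2 ^ s - 1 → d j ∈ M := by
      intro j h3 h4
      obtain ⟨i, rfl⟩ := Nat.exists_eq_add_of_le h3
      rw [hd i (by omega)]
      exact heM _ (v2_lt (by omega) (by omega))
    rw [F_sq M hM2 d a _ hdM]
    have := ih M (fun g => Subtype.ext (h2 g)) hM3 (restr M e) (by
      intro I hI hI' h0
      apply he I hI hI'
      have h5 := congrArg M.subtype h0
      rw [map_sum, map_zero] at h5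
      rw [← h5]
      refine Finset.sum_congr rfl ?_
      intro l hl
      exact (restr_coe M e l (heM l (Finset.mem_range.1 (hI hl)))).symm) (restr M d) a (by
      intro i hi
      apply Subtype.ext
      rw [restr_coe M d _ (hdM _ (by omega) (by omega)),
        restr_coe M e _ (heM _ (v2_lt (by omega) hi)), hd i hi])
    rw [this, ← pow_mul, pow_succ 2 t]

theorem y_two (s : ℕ) : y (s + 2) + (y s) ^ 4 + (y s) ^ 4 =
    (y (s + 1)) ^ 2 + (y (s + 1)) ^ 2 + (y (s + 1)) ^ 2 := by
  have := y_succ s
  omega

theorem rul_zero : ∀ s, Rul s 0 := by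
  intro s
  induction s using Nat.strong_induction_on with
  | _ s ih =>
    match s, ih with
    | 0, _ =>
      intro G _ _ h2 hc e he d a hd
      rw [show a + 2 ^ 0 - 1 = a by simp, F_self]
      rfl
    | 1, _ =>
      intro G _ _ h2 hc e he d a hd
      have htop : Hw d a (a + 1) = ⊤ := by
        rw [← top_of_ind h2 1 hc e he]
        unfold Hw
        congr 1
        ext u
        simp only [Set.mem_image, Set.mem_Ico, Set.mem_Iio]
        have h0 : d a = e 0 := by
          have := hd 0 (by norm_num)
          rw [Nat.add_zero] at this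
          rw [this]
          congr 1
          exact v2_pow 0
        constructor
        · rintro ⟨j, hj, rfl⟩
          exact ⟨0, by omega, by rw [show j = a by omega, h0]⟩
        · rintro ⟨j, hj, rfl⟩
          exact ⟨a, by omega, by rw [show j = 0 by omega, h0]⟩
      have hs := F_step d (a := a) (a2 := a + 1) (b1 := a) (b := a + 1) (by omega) (by omega) le_rfl
        (by intro _ _; rw [Nat.add_sub_cancel]; exact htop)
      rw [F_empty, F_self, F_self] at hs
      rw [show a + 2 ^ 1 - 1 = a + 1 by norm_num]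
      show F d a (a + 1) = 2 ^ (2 ^ 0)
      norm_num
      omega
    | s + 2, ih =>
      intro G _ _ h2 hc e he d a hd
      have hr1 := rul_t (s + 1) (ih (s + 1) (by omega)) 1
      have hr0 := rul_t s (ih s (by omega)) 2
      set Q := 2 ^ s with hQ
      have hQpos : 0 < Q := by positivity
      have e1 : (2 : ℕ) ^ (s + 1) = 2 * Q := by rw [pow_succ]; ring
      have e2 : (2 : ℕ) ^ (s + 2) = 4 * Q := by rw [pow_add]; ring
      rw [e2] at hd
      have htop := top_of_ind h2 (s + 2) hc e he
      -- the letters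
      have hlet : ∀ c l, c ≤ 3 → l < s → d (a + (c * Q + 2 ^ l - 1)) = e l := by
        intro c l hc' hl
        have hlQ : 2 ^ l < Q := Nat.pow_lt_pow_right (by norm_num) hl
        have hl0 : 0 < 2 ^ l := by positivity
        have hcQ : c * Q ≤ 3 * Q := Nat.mul_le_mul_right _ hc'
        rw [hd _ (by omega)]
        rw [show c * Q + 2 ^ l - 1 + 1 = c * Q + 2 ^ l by omega, v2_add hl0 hlQ, v2_pow]
      have hl1 : d (a + (Q - 1)) = e s := by
        rw [hd _ (by omega), show Q - 1 + 1 = 2 ^ s by omega, v2_pow]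
      have hl2 : d (a + (2 * Q - 1)) = e (s + 1) := by
        rw [hd _ (by omega), show 2 * Q - 1 + 1 = 2 ^ (s + 1) by omega, v2_pow]
      have hl3 : d (a + (3 * Q - 1)) = e s := by
        rw [hd _ (by omega), show 3 * Q - 1 + 1 = 1 * 2 ^ (s + 1) + 2 ^ s by omega,
          v2_add hQpos (by omega), v2_pow]
      have hfull : ∀ c, c = 1 ∨ c = 2 → Hw d (a + c * Q - 1) (a + (c + 1) * Q - 1 + 1) = ⊤ := by
        intro c hc'
        rw [← top_le_iff, ← htop, AddSubgroup.closure_le]
        rintro _ ⟨l, hl, rfl⟩
        rw [Set.mem_Iio] at hl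
        apply AddSubgroup.subset_closure
        have hl0 : 0 < 2 ^ l := by positivity
        rcases Nat.lt_or_ge l s with h3 | h3
        · have hlQ : 2 ^ l < Q := Nat.pow_lt_pow_right (by norm_num) h3
          refine ⟨a + (c * Q + 2 ^ l - 1), ⟨?_, ?_⟩, hlet c l (by omega) h3⟩
          · omega
          · have : (c + 1) * Q = c * Q + Q := by ring
            omega
        · rcases hc' with rfl | rfl
          · rcases Nat.lt_or_ge l (s + 1) with h4 | h4
            · rw [show l = s by omega]
              exact ⟨a + (Q - 1), ⟨by omega, by omega⟩, hl1⟩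
            · rw [show l = s + 1 by omega]
              exact ⟨a + (2 * Q - 1), ⟨by omega, by omega⟩, hl2⟩
          · rcases Nat.lt_or_ge l (s + 1) with h4 | h4
            · rw [show l = s by omega]
              exact ⟨a + (3 * Q - 1), ⟨by omega, by omega⟩, hl3⟩
            · rw [show l = s + 1 by omega]
              exact ⟨a + (2 * Q - 1), ⟨by omega, by omega⟩, hl2⟩
      have hs1 := F_step d (a := a) (a2 := a + Q) (b1 := a + 2 * Q - 1) (b := a + 4 * Q - 1)
        (by omega) (by omega) (by omega) (by
          intro _ _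
          have := hfull 1 (Or.inl rfl)
          rw [one_mul] at this
          exact this)
      have hs2 := F_step d (a := a + Q) (a2 := a + 2 * Q) (b1 := a + 3 * Q - 1) (b := a + 4 * Q - 1)
        (by omega) (by omega) (by omega) (by
          intro _ _
          exact hfull 2 (Or.inr rfl))
      have hIs : Ind e s := fun I hI => he I (hI.trans (Finset.range_subset_range.2 (by omega)))
      have hIs1 : Ind e (s + 1) := fun I hI => he I (hI.trans (Finset.range_subset_range.2 (by omega)))
      -- five windows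
      have w1 : F d a (a + 2 * Q - 1) = (y (s + 1)) ^ 2 := by
        have := hr1 G h2 hc e hIs1 d a (by
          intro i hi
          exact hd i (by omega))
        rw [e1] at this
        exact this
      have w3 : F d (a + 2 * Q) (a + 4 * Q - 1) = (y (s + 1)) ^ 2 := by
        have := hr1 G h2 hc e hIs1 d (a + 2 * Q) (by
          intro i hi
          rw [show a + 2 * Q + i = a + (2 * Q + i) by ring, hd _ (by omega),
            show 2 * Q + i + 1 = 1 * 2 ^ (s + 1) + (i + 1) by omega, v2_add (by omega) hi])
        rw [e1, show a + 2 * Q + 2 * Q - 1 = a + 4 * Q - 1 by omega] at this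
        exact this
      have w4 : F d (a + Q) (a + 2 * Q - 1) = (y s) ^ 4 := by
        have := hr0 G h2 hc e hIs d (a + Q) (by
          intro i hi
          rw [show a + Q + i = a + (Q + i) by ring, hd _ (by omega),
            show Q + i + 1 = 1 * 2 ^ s + (i + 1) by omega, v2_add (by omega) hi])
        rw [← hQ, show a + Q + Q - 1 = a + 2 * Q - 1 by omega] at this
        exact this
      have w5 : F d (a + 2 * Q) (a + 3 * Q - 1) = (y s) ^ 4 := by
        have := hr0 G h2 hc e hIs d (a + 2 * Q) (by
          intro i hi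
          rw [show a + 2 * Q + i = a + (2 * Q + i) by ring, hd _ (by omega),
            show 2 * Q + i + 1 = 2 * 2 ^ s + (i + 1) by omega, v2_add (by omega) hi])
        rw [← hQ, show a + 2 * Q + Q - 1 = a + 3 * Q - 1 by omega] at this
        exact this
      have w2 : F d (a + Q) (a + 3 * Q - 1) = (y (s + 1)) ^ 2 := by
        have hIe' : Ind (fun l => if l = s then e (s + 1) else e l) (s + 1) := by
          intro I hI hI' h0
          have hinj : Set.InjOn (fun l => if l = s then s + 1 else l) (I : Set ℕ) := by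
            intro l hl l' hl' hll
            have h5 := Finset.mem_range.1 (hI hl)
            have h6 := Finset.mem_range.1 (hI hl')
            beta_reduce at hll
            split_ifs at hll <;> omega
          apply he (I.image (fun l => if l = s then s + 1 else l))
          · intro l hl
            obtain ⟨l', hl', rfl⟩ := Finset.mem_image.1 hl
            have h5 := Finset.mem_range.1 (hI hl')
            rw [Finset.mem_range]
            split_ifs <;> omega
          · exact hI'.image _
          · rw [Finset.sum_image hinj, ← h0]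
            refine Finset.sum_congr rfl ?_
            intro l _
            by_cases h5 : l = s
            · simp only [if_pos h5]
            · simp only [if_neg h5]
        have := hr1 G h2 hc (fun l => if l = s then e (s + 1) else e l) hIe' d (a + Q) (by
          intro i hi
          rw [e1] at hi
          rw [show a + Q + i = a + (Q + i) by ring, hd _ (by omega)]
          rcases lt_trichotomy (i + 1) Q with h5 | h5 | h5
          · have h6 := v2_lt (show 0 < i + 1 by omega) (show i + 1 < 2 ^ s by omega)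
            rw [show Q + i + 1 = 1 * 2 ^ s + (i + 1) by omega, v2_add (by omega) (by omega)]
            simp only [if_neg h6.ne]
          · rw [show Q + i + 1 = 2 ^ (s + 1) by omega, v2_pow, show i + 1 = 2 ^ s by omega, v2_pow]
            simp only [if_true]
          · obtain ⟨j, hj⟩ := Nat.exists_eq_add_of_lt h5
            have h6 := v2_lt (show 0 < j + 1 by omega) (show j + 1 < 2 ^ s by omega)
            rw [show Q + i + 1 = 2 * 2 ^ s + (j + 1) by omega, v2_add (by omega) (by omega),
              show i + 1 = 1 * 2 ^ s + (j + 1) by omega, v2_add (by omega) (by omega)]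
            simp only [if_neg h6.ne])
        rw [e1, show a + Q + 2 * Q - 1 = a + 3 * Q - 1 by omega] at this
        exact this
      rw [e2, pow_zero, pow_one]
      have hy := y_two s
      rw [w4, w1] at hs1
      rw [w5, w2, w3] at hs2
      omega

theorem rul (s t : ℕ) : Rul s t := rul_t s (rul_zero s) t

end SMAb
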