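import Mathlib
import Pool.Agent.Lib.MP_c91ad1_co.AbMain

/-!
# Stable matchings of translation invariant instances

Men and women are the elements of a finite abelian group `G`; the man `m` ranks the woman `w` by
`p (w - m)`, the woman `w` ranks the man `m` by `q (w - m)` (smaller is better).
-/

set_option autoImplicit false

namespace SMAb

variable {G : Type} [AddCommGroup G]

/-- stability for a translation invariant instance -/
def St (p q : G → ℕ) (σ : Equiv.Perm G) : Prop :=
  ∀ m w, ¬ (p (w - m) < p (σ m - m) ∧ q (w - m) < q (w - σ.symm w))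

omit [AddCommGroup G] in
theorem perm_symm_maps [Finite G] (S : Set G) (e : Equiv.Perm G) (h : ∀ g ∈ S, e g ∈ S) :
    ∀ g ∈ S, e.symm g ∈ S := by
  intro g hg
  have hinj : Function.Injective (fun x : S => (⟨e x, h x x.2⟩ : S)) := by
    intro x x' hx
    have := congrArg Subtype.val hx
    exact Subtype.ext (e.injective this)
  obtain ⟨x, hx⟩ := (Finite.injective_iff_surjective.1 hinj) ⟨g, hg⟩
  have h1 : e x = g := congrArg Subtype.val hx
  rw [← h1, Equiv.symm_apply_apply]
  exact x.2

/-- the Pareto displacements -/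
def Par (p q : G → ℕ) (x : G) : Prop := ∀ y, ¬ (p y < p x ∧ q y < q x)

variable {p q : G → ℕ}

theorem lemA (hp : Function.Injective p) (hq : Function.Injective q) {σ : Equiv.Perm G}
    (hσ : St p q σ) {x : G} (hx : Par p q x) (m : G) (hm : p (σ m - m) < p x) :
    p (σ (σ m - x) - (σ m - x)) < p x := by
  have h1 : q x < q (σ m - m) := by
    have := hx (σ m - m)
    rcases lt_trichotomy (q x) (q (σ m - m)) with h | h | h
    · exact h
    · exfalso
      rw [← hq h] at hm
      exact lt_irrefl _ hm
    · exact absurd ⟨hm, h⟩ this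
  have h2 := hσ (σ m - x) (σ m)
  rw [Equiv.symm_apply_apply, show σ m - (σ m - x) = x by abel] at h2
  rcases lt_trichotomy (p (σ (σ m - x) - (σ m - x))) (p x) with h | h | h
  · exact h
  · exfalso
    have h3 := hp h
    have h4 : σ (σ m - x) = σ m := by
      have := sub_eq_iff_eq_add.1 h3
      rw [this]; abel
    have h5 := σ.injective h4
    have h6 : σ m - m = x := by
      have := sub_eq_iff_eq_add.1 h5
      rw [this]; abel
    rw [h6] at hm
    exact lt_irrefl _ hm
  · exact absurd ⟨h, h1⟩ h2

theorem lemB (hp : Function.Injective p) (hq : Function.Injective q) {σ : Equiv.Perm G}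
    (hσ : St p q σ) {x : G} (hx : Par p q x) (m : G) (hm : p x < p (σ m - m)) :
    p x < p ((m + x) - σ.symm (m + x)) ∧ q ((m + x) - σ.symm (m + x)) < q x := by
  have h2 := hσ m (m + x)
  rw [show m + x - m = x by abel] at h2
  have h3 : q ((m + x) - σ.symm (m + x)) < q x := by
    rcases lt_trichotomy (q ((m + x) - σ.symm (m + x))) (q x) with h | h | h
    · exact h
    · exfalso
      have h3 := hq h
      have h4 : σ.symm (m + x) = m := by
        have := sub_eq_iff_eq_add.1 h3
        have h5 : m + x - x = x + σ.symm (m + x) - x := by rw [← this]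
        rw [show m + x - x = m by abel, show x + σ.symm (m + x) - x = σ.symm (m + x) by abel] at h5
        exact h5.symm
      have h5 : σ m = m + x := by
        rw [Equiv.symm_apply_eq] at h4
        exact h4.symm
      rw [h5, show m + x - m = x by abel] at hm
      exact lt_irrefl _ hm
    · exact absurd ⟨hm, h⟩ h2
  refine ⟨?_, h3⟩
  have := hx ((m + x) - σ.symm (m + x))
  rcases lt_trichotomy (p x) (p ((m + x) - σ.symm (m + x))) with h | h | h
  · exact h
  · exfalso
    rw [← hp h] at h3
    exact lt_irrefl _ h3
  · exact absurd ⟨h, h3⟩ this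

theorem setA [Finite G] (hp : Function.Injective p) (hq : Function.Injective q) {σ : Equiv.Perm G}
    (hσ : St p q σ) {x : G} (hx : Par p q x) (m : G) (hm : ¬ p (σ m - m) < p x) :
    ¬ p ((m + x) - σ.symm (m + x)) < p x := by
  intro h
  apply hm
  have := lemA hp hq hσ hx (σ.symm (m + x)) (by rw [Equiv.apply_symm_apply]; exact h)
  rw [Equiv.apply_symm_apply, show m + x - x = m by abel] at this
  exact this

theorem setB [Finite G] (hp : Function.Injective p) (hq : Function.Injective q) {σ : Equiv.Perm G}
    (hσ : St p q σ) {x : G} (hx : Par p q x) (m : G) (hm : p x < p (σ m - m)) :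
    p x < p (σ (σ m - x) - (σ m - x)) ∧ q (σ m - m) < q x := by
  have h1 := perm_symm_maps {g | p x < p (σ g - g)} ((Equiv.addRight x).trans σ.symm) (by
    intro g hg
    show p x < p (σ (σ.symm (g + x)) - σ.symm (g + x))
    rw [Equiv.apply_symm_apply]
    exact (lemB hp hq hσ hx g hg).1) m hm
  have h2 : ((Equiv.addRight x).trans σ.symm).symm m = σ m - x := by
    show σ m + -x = σ m - x
    abel
  rw [h2] at h1
  have h1' : p x < p (σ (σ m - x) - (σ m - x)) := h1
  refine ⟨h1', ?_⟩
  have h3 := (lemB hp hq hσ hx (σ m - x) h1').2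
  rw [show σ m - x + x = σ m by abel, Equiv.symm_apply_apply] at h3
  exact h3

theorem mem_par [Finite G] (hp : Function.Injective p) (hq : Function.Injective q) {σ : Equiv.Perm G}
    (hσ : St p q σ) (m : G) : Par p q (σ m - m) := by
  classical
  by_contra hcon
  unfold Par at hcon
  push Not at hcon
  obtain ⟨y0, hy0⟩ := hcon
  obtain ⟨x, hx, hmin⟩ := Set.exists_min_image {y | p y < p (σ m - m) ∧ q y < q (σ m - m)} p
    (Set.toFinite _) ⟨y0, hy0⟩
  have hxp : Par p q x := by
    intro y hy
    have := hmin y ⟨hy.1.trans hx.1, hy.2.trans hx.2⟩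
    omega
  have := (setB hp hq hσ hxp m hx.1).2
  have h2 := hx.2
  omega

open Classical in
/-- the rank of a displacement among the Pareto displacements -/
noncomputable def rk (p q : G → ℕ) (x : G) : ℕ := {y | Par p q y ∧ p y < p x}.ncard

omit [AddCommGroup G] in
theorem rk_lt_iff [Finite G] {x z : G} (hx : Par p q x) (hz : Par p q z) :
    rk p q x < rk p q z ↔ p x < p z := by
  have key : ∀ {x z : G}, Par p q x → p x < p z → rk p q x < rk p q z := by
    intro x z hx h
    unfold rk
    apply Set.ncard_lt_ncard _ (Set.toFinite _)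
    rw [Set.ssubset_iff_of_subset]
    · exact ⟨x, ⟨hx, h⟩, fun h' => lt_irrefl _ h'.2⟩
    · intro y hy
      exact ⟨hy.1, hy.2.trans h⟩
  constructor
  · intro h
    rcases lt_trichotomy (p x) (p z) with h1 | h1 | h1
    · exact h1
    · exfalso
      have : rk p q x = rk p q z := by
        unfold rk
        rw [h1]
      omega
    · have := key hz h1
      omega
  · exact key hx

omit [AddCommGroup G] in
theorem rk_inj [Finite G] (hp : Function.Injective p) {x z : G} (hx : Par p q x) (hz : Par p q z)
    (h : rk p q x = rk p q z) : x = z := by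
  apply hp
  have h1 := rk_lt_iff hx hz
  have h2 := rk_lt_iff hz hx
  omega

omit [AddCommGroup G] in
theorem rk_lt_card [Finite G] {x : G} (hx : Par p q x) : rk p q x < {y | Par p q y}.ncard := by
  unfold rk
  apply Set.ncard_lt_ncard _ (Set.toFinite _)
  rw [Set.ssubset_iff_of_subset]
  · exact ⟨x, hx, fun h' => lt_irrefl _ h'.2⟩
  · intro y hy
    exact hy.1

theorem rk_surj [Finite G] (hp : Function.Injective p) (j : ℕ) (hj : j < {y | Par p q y}.ncard) :
    ∃ x, Par p q x ∧ rk p q x = j := by
  classical
  have h1 : Function.Injective (fun x : {y | Par p q y} =>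
      (⟨rk p q x, rk_lt_card x.2⟩ : Fin ({y | Par p q y}.ncard))) := by
    intro x z h
    exact Subtype.ext (rk_inj hp x.2 z.2 (congrArg Fin.val h))
  have h2 : Nat.card {y | Par p q y} = Nat.card (Fin ({y | Par p q y}.ncard)) := by
    rw [Nat.card_eq_fintype_card (α := Fin _), Fintype.card_fin]
    exact Nat.card_coe_set_eq _
  have h3 := (Nat.bijective_iff_injective_and_card _).2 ⟨h1, h2⟩
  obtain ⟨x, hx⟩ := h3.2 ⟨j, hj⟩
  exact ⟨x, x.2, congrArg Fin.val hx⟩

/-- the upper bound for translation invariant instances -/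
theorem stable_le [Finite G] (k : ℕ) (hc : Nat.card G = 2 ^ k) (hp : Function.Injective p)
    (hq : Function.Injective q) : {σ : Equiv.Perm G | St p q σ}.ncard ≤ y k := by
  classical
  set n := {y | Par p q y}.ncard with hn
  have hX : ∀ j, ∃ x, j < n → (Par p q x ∧ rk p q x = j) := by
    intro j
    by_cases hj : j < n
    · obtain ⟨x, hx⟩ := rk_surj hp j hj
      exact ⟨x, fun _ => hx⟩
    · exact ⟨0, fun h => absurd h hj⟩
  choose X hX using hX
  -- there is a Pareto displacement
  obtain ⟨x0, _, hx0⟩ := Set.exists_min_image (Set.univ : Set G) p (Set.toFinite _) ⟨0, trivial⟩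
  have hpar0 : Par p q x0 := by
    intro z hz
    have := hx0 z trivial
    omega
  have hn1 : 1 ≤ n := by
    have := rk_lt_card hpar0
    omega
  set d : ℕ → G := fun j => X (j + 1) - X j with hd
  have hsum : ∀ i j, i ≤ j → ∑ l ∈ Finset.Ico i j, d l = X j - X i := by
    intro i j hij
    induction j, hij using Nat.le_induction with
    | base => simp
    | succ j hij ih =>
      rw [Finset.sum_Ico_succ_top hij, ih]
      show X j - X i + (X (j + 1) - X j) = X (j + 1) - X i
      abel
  have hDist : Dist d 0 (n - 1) := by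
    intro i j _ hij hj h0
    rw [hsum i j hij.le, sub_eq_zero] at h0
    have h1 := (hX i (by omega)).2
    have h2 := (hX j (by omega)).2
    rw [← h0] at h1
    omega
  refine le_trans ?_ (F_le k hc d 0 (n - 1) (by omega) hDist)
  unfold F
  refine Set.ncard_le_ncard_of_injOn (fun σ m => rk p q (σ m - m)) ?_ ?_ (Ch_finite d 0 (n - 1))
  · intro σ hσ
    have hσ' : St p q σ := hσ
    refine ⟨fun g => ⟨Nat.zero_le _, ?_⟩, ?_⟩
    · have := rk_lt_card (mem_par hp hq hσ' g)
      show rk p q (σ g - g) ≤ n - 1
      omega
    · intro j g hj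
      have hj' : j < rk p q (σ g - g) := hj
      show j < rk p q (σ (g + d j) - (g + d j))
      have hg := mem_par hp hq hσ' g
      have hjn : j + 1 < n := by
        have := rk_lt_card hg
        omega
      obtain ⟨hx1, hx2⟩ := hX j (by omega)
      obtain ⟨hx3, hx4⟩ := hX (j + 1) hjn
      -- `g` is outside of the set of men preferring `σ` to `X (j + 1)`
      have h1 : ¬ p (σ g - g) < p (X (j + 1)) := by
        rw [← rk_lt_iff hg hx3, hx4]
        omega
      have h2 := setA hp hq hσ' hx3 g h1
      set m2 := σ.symm (g + X (j + 1)) with hm2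
      have hm2' : σ m2 = g + X (j + 1) := by rw [hm2, Equiv.apply_symm_apply]
      rw [← hm2'] at h2
      have h3 : p (X j) < p (σ m2 - m2) := by
        rw [← rk_lt_iff hx1 (mem_par hp hq hσ' m2), hx2]
        rw [← rk_lt_iff (mem_par hp hq hσ' m2) hx3, hx4] at h2
        omega
      have h4 := (setB hp hq hσ' hx1 m2 h3).1
      have h5 : σ m2 - X j = g + d j := by
        rw [hm2']
        show g + X (j + 1) - X j = g + (X (j + 1) - X j)
        abel
      rw [h5] at h4
      have h6 := (rk_lt_iff hx1 (mem_par hp hq hσ' (g + d j))).2 h4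
      rw [hx2] at h6
      exact h6
  · intro σ hσ τ hτ h
    apply Equiv.ext
    intro m
    have h1 : rk p q (σ m - m) = rk p q (τ m - m) := congrFun h m
    have h2 := rk_inj hp (mem_par hp hq hσ m) (mem_par hp hq hτ m) h1
    have := sub_left_injective h2
    exact this

end SMAb
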