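import Mathlib
import Pool.Agent.Lib.MP_c91ad1_co.AbRuler
import Pool.Agent.Lib.MP_c91ad1_co.AbStable

/-!
# Instances with exactly `y k` stable matchings
-/

set_option autoImplicit false

namespace SMAb

section General

variable {G : Type} [AddCommGroup G]

theorem chain_add {d : ℕ → G} {a b : ℕ} {h : G → ℕ} (hh : h ∈ Ch d a b) :
    ∀ n i g, i + n + 1 ≤ h g → i < h (g + ∑ l ∈ Finset.Ico i (i + n + 1), d l) := by
  intro n
  induction n with
  | zero =>
    intro i g hg
    rw [show i + 0 + 1 = i + 1 by ring, Finset.sum_Ico_succ_top le_rfl, Finset.Ico_self,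
      Finset.sum_empty, zero_add]
    exact hh.2 i g (by omega)
  | succ n ih =>
    intro i g hg
    have h1 := ih (i + 1) g (by omega)
    rw [show i + 1 + n + 1 = i + (n + 1) + 1 by ring] at h1
    have h2 := hh.2 i _ (show i < h (g + ∑ l ∈ Finset.Ico (i + 1) (i + (n + 1) + 1), d l) by omega)
    rw [Finset.sum_eq_sum_Ico_succ_bot (show i < i + (n + 1) + 1 by omega)]
    rw [show g + (d i + ∑ l ∈ Finset.Ico (i + 1) (i + (n + 1) + 1), d l) =
      g + ∑ l ∈ Finset.Ico (i + 1) (i + (n + 1) + 1), d l + d i by abel]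
    exact h2

theorem chain_add' {d : ℕ → G} {a b : ℕ} {h : G → ℕ} (hh : h ∈ Ch d a b) {i j : ℕ} (hij : i < j)
    {g : G} (hg : j ≤ h g) : i < h (g + ∑ l ∈ Finset.Ico i j, d l) := by
  obtain ⟨n, rfl⟩ := Nat.exists_eq_add_of_lt hij
  exact chain_add hh n i g hg

/-- every chain gives a stable matching -/
theorem F_le_stable [Finite G] (d : ℕ → G) (n : ℕ) (X : ℕ → G)
    (hX : ∀ i j, i ≤ j → ∑ l ∈ Finset.Ico i j, d l = X j - X i)
    (hXinj : ∀ i j, i ≤ n → j ≤ n → X i = X j → i = j) (p q : G → ℕ)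
    (hp : ∀ j, j ≤ n → p (X j) = j) (hq : ∀ j, j ≤ n → q (X j) = n - j)
    (hsurj : ∀ x, ∃ j, j ≤ n ∧ X j = x) :
    F d 0 n ≤ {σ : Equiv.Perm G | St p q σ}.ncard := by
  classical
  have hinj : ∀ h ∈ Ch d 0 n, Function.Injective (fun g => g + X (h g)) := by
    intro h hh
    have key : ∀ g g', h g < h g' → g + X (h g) ≠ g' + X (h g') := by
      intro g g' hlt he
      have h1 := chain_add' hh hlt (le_refl (h g'))
      rw [hX _ _ hlt.le] at h1
      have h2 : g' + (X (h g') - X (h g)) = g := by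
        rw [show g' + (X (h g') - X (h g)) = g' + X (h g') - X (h g) by abel, ← he]
        abel
      rw [h2] at h1
      exact lt_irrefl _ h1
    intro g g' he
    rcases lt_trichotomy (h g) (h g') with h1 | h1 | h1
    · exact absurd he (key g g' h1)
    · have he' : g + X (h g) = g' + X (h g') := he
      rw [h1] at he'
      exact add_right_cancel he'
    · exact absurd he.symm (key g' g h1)
  let f : (G → ℕ) → Equiv.Perm G := fun h =>
    if hh : h ∈ Ch d 0 n then Equiv.ofBijective _ ((Finite.injective_iff_bijective).1 (hinj h hh))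
    else Equiv.refl G
  have hf : ∀ h ∈ Ch d 0 n, ∀ g, f h g = g + X (h g) := by
    intro h hh g
    simp only [f, dif_pos hh]
    rfl
  unfold F
  refine Set.ncard_le_ncard_of_injOn f ?_ ?_ (Set.toFinite _)
  · intro h hh m w
    rintro ⟨h1, h2⟩
    obtain ⟨i, hi, hxi⟩ := hsurj (w - m)
    have hm := (hh.1 m).2
    rw [← hxi, hf h hh m, show m + X (h m) - m = X (h m) by abel, hp i hi, hp _ hm] at h1
    obtain ⟨m', hm'⟩ : ∃ m', m' = (f h).symm w := ⟨_, rfl⟩
    have hw : w = m' + X (h m') := by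
      rw [← hf h hh m', hm', Equiv.apply_symm_apply]
    have hmn := (hh.1 m').2
    rw [← hm', ← hxi, hq i hi] at h2
    rw [show w - m' = X (h m') by rw [hw]; abel, hq _ hmn] at h2
    have h3 : h m' < i := by omega
    have h4 := chain_add' hh h3 (show i ≤ h m by omega)
    rw [hX _ _ h3.le] at h4
    have h5 : m + (X i - X (h m')) = m' := by
      rw [show m + (X i - X (h m')) = m + X i - X (h m') by abel, hxi,
        show m + (w - m) = w by abel, hw]
      abel
    rw [h5] at h4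
    exact lt_irrefl _ h4
  · intro h hh h' hh' he
    funext g
    have h1 : f h g = f h' g := by rw [he]
    rw [hf h hh, hf h' hh'] at h1
    exact hXinj _ _ (hh.1 g).2 (hh'.1 g).2 (add_left_cancel h1)

end General

section Cube

variable (k : ℕ)

/-- the basis vectors -/
def eb (l : ℕ) : Fin k → ZMod 2 := fun c => if (c : ℕ) = l then 1 else 0

/-- the ruler letters -/
def dr (j : ℕ) : Fin k → ZMod 2 := eb k (v2 (j + 1))

theorem ind_eb : Ind (eb k) k := by
  intro I hI hI' h0
  obtain ⟨l0, hl0⟩ := hI'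
  have hlk := Finset.mem_range.1 (hI hl0)
  have h1 := congrFun h0 ⟨l0, hlk⟩
  rw [Finset.sum_apply] at h1
  have h2 : ∑ l ∈ I, eb k l ⟨l0, hlk⟩ = 1 := by
    rw [Finset.sum_eq_single l0]
    · simp [eb]
    · intro l _ hne
      simp only [eb]
      rw [if_neg]
      exact fun h => hne h.symm
    · intro h
      exact absurd hl0 h
  rw [h2] at h1
  exact one_ne_zero h1

theorem unique_max (i j : ℕ) (hij : i < j) :
    ∃ l0 ∈ Finset.Ico i j, ∀ l ∈ Finset.Ico i j, l ≠ l0 → v2 (l + 1) ≠ v2 (l0 + 1) := by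
  obtain ⟨l0, hl0, hmax⟩ := Finset.exists_max_image (Finset.Ico i j) (fun l => v2 (l + 1))
    ⟨i, by rw [Finset.mem_Ico]; omega⟩
  refine ⟨l0, hl0, ?_⟩
  have key : ∀ a b, a ∈ Finset.Ico i j → b ∈ Finset.Ico i j → a < b → v2 (a + 1) = v2 (b + 1) →
      v2 (a + 1) = v2 (l0 + 1) → False := by
    intro a b ha hb hab he he2
    rw [Finset.mem_Ico] at ha hb
    set v := v2 (a + 1) with hv
    have h1 : 2 ^ v ∣ a + 1 := (v2_dvd_iff (by omega)).2 le_rfl
    have h2 : 2 ^ v ∣ b + 1 := (v2_dvd_iff (by omega)).2 (by omega)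
    have h3 : ¬ 2 ^ (v + 1) ∣ a + 1 := by
      rw [v2_dvd_iff (by omega)]; omega
    have h4 : ¬ 2 ^ (v + 1) ∣ b + 1 := by
      rw [v2_dvd_iff (by omega)]; omega
    obtain ⟨x, hx⟩ := h1
    obtain ⟨z, hz⟩ := h2
    have hpos : 0 < 2 ^ v := by positivity
    have hxo : x % 2 = 1 := by
      by_contra hc
      apply h3
      rw [hx, pow_succ]
      exact Nat.mul_dvd_mul_left _ (by omega)
    have hzo : z % 2 = 1 := by
      by_contra hc
      apply h4
      rw [hz, pow_succ]
      exact Nat.mul_dvd_mul_left _ (by omega)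
    have hxz : x < z := by
      by_contra hc
      have := Nat.mul_le_mul_left (2 ^ v) (show z ≤ x by omega)
      omega
    have hxz2 : x + 2 ≤ z := by omega
    have h5 := Nat.mul_le_mul_left (2 ^ v) hxz2
    have h6 : 2 ^ v * (x + 2) = 2 ^ v * x + 2 * 2 ^ v := by ring
    -- the number `2 ^ v * (x + 1)`
    have h7 : v + 1 ≤ v2 (2 ^ v * (x + 1)) := by
      rw [← v2_dvd_iff (by positivity), pow_succ]
      exact Nat.mul_dvd_mul_left _ (by omega)
    have h8 : 2 ^ v * (x + 1) = 2 ^ v * x + 2 ^ v := by ring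
    have h9 := hmax (2 ^ v * (x + 1) - 1) (by rw [Finset.mem_Ico]; omega)
    beta_reduce at h9
    rw [show 2 ^ v * (x + 1) - 1 + 1 = 2 ^ v * (x + 1) by omega] at h9
    omega
  intro l hl hne he
  rcases Nat.lt_or_ge l l0 with h | h
  · exact key l l0 hl hl0 h he he
  · exact key l0 l hl0 hl (by omega) he.symm rfl

theorem dist_dr : Dist (dr k) 0 (2 ^ k - 1) := by
  intro i j _ hij hj h0
  obtain ⟨l0, hl0, hu⟩ := unique_max i j hij
  have hl0' := Finset.mem_Ico.1 hl0
  have hv : v2 (l0 + 1) < k := v2_lt (by omega) (by omega)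
  have h1 := congrFun h0 ⟨v2 (l0 + 1), hv⟩
  rw [Finset.sum_apply] at h1
  have h2 : ∑ l ∈ Finset.Ico i j, dr k l ⟨v2 (l0 + 1), hv⟩ = 1 := by
    rw [Finset.sum_eq_single l0]
    · simp [dr, eb]
    · intro l hl hne
      simp only [dr, eb]
      rw [if_neg]
      exact fun h => hu l hl hne h.symm
    · intro h
      exact absurd hl0 h
  rw [h2] at h1
  exact one_ne_zero h1

theorem card_cube : Nat.card (Fin k → ZMod 2) = 2 ^ k := by
  rw [Nat.card_eq_fintype_card, Fintype.card_fun, ZMod.card, Fintype.card_fin]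

theorem F_dr : F (dr k) 0 (2 ^ k - 1) = y k := by
  have h := rul k 0 (Fin k → ZMod 2) (fun g => by
    funext c
    show g c + g c = 0
    exact CharTwo.add_self_eq_zero _) (by rw [card_cube, Nat.add_zero]) (eb k) (ind_eb k) (dr k) 0
    (fun i _ => by
      show eb k (v2 (0 + i + 1)) = eb k (v2 (i + 1))
      rw [Nat.zero_add])
  rw [Nat.zero_add, pow_zero, pow_one] at h
  exact h

/-- the Gray path -/
def gr (j : ℕ) : Fin k → ZMod 2 := ∑ l ∈ Finset.range j, dr k l

theorem gr_sub (i j : ℕ) (hij : i ≤ j) : ∑ l ∈ Finset.Ico i j, dr k l = gr k j - gr k i := by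
  unfold gr
  rw [Finset.sum_Ico_eq_sub _ hij]

theorem gr_inj (i j : ℕ) (hi : i ≤ 2 ^ k - 1) (hj : j ≤ 2 ^ k - 1) (h : gr k i = gr k j) : i = j := by
  rcases lt_trichotomy i j with h1 | h1 | h1
  · exfalso
    apply dist_dr k i j (Nat.zero_le _) h1 hj
    rw [gr_sub k i j h1.le, h, sub_self]
  · exact h1
  · exfalso
    apply dist_dr k j i (Nat.zero_le _) h1 hi
    rw [gr_sub k j i h1.le, h, sub_self]

theorem gr_bij : Function.Bijective (fun i : Fin (2 ^ k) => gr k i) := by
  rw [Nat.bijective_iff_injective_and_card]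
  refine ⟨?_, ?_⟩
  · intro i j h
    apply Fin.ext
    exact gr_inj k i j (by omega) (by omega) h
  · rw [card_cube, Nat.card_eq_fintype_card, Fintype.card_fin]

/-- the rank of a displacement -/
noncomputable def pr : (Fin k → ZMod 2) ≃ Fin (2 ^ k) := (Equiv.ofBijective _ (gr_bij k)).symm

theorem pr_gr (j : ℕ) (hj : j ≤ 2 ^ k - 1) : ((pr k (gr k j) : Fin (2 ^ k)) : ℕ) = j := by
  have hpos : 0 < 2 ^ k := by positivity
  have h1 : pr k (gr k j) = ⟨j, by omega⟩ := by
    unfold pr
    rw [Equiv.symm_apply_eq]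
    rfl
  rw [h1]

theorem stable_cube : {σ : Equiv.Perm (Fin k → ZMod 2) |
    St (fun x => ((pr k x : Fin (2 ^ k)) : ℕ)) (fun x => ((Fin.rev (pr k x) : Fin (2 ^ k)) : ℕ)) σ}.ncard
      = y k := by
  have hpos : 0 < 2 ^ k := by positivity
  apply le_antisymm
  · apply stable_le k (card_cube k)
    · intro x z h
      exact (pr k).injective (Fin.ext h)
    · intro x z h
      exact (pr k).injective (Fin.rev_injective (Fin.ext h))
  · rw [← F_dr]
    refine F_le_stable (dr k) (2 ^ k - 1) (gr k) (gr_sub k) (gr_inj k) _ _ ?_ ?_ ?_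
    · intro j hj
      exact pr_gr k j hj
    · intro j hj
      show ((Fin.rev (pr k (gr k j)) : Fin (2 ^ k)) : ℕ) = 2 ^ k - 1 - j
      rw [Fin.val_rev, pr_gr k j hj]
      omega
    · intro x
      obtain ⟨i, hi⟩ := (gr_bij k).2 x
      exact ⟨i, by have := i.2; omega, hi⟩

end Cube

end SMAb
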