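import Mathlib
import Pool.Agent.Lib.MP_c91ad1_co.AbLower

/-!
# Transfer between instances on `Fin n` and translation invariant instances
-/

set_option autoImplicit false

namespace SMAb

/-- an instance on `Fin n` in group coordinates -/
theorem transport {G : Type} [AddCommGroup G] {n : ℕ} (φ ψ : G ≃ Fin n)
    (mp wp : Fin n → Equiv.Perm (Fin n)) (p q : G → ℕ)
    (hp : ∀ g h, ((mp (φ g) (ψ h) : Fin n) : ℕ) = p (h - g))
    (hq : ∀ g h, ((wp (ψ h) (φ g) : Fin n) : ℕ) = q (h - g)) :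
    {σ : Equiv.Perm (Fin n) | ∀ m w : Fin n,
      ¬ (mp m w < mp m (σ m) ∧ wp w m < wp w (σ.symm w))}.ncard =
    {σ : Equiv.Perm G | St p q σ}.ncard := by
  have key : ∀ (σ : Equiv.Perm (Fin n)) (τ : Equiv.Perm G), τ = φ.trans (σ.trans ψ.symm) →
      ((∀ m w : Fin n, ¬ (mp m w < mp m (σ m) ∧ wp w m < wp w (σ.symm w))) ↔ St p q τ) := by
    intro σ τ hτ
    have h1 : ∀ g, σ (φ g) = ψ (τ g) := by
      intro g
      rw [hτ]
      simp
    have h2 : ∀ h, σ.symm (ψ h) = φ (τ.symm h) := by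
      intro h
      rw [hτ]
      simp
    have h3 : ∀ g h, (mp (φ g) (ψ h) < mp (φ g) (σ (φ g)) ∧ wp (ψ h) (φ g) < wp (ψ h) (σ.symm (ψ h))) ↔
        (p (h - g) < p (τ g - g) ∧ q (h - g) < q (h - τ.symm h)) := by
      intro g h
      rw [h1, h2, Fin.lt_def, Fin.lt_def, hp, hp, hq, hq]
    constructor
    · intro h g g'
      rw [← h3]
      exact h _ _
    · intro h m w
      obtain ⟨g, rfl⟩ := φ.surjective m
      obtain ⟨g', rfl⟩ := ψ.surjective w
      rw [h3]
      exact h g g'
  refine Set.ncard_congr (fun σ _ => φ.trans (σ.trans ψ.symm)) ?_ ?_ ?_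
  · intro σ hσ
    exact (key σ _ rfl).1 hσ
  · intro σ τ _ _ h
    apply Equiv.ext
    intro m
    obtain ⟨g, rfl⟩ := φ.surjective m
    have := congrArg (fun e : Equiv.Perm G => e g) h
    exact ψ.symm.injective this
  · intro τ hτ
    refine ⟨φ.symm.trans (τ.trans ψ), (key _ τ ?_).2 hτ, ?_⟩
    · apply Equiv.ext; intro g; simp
    · apply Equiv.ext; intro g; simp

/-- a commutative group of automorphisms of the instance which is transitive on the men -/
def TransAb {n : ℕ} (mp wp : Fin n → Equiv.Perm (Fin n)) : Prop :=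
  ∃ (A : Type) (_ : CommGroup A) (α β : A →* Equiv.Perm (Fin n)),
    (∀ m m' : Fin n, ∃ g : A, α g m = m') ∧
    (∀ (g : A) (m w : Fin n), mp (α g m) (β g w) = mp m w ∧ wp (β g w) (α g m) = wp w m)

theorem upper (k : ℕ) (mp wp : Fin (2 ^ k) → Equiv.Perm (Fin (2 ^ k))) (h : TransAb mp wp) :
    {σ : Equiv.Perm (Fin (2 ^ k)) | ∀ m w : Fin (2 ^ k),
      ¬ (mp m w < mp m (σ m) ∧ wp w m < wp w (σ.symm w))}.ncard ≤ y k := by
  classical
  obtain ⟨A, _, α, β, htr, hinv⟩ := h
  have hpos : 0 < 2 ^ k := by positivity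
  let m0 : Fin (2 ^ k) := ⟨0, hpos⟩
  have hker : ∀ x ∈ α.ker, β x = 1 := by
    intro x hx
    rw [MonoidHom.mem_ker] at hx
    apply Equiv.ext
    intro w
    have h1 := (hinv x m0 w).1
    rw [hx] at h1
    exact (mp m0).injective h1
  let α' : A ⧸ α.ker →* Equiv.Perm (Fin (2 ^ k)) := QuotientGroup.kerLift α
  let β' : A ⧸ α.ker →* Equiv.Perm (Fin (2 ^ k)) := QuotientGroup.lift α.ker β hker
  have hα' : Function.Injective α' := QuotientGroup.kerLift_injective α
  have hinv' : ∀ (g : A ⧸ α.ker) (m w : Fin (2 ^ k)),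
      mp (α' g m) (β' g w) = mp m w ∧ wp (β' g w) (α' g m) = wp w m := by
    intro g m w
    obtain ⟨x, rfl⟩ := QuotientGroup.mk_surjective g
    exact hinv x m w
  have htr' : ∀ m m' : Fin (2 ^ k), ∃ g : A ⧸ α.ker, α' g m = m' := by
    intro m m'
    obtain ⟨x, hx⟩ := htr m m'
    exact ⟨(x : A ⧸ α.ker), hx⟩
  have hfin : Finite (A ⧸ α.ker) := Finite.of_injective α' hα'
  let G := Additive (A ⧸ α.ker)
  have hfinG : Finite G := hfin
  have hone : ∀ u : A ⧸ α.ker, α' u m0 = m0 → u = 1 := by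
    intro u hu
    apply hα'
    rw [map_one]
    apply Equiv.ext
    intro m
    obtain ⟨x, hx⟩ := htr' m0 m
    rw [← hx]
    have h1 : α' u (α' x m0) = α' x (α' u m0) := by
      rw [← Equiv.Perm.mul_apply, ← Equiv.Perm.mul_apply, ← map_mul, ← map_mul, mul_comm]
    rw [h1, hu]
    rfl
  have hφinj : Function.Injective (fun g : G => α' (Additive.toMul g) m0) := by
    intro g h hgh
    have h1 : α' ((Additive.toMul g)⁻¹ * Additive.toMul h) m0 = m0 := by
      rw [map_mul, Equiv.Perm.mul_apply]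
      have hgh' : α' (Additive.toMul g) m0 = α' (Additive.toMul h) m0 := hgh
      rw [← hgh', ← Equiv.Perm.mul_apply, ← map_mul, inv_mul_cancel, map_one]
      rfl
    have h2 := hone _ h1
    have h3 : Additive.toMul g = Additive.toMul h := by
      rw [inv_mul_eq_one] at h2
      exact h2
    exact h3
  have hφ : Function.Bijective (fun g : G => α' (Additive.toMul g) m0) := by
    refine ⟨hφinj, ?_⟩
    intro m
    obtain ⟨x, hx⟩ := htr' m0 m
    exact ⟨Additive.ofMul x, hx⟩
  let φ : G ≃ Fin (2 ^ k) := Equiv.ofBijective _ hφ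
  have hcard : Nat.card G = 2 ^ k := by
    rw [Nat.card_congr φ, Nat.card_eq_fintype_card, Fintype.card_fin]
  have hψinj : Function.Injective (fun g : G => β' (Additive.toMul g) m0) := by
    intro g h hgh
    have h1 : β' ((Additive.toMul g)⁻¹ * Additive.toMul h) m0 = m0 := by
      rw [map_mul, Equiv.Perm.mul_apply]
      have hgh' : β' (Additive.toMul g) m0 = β' (Additive.toMul h) m0 := hgh
      rw [← hgh', ← Equiv.Perm.mul_apply, ← map_mul, inv_mul_cancel, map_one]
      rfl
    have h2 : α' ((Additive.toMul g)⁻¹ * Additive.toMul h) m0 = m0 := by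
      have h3 := (hinv' ((Additive.toMul g)⁻¹ * Additive.toMul h) m0 m0).2
      rw [h1] at h3
      exact (wp m0).injective h3
    have h3 := hone _ h2
    rw [inv_mul_eq_one] at h3
    exact h3
  have hψ : Function.Bijective (fun g : G => β' (Additive.toMul g) m0) := by
    rw [Nat.bijective_iff_injective_and_card]
    exact ⟨hψinj, by rw [hcard, Nat.card_eq_fintype_card, Fintype.card_fin]⟩
  let ψ : G ≃ Fin (2 ^ k) := Equiv.ofBijective _ hψ
  have hdiff : ∀ g h : G, ψ h = β' (Additive.toMul g) (ψ (h - g)) := by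
    intro g h
    show β' (Additive.toMul h) m0 = β' (Additive.toMul g) (β' (Additive.toMul (h - g)) m0)
    rw [← Equiv.Perm.mul_apply, ← map_mul, toMul_sub]
    congr 2
    rw [mul_div_cancel]
  have hp : ∀ g h, ((mp (φ g) (ψ h) : Fin (2 ^ k)) : ℕ) =
      (fun x : G => ((mp m0 (ψ x) : Fin (2 ^ k)) : ℕ)) (h - g) := by
    intro g h
    rw [hdiff g h]
    exact congrArg Fin.val (hinv' (Additive.toMul g) m0 (ψ (h - g))).1
  have hq : ∀ g h, ((wp (ψ h) (φ g) : Fin (2 ^ k)) : ℕ) =
      (fun x : G => ((wp (ψ x) m0 : Fin (2 ^ k)) : ℕ)) (h - g) := by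
    intro g h
    rw [hdiff g h]
    exact congrArg Fin.val (hinv' (Additive.toMul g) m0 (ψ (h - g))).2
  rw [transport φ ψ mp wp (fun x : G => ((mp m0 (ψ x) : Fin (2 ^ k)) : ℕ))
    (fun x : G => ((wp (ψ x) m0 : Fin (2 ^ k)) : ℕ)) hp hq]
  refine stable_le k hcard ?_ ?_
  · intro x z h
    exact ψ.injective ((mp m0).injective (Fin.ext h))
  · have e : ∀ x : G, wp (ψ x) m0 = wp m0 (φ (-x)) := by
      intro x
      have h1 := (hinv' (Additive.toMul x) (φ (-x)) m0).2
      have h2 : α' (Additive.toMul x) (φ (-x)) = m0 := by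
        show α' (Additive.toMul x) (α' (Additive.toMul (-x)) m0) = m0
        rw [← Equiv.Perm.mul_apply, ← map_mul, toMul_neg, mul_inv_cancel, map_one]
        rfl
      rw [h2] at h1
      exact h1
    intro x z h
    have h1 : wp (ψ x) m0 = wp (ψ z) m0 := Fin.ext h
    rw [e, e] at h1
    exact neg_injective (φ.injective ((wp m0).injective h1))

theorem lower (k : ℕ) : ∃ mp wp : Fin (2 ^ k) → Equiv.Perm (Fin (2 ^ k)), TransAb mp wp ∧
    {σ : Equiv.Perm (Fin (2 ^ k)) | ∀ m w : Fin (2 ^ k),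
      ¬ (mp m w < mp m (σ m) ∧ wp w m < wp w (σ.symm w))}.ncard = y k := by
  classical
  let φ : (Fin k → ZMod 2) ≃ Fin (2 ^ k) := pr k
  let mp : Fin (2 ^ k) → Equiv.Perm (Fin (2 ^ k)) := fun m =>
    φ.symm.trans ((Equiv.subRight (φ.symm m)).trans (pr k))
  let wp : Fin (2 ^ k) → Equiv.Perm (Fin (2 ^ k)) := fun w =>
    φ.symm.trans ((Equiv.subLeft (φ.symm w)).trans ((pr k).trans Fin.revPerm))
  have hmp : ∀ m w, mp m w = pr k (φ.symm w - φ.symm m) := fun m w => rfl
  have hwp : ∀ w m, wp w m = Fin.rev (pr k (φ.symm w - φ.symm m)) := fun w m => rfl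
  let ρ : Multiplicative (Fin k → ZMod 2) →* Equiv.Perm (Fin (2 ^ k)) :=
    { toFun := fun g => φ.symm.trans ((Equiv.addRight (Multiplicative.toAdd g)).trans φ)
      map_one' := by
        apply Equiv.ext
        intro m
        show φ (φ.symm m + Multiplicative.toAdd 1) = m
        rw [toAdd_one, add_zero, Equiv.apply_symm_apply]
      map_mul' := by
        intro g h
        apply Equiv.ext
        intro m
        show φ (φ.symm m + Multiplicative.toAdd (g * h)) =
          φ (φ.symm (φ (φ.symm m + Multiplicative.toAdd h)) + Multiplicative.toAdd g)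
        rw [Equiv.symm_apply_apply, toAdd_mul]
        congr 1
        abel }
  have hρ : ∀ g m, φ.symm (ρ g m) = φ.symm m + Multiplicative.toAdd g := by
    intro g m
    show φ.symm (φ (φ.symm m + Multiplicative.toAdd g)) = _
    rw [Equiv.symm_apply_apply]
  refine ⟨mp, wp, ⟨Multiplicative (Fin k → ZMod 2), inferInstance, ρ, ρ, ?_, ?_⟩, ?_⟩
  · intro m m'
    refine ⟨Multiplicative.ofAdd (φ.symm m' - φ.symm m), ?_⟩
    apply φ.symm.injective
    rw [hρ, toAdd_ofAdd]
    abel
  · intro g m w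
    constructor
    · rw [hmp, hmp, hρ, hρ]
      congr 1
      abel
    · rw [hwp, hwp, hρ, hρ]
      congr 2
      abel
  · rw [← stable_cube k]
    refine transport φ φ mp wp _ _ ?_ ?_
    · intro g h
      rw [hmp, Equiv.symm_apply_apply, Equiv.symm_apply_apply]
    · intro g h
      rw [hwp, Equiv.symm_apply_apply, Equiv.symm_apply_apply]

end SMAb
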