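import Mathlib

/-!
# Counting functions by revealing the values in a random order

`gg l k V` is the expected total cost when the elements of `V` (`V.card = k`) are revealed in a
uniformly random order and revealing `m` while `V` is the set of unrevealed elements costs `l m V`.
-/

set_option autoImplicit false

namespace SMB

open Finset

variable {α β ι : Type*} [Fintype α] [DecidableEq α] [DecidableEq β]

/-- expected total cost of a random order -/
noncomputable def gg (l : α → Finset α → ℝ) : ℕ → Finset α → ℝ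
  | 0, _ => 0
  | k + 1, V => (∑ m ∈ V, (l m V + gg l k (V.erase m))) / (k + 1)

/-- the members of `S` which agree with `f` off `V` -/
def cls (S : Finset (α → β)) (f : α → β) (V : Finset α) : Finset (α → β) :=
  S.filter (fun g => ∀ x, x ∉ V → g x = f x)

/-- number of possible values at `m` -/
def cand (S : Finset (α → β)) (f : α → β) (m : α) (V : Finset α) : ℕ :=
  ((cls S f V).image (fun g => g m)).card

theorem mem_cls {S : Finset (α → β)} {f g : α → β} {V : Finset α} :
    g ∈ cls S f V ↔ g ∈ S ∧ ∀ x, x ∉ V → g x = f x := by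
  simp [cls]

theorem cls_self {S : Finset (α → β)} {f : α → β} (V : Finset α) (hf : f ∈ S) : f ∈ cls S f V :=
  mem_cls.2 ⟨hf, fun _ _ => rfl⟩

theorem cls_eq {S : Finset (α → β)} {f g : α → β} {V : Finset α} (h : g ∈ cls S f V) :
    cls S g V = cls S f V := by
  ext u
  rw [mem_cls] at h
  simp only [mem_cls]
  constructor
  · rintro ⟨h1, h2⟩
    exact ⟨h1, fun x hx => (h2 x hx).trans (h.2 x hx)⟩
  · rintro ⟨h1, h2⟩
    exact ⟨h1, fun x hx => (h2 x hx).trans (h.2 x hx).symm⟩

theorem cls_erase {S : Finset (α → β)} {f g : α → β} {V : Finset α} {m : α}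
    (h : g ∈ cls S f V) : (cls S f V).filter (fun u => u m = g m) = cls S g (V.erase m) := by
  ext u
  rw [← cls_eq h]
  simp only [mem_cls, mem_filter, mem_erase, not_and]
  constructor
  · rintro ⟨⟨h1, h2⟩, h3⟩
    refine ⟨h1, fun x hx => ?_⟩
    by_cases hxm : x = m
    · rw [hxm, h3]
    · exact h2 x (hx hxm)
  · rintro ⟨h1, h2⟩
    exact ⟨⟨h1, fun x hx => h2 x fun _ => hx⟩, h2 m fun h => absurd rfl h⟩

theorem cand_eq {S : Finset (α → β)} {f g : α → β} {V : Finset α} {m : α} (h : g ∈ cls S f V) :
    cand S g m V = cand S f m V := by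
  unfold cand
  rw [cls_eq h]

theorem kraft (S : Finset (α → β)) : ∀ (k : ℕ) (V : Finset α) (f : α → β), f ∈ S → V.card = k →
    ∑ g ∈ cls S f V, Real.exp (-gg (fun m V => Real.log (cand S g m V)) k V) ≤ 1 := by
  intro k
  induction k with
  | zero =>
    intro V f hf hV
    have hV' : V = ∅ := Finset.card_eq_zero.1 hV
    subst hV'
    have h1 : cls S f ∅ = {f} := by
      ext g
      rw [mem_cls, Finset.mem_singleton]
      constructor
      · rintro ⟨_, h2⟩
        exact funext fun x => h2 x (Finset.notMem_empty x)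
      · rintro rfl
        exact ⟨hf, fun _ _ => rfl⟩
    rw [h1, Finset.sum_singleton]
    simp [gg]
  | succ k ih =>
    intro V f hf hV
    have hk : (0 : ℝ) < (k : ℝ) + 1 := by positivity
    -- one step, for a fixed revealed element
    have step : ∀ m ∈ V, ∑ g ∈ cls S f V, Real.exp (-(Real.log (cand S g m V) +
        gg (fun m V => Real.log (cand S g m V)) k (V.erase m))) ≤ 1 := by
      intro m hm
      set c : ℕ := cand S f m V with hc
      have hc0 : 0 < c := Finset.card_pos.2 ⟨f m, Finset.mem_image.2 ⟨f, cls_self V hf, rfl⟩⟩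
      have hcR : (0 : ℝ) < c := by exact_mod_cast hc0
      have h1 : ∑ g ∈ cls S f V, Real.exp (-(Real.log (cand S g m V) +
          gg (fun m V => Real.log (cand S g m V)) k (V.erase m))) =
          ∑ g ∈ cls S f V, (c : ℝ)⁻¹ *
            Real.exp (-gg (fun m V => Real.log (cand S g m V)) k (V.erase m)) := by
        refine Finset.sum_congr rfl fun g hg => ?_
        rw [neg_add, Real.exp_add, Real.exp_neg, cand_eq hg, Real.exp_log hcR]
      rw [h1, ← Finset.mul_sum]
      have h2 : ∑ g ∈ cls S f V, Real.exp (-gg (fun m V => Real.log (cand S g m V)) k (V.erase m)) =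
          ∑ w ∈ (cls S f V).image (fun g => g m), ∑ g ∈ (cls S f V).filter (fun u => u m = w),
            Real.exp (-gg (fun m V => Real.log (cand S g m V)) k (V.erase m)) := by
        rw [Finset.sum_fiberwise_of_maps_to]
        intro g hg
        exact Finset.mem_image_of_mem _ hg
      have h3 : ∀ w ∈ (cls S f V).image (fun g => g m), ∑ g ∈ (cls S f V).filter (fun u => u m = w),
            Real.exp (-gg (fun m V => Real.log (cand S g m V)) k (V.erase m)) ≤ 1 := by
        intro w hw
        obtain ⟨g, hg, rfl⟩ := Finset.mem_image.1 hw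
        rw [cls_erase hg]
        refine ih (V.erase m) g (mem_cls.1 hg).1 ?_
        rw [Finset.card_erase_of_mem hm, hV]
        rfl
      have h4 := Finset.sum_le_sum h3
      rw [← h2, Finset.sum_const, nsmul_eq_mul, mul_one] at h4
      calc (c : ℝ)⁻¹ * _ ≤ (c : ℝ)⁻¹ * c := by
            refine mul_le_mul_of_nonneg_left h4 (by positivity)
        _ = 1 := inv_mul_cancel₀ hcR.ne'
    -- Jensen
    have jen : ∀ g ∈ cls S f V, Real.exp (-gg (fun m V => Real.log (cand S g m V)) (k + 1) V) ≤
        ∑ m ∈ V, (k + 1 : ℝ)⁻¹ * Real.exp (-(Real.log (cand S g m V) +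
          gg (fun m V => Real.log (cand S g m V)) k (V.erase m))) := by
      intro g _
      have h1 := convexOn_exp.map_sum_le (t := V) (w := fun _ => (k + 1 : ℝ)⁻¹)
        (p := fun m => -(Real.log (cand S g m V) +
          gg (fun m V => Real.log (cand S g m V)) k (V.erase m))) (fun _ _ => by positivity)
        (by rw [Finset.sum_const, hV, nsmul_eq_mul]; push_cast; exact mul_inv_cancel₀ hk.ne')
        (fun _ _ => Set.mem_univ _)
      simp only [smul_eq_mul] at h1
      refine le_trans (le_of_eq ?_) h1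
      congr 1
      rw [gg, ← Finset.mul_sum, Finset.sum_neg_distrib, div_eq_inv_mul, mul_neg]
    calc ∑ g ∈ cls S f V, Real.exp (-gg (fun m V => Real.log (cand S g m V)) (k + 1) V)
        ≤ ∑ g ∈ cls S f V, ∑ m ∈ V, (k + 1 : ℝ)⁻¹ * Real.exp (-(Real.log (cand S g m V) +
          gg (fun m V => Real.log (cand S g m V)) k (V.erase m))) := Finset.sum_le_sum jen
      _ = ∑ m ∈ V, (k + 1 : ℝ)⁻¹ * ∑ g ∈ cls S f V, Real.exp (-(Real.log (cand S g m V) +
          gg (fun m V => Real.log (cand S g m V)) k (V.erase m))) := by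
          rw [Finset.sum_comm]
          exact Finset.sum_congr rfl fun m _ => (Finset.mul_sum _ _ _).symm
      _ ≤ ∑ m ∈ V, (k + 1 : ℝ)⁻¹ * 1 := by
          refine Finset.sum_le_sum fun m hm => ?_
          exact mul_le_mul_of_nonneg_left (step m hm) (by positivity)
      _ = 1 := by
          rw [mul_one, Finset.sum_const, hV, nsmul_eq_mul]
          push_cast
          exact mul_inv_cancel₀ hk.ne'

/-- pointwise form -/
theorem card_le_exp (S : Finset (α → β)) (c : ℝ)
    (h : ∀ g ∈ S, gg (fun m V => Real.log (cand S g m V)) (Fintype.card α) Finset.univ ≤ c) :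
    (S.card : ℝ) ≤ Real.exp c := by
  rcases S.eq_empty_or_nonempty with rfl | ⟨f, hf⟩
  · simpa using (Real.exp_pos c).le
  have h1 := kraft S (Fintype.card α) Finset.univ f hf rfl
  have h2 : cls S f Finset.univ = S := by
    ext g
    simp [mem_cls]
  rw [h2] at h1
  have h3 : ∑ g ∈ S, Real.exp (-c) ≤ 1 :=
    (Finset.sum_le_sum fun g hg => Real.exp_le_exp.2 (neg_le_neg (h g hg))).trans h1
  rw [Finset.sum_const, nsmul_eq_mul, Real.exp_neg, ← div_eq_mul_inv, div_le_one (Real.exp_pos c)] at h3
  exact h3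

/-- average form -/
theorem log_card_le (S : Finset (α → β)) :
    S.card * Real.log S.card ≤
      ∑ g ∈ S, gg (fun m V => Real.log (cand S g m V)) (Fintype.card α) Finset.univ := by
  rcases S.eq_empty_or_nonempty with rfl | ⟨f, hf⟩
  · simp
  have h1 := kraft S (Fintype.card α) Finset.univ f hf rfl
  have h2 : cls S f Finset.univ = S := by
    ext g
    simp [mem_cls]
  rw [h2] at h1
  have hS : (0 : ℝ) < S.card := by exact_mod_cast Finset.card_pos.2 ⟨f, hf⟩
  have h3 := convexOn_exp.map_sum_le (t := S) (w := fun _ => (S.card : ℝ)⁻¹)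
    (p := fun g => -gg (fun m V => Real.log (cand S g m V)) (Fintype.card α) Finset.univ)
    (fun _ _ => by positivity) (by rw [Finset.sum_const, nsmul_eq_mul]; exact mul_inv_cancel₀ hS.ne')
    (fun _ _ => Set.mem_univ _)
  simp only [smul_eq_mul] at h3
  rw [← Finset.mul_sum, ← Finset.mul_sum, Finset.sum_neg_distrib] at h3
  have h4 : (S.card : ℝ)⁻¹ * ∑ g ∈ S,
      Real.exp (-gg (fun m V => Real.log (cand S g m V)) (Fintype.card α) Finset.univ) ≤ (S.card : ℝ)⁻¹ := by
    calc _ ≤ (S.card : ℝ)⁻¹ * 1 := mul_le_mul_of_nonneg_left h1 (by positivity)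
      _ = _ := mul_one _
  have h5 := h3.trans h4
  rw [← Real.exp_log (inv_pos.2 hS), Real.exp_le_exp, Real.log_inv] at h5
  rw [Real.exp_neg, Real.exp_log hS] at h5
  have h6 : Real.log S.card ≤ (S.card : ℝ)⁻¹ *
      ∑ g ∈ S, gg (fun m V => Real.log (cand S g m V)) (Fintype.card α) Finset.univ := by linarith
  calc (S.card : ℝ) * Real.log S.card ≤ (S.card : ℝ) * ((S.card : ℝ)⁻¹ *
      ∑ g ∈ S, gg (fun m V => Real.log (cand S g m V)) (Fintype.card α) Finset.univ) :=
        mul_le_mul_of_nonneg_left h6 hS.le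
    _ = _ := by rw [← mul_assoc, mul_inv_cancel₀ hS.ne', one_mul]

/-- `e V` is the expected value of `f` at the moment when `m` is revealed, the elements of `V` being
revealed in a random order -/
def IsE (m : α) (f e : Finset α → ℝ) : Prop :=
  (∀ V, m ∉ V → e V = 0) ∧ ∀ V, m ∈ V → (V.card : ℝ) * e V = f V + ∑ x ∈ V, e (V.erase x)

omit [Fintype α] in
theorem IsE.sum {m : α} (s : Finset ι) (c : ι → ℝ) (f e : ι → Finset α → ℝ)
    (h : ∀ i ∈ s, IsE m (f i) (e i)) :
    IsE m (fun V => ∑ i ∈ s, c i * f i V) (fun V => ∑ i ∈ s, c i * e i V) := by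
  refine ⟨fun V hV => Finset.sum_eq_zero fun i hi => by rw [(h i hi).1 V hV, mul_zero], fun V hV => ?_⟩
  dsimp only
  rw [Finset.mul_sum, Finset.sum_comm, ← Finset.sum_add_distrib]
  refine Finset.sum_congr rfl fun i hi => ?_
  rw [← Finset.mul_sum, ← mul_add, ← (h i hi).2 V hV]
  ring

omit [Fintype α] in
theorem IsE.sub {m : α} {f e f' e' : Finset α → ℝ} (h : IsE m f e) (h' : IsE m f' e') :
    IsE m (fun V => f V - f' V) (fun V => e V - e' V) := by
  refine ⟨fun V hV => by dsimp only; rw [h.1 V hV, h'.1 V hV, sub_zero], fun V hV => ?_⟩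
  dsimp only
  rw [Finset.sum_sub_distrib, mul_sub, h.2 V hV, h'.2 V hV]
  ring

omit [Fintype α] in
theorem IsE.ind {m : α} (T : Finset α) (hm : m ∈ T) :
    IsE m (fun V => if T ⊆ V then 1 else 0) (fun V => (if T ⊆ V then 1 else 0) / T.card) := by
  refine ⟨fun V hV => ?_, fun V hV => ?_⟩
  · dsimp only
    rw [if_neg fun h => hV (h hm), zero_div]
  · dsimp only
    have hT : (0 : ℝ) < T.card := by exact_mod_cast Finset.card_pos.2 ⟨_, hm⟩
    by_cases hTV : T ⊆ V
    · rw [if_pos hTV]
      have h3 : ∀ x ∈ V, (if T ⊆ V.erase x then (1 : ℝ) else 0) / T.card =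
          (T.card : ℝ)⁻¹ * (if x ∉ T then 1 else 0) := by
        intro x _
        have : (T ⊆ V.erase x) ↔ x ∉ T := by
          rw [Finset.subset_erase]
          exact and_iff_right hTV
        simp only [this]
        ring
      rw [Finset.sum_congr rfl h3, ← Finset.mul_sum, Finset.sum_boole]
      have h4 : V.filter (fun x => x ∉ T) = V \ T := by
        ext x; simp
      rw [h4, Finset.cast_card_sdiff hTV]
      field_simp
      ring
    · rw [if_neg hTV, zero_div, mul_zero]
      refine (Finset.sum_eq_zero fun x _ => ?_).symm.trans (by rw [zero_add])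
      rw [if_neg fun h => hTV (h.trans (Finset.erase_subset _ _)), zero_div]

theorem gg_le (l : α → Finset α → ℝ) (f e : α → Finset α → ℝ) (hE : ∀ m, IsE m (f m) (e m))
    (hl : ∀ m V, m ∈ V → l m V ≤ f m V) :
    ∀ (k : ℕ) (V : Finset α), V.card = k → gg l k V ≤ ∑ m, e m V := by
  intro k
  induction k with
  | zero =>
    intro V hV
    have hV' : V = ∅ := Finset.card_eq_zero.1 hV
    subst hV'
    rw [gg]
    exact le_of_eq (Finset.sum_eq_zero fun m _ => (hE m).1 _ (Finset.notMem_empty m)).symm
  | succ k ih =>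
    intro V hV
    have hk : (0 : ℝ) < (k : ℝ) + 1 := by positivity
    have hsub : ∑ m, e m V = ∑ m ∈ V, e m V :=
      (Finset.sum_subset (Finset.subset_univ V) fun m _ hm => (hE m).1 V hm).symm
    rw [gg, div_le_iff₀ hk, hsub, Finset.sum_mul]
    have h1 : ∀ m ∈ V, e m V * ((k : ℝ) + 1) = f m V + ∑ x ∈ V, e m (V.erase x) := by
      intro m hm
      rw [← (hE m).2 V hm, hV]
      push_cast
      ring
    rw [Finset.sum_congr rfl h1, Finset.sum_add_distrib, Finset.sum_add_distrib]
    refine add_le_add (Finset.sum_le_sum fun m hm => hl m V hm) ?_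
    rw [Finset.sum_comm]
    refine Finset.sum_le_sum fun x hx => ?_
    refine (ih (V.erase x) (by rw [Finset.card_erase_of_mem hx, hV]; rfl)).trans (le_of_eq ?_)
    refine (Finset.sum_subset (Finset.subset_univ V) fun m _ hm => (hE m).1 _ fun h => hm ?_).symm
    exact Finset.mem_of_mem_erase h

end SMB
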