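import Mathlib
import Pool.Agent.Lib.MP_c91ad1_co.Entropy

/-!
# Stable matchings: opposition of interests, and the number of candidates
-/

set_option autoImplicit false

namespace SMB

open Finset

variable {α : Type*} [Fintype α] [DecidableEq α]

/-- `P m w` is the rank of `w` for `m` and `Q w m` the rank of `m` for `w` (smaller is better);
`s` is stable -/
def Stb (P Q : α → α → ℕ) (s : Equiv.Perm α) : Prop :=
  ∀ m w, ¬ (P m w < P m (s m) ∧ Q w m < Q w (s.symm w))

variable {P Q : α → α → ℕ}

omit [Fintype α] [DecidableEq α] in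
theorem opp1 (hQ : ∀ w, Function.Injective (Q w)) {s t : Equiv.Perm α} (hs : Stb P Q s) {m : α}
    (h : P m (t m) < P m (s m)) : Q (t m) (s.symm (t m)) < Q (t m) m := by
  have h1 := hs m (t m)
  have h2 : ¬ Q (t m) m < Q (t m) (s.symm (t m)) := fun h' => h1 ⟨h, h'⟩
  rcases lt_or_eq_of_le (not_lt.1 h2) with h3 | h3
  · exact h3
  · exfalso
    have h4 : s.symm (t m) = m := hQ _ h3
    have h5 : t m = s m := by rw [← h4, Equiv.apply_symm_apply, h4]
    rw [h5] at h
    exact lt_irrefl _ h

theorem opp2 (hP : ∀ m, Function.Injective (P m)) (hQ : ∀ w, Function.Injective (Q w))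
    {s t : Equiv.Perm α} (hs : Stb P Q s) (ht : Stb P Q t) {m : α}
    (h : P m (t m) < P m (s m)) : Q (s m) m < Q (s m) (t.symm (s m)) := by
  set A : Finset α := Finset.univ.filter (fun m => P m (t m) < P m (s m)) with hA
  set B : Finset α := Finset.univ.filter (fun w => Q w (s.symm w) < Q w (t.symm w)) with hB
  have h1 : A.image t ⊆ B := by
    intro w hw
    obtain ⟨m, hm, rfl⟩ := Finset.mem_image.1 hw
    rw [hB, Finset.mem_filter]
    refine ⟨Finset.mem_univ _, ?_⟩
    rw [Equiv.symm_apply_apply]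
    exact opp1 hQ hs (Finset.mem_filter.1 hm).2
  have h2 : B.image s.symm ⊆ A := by
    intro m hm
    obtain ⟨w, hw, rfl⟩ := Finset.mem_image.1 hm
    rw [hA, Finset.mem_filter]
    refine ⟨Finset.mem_univ _, ?_⟩
    have h3 := (Finset.mem_filter.1 hw).2
    rw [Equiv.apply_symm_apply]
    have h4 : ¬ P (s.symm w) w < P (s.symm w) (t (s.symm w)) := fun h' => ht _ _ ⟨h', h3⟩
    rcases lt_or_eq_of_le (not_lt.1 h4) with h5 | h5
    · exact h5
    · exfalso
      have h6 : t (s.symm w) = w := hP _ h5
      have h7 : t.symm w = s.symm w := by rw [Equiv.symm_apply_eq, h6]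
      rw [h7] at h3
      exact lt_irrefl _ h3
  have h3 : A.card ≤ B.card := by
    rw [← Finset.card_image_of_injective A t.injective]
    exact Finset.card_le_card h1
  have h4 : B.image s.symm = A := by
    refine Finset.eq_of_subset_of_card_le h2 ?_
    rw [Finset.card_image_of_injective B s.symm.injective]
    exact h3
  have h5 : m ∈ A := Finset.mem_filter.2 ⟨Finset.mem_univ _, h⟩
  rw [← h4] at h5
  obtain ⟨w, hw, hwm⟩ := Finset.mem_image.1 h5
  have h6 : w = s m := by rw [← hwm, Equiv.apply_symm_apply]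
  have h7 := (Finset.mem_filter.1 hw).2
  rw [hwm, h6] at h7
  exact h7

theorem distinct_up (hP : ∀ m, Function.Injective (P m)) (hQ : ∀ w, Function.Injective (Q w))
    {s s' u : Equiv.Perm α} (hs : Stb P Q s) (hs' : Stb P Q s') (hu : Stb P Q u) {m : α}
    (h1 : P m (s' m) ≤ P m (u m)) (h2 : P m (u m) < P m (s m)) : s.symm (u m) ≠ s'.symm (u m) := by
  intro h
  have h3 := opp1 hQ hs h2
  rcases lt_or_eq_of_le h1 with h4 | h4
  · have h5 := opp2 hP hQ hu hs' h4
    rw [← h] at h5
    exact lt_asymm h3 h5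
  · have h5 : s' m = u m := hP _ h4
    rw [h, ← h5, Equiv.symm_apply_apply] at h3
    exact lt_irrefl _ h3

theorem distinct_dn (hP : ∀ m, Function.Injective (P m)) (hQ : ∀ w, Function.Injective (Q w))
    {s s' u : Equiv.Perm α} (hs : Stb P Q s) (hs' : Stb P Q s') (hu : Stb P Q u) {m : α}
    (h1 : P m (s m) < P m (u m)) (h2 : P m (u m) ≤ P m (s' m)) : s.symm (u m) ≠ s'.symm (u m) := by
  intro h
  have h3 := opp2 hP hQ hu hs h1
  rcases lt_or_eq_of_le h2 with h4 | h4
  · have h5 := opp1 hQ hs' h4
    rw [← h] at h5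
    exact lt_asymm h3 h5
  · have h5 : u m = s' m := hP _ h4
    rw [h, h5, Equiv.symm_apply_apply] at h3
    exact lt_irrefl _ h3

/-- the initial segments of a finite set ordered by `f` -/
theorem chain {β : Type*} [DecidableEq β] (F : Finset β) (f : β → ℕ) (hf : Set.InjOn f F) :
    ∃ T : ℕ → Finset β, (∀ a b, a ≤ b → T a ⊆ T b) ∧ (∀ a, T a ⊆ F) ∧ (∀ a ≤ F.card, (T a).card = a) ∧
      ∃ r : β → ℕ, Set.InjOn r F ∧ ∀ w ∈ F, r w < F.card ∧ T (r w + 1) = F.filter (fun x => f x ≤ f w) := by
  set r : β → ℕ := fun w => (F.filter (fun x => f x < f w)).card with hr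
  have hlt : ∀ w ∈ F, ∀ x ∈ F, f w < f x → r w < r x := by
    intro w hw x hx h
    refine Finset.card_lt_card ?_
    rw [Finset.ssubset_iff_of_subset]
    · exact ⟨w, Finset.mem_filter.2 ⟨hw, h⟩, fun h' => lt_irrefl _ (Finset.mem_filter.1 h').2⟩
    · intro y hy
      rw [Finset.mem_filter] at hy ⊢
      exact ⟨hy.1, hy.2.trans h⟩
  have hiff : ∀ w ∈ F, ∀ x ∈ F, r w < r x ↔ f w < f x := by
    intro w hw x hx
    refine ⟨fun h => ?_, hlt w hw x hx⟩
    by_contra h'
    rcases lt_or_eq_of_le (not_lt.1 h') with h1 | h1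
    · exact lt_asymm h (hlt x hx w hw h1)
    · rw [hf hx hw h1] at h
      exact lt_irrefl _ h
  have hinj : Set.InjOn r F := by
    intro w hw x hx h
    rcases lt_trichotomy (f w) (f x) with h1 | h1 | h1
    · exact absurd h (hlt w hw x hx h1).ne
    · exact hf hw hx h1
    · exact absurd h (hlt x hx w hw h1).ne'
  have hrange : ∀ w ∈ F, r w < F.card := by
    intro w hw
    refine Finset.card_lt_card ?_
    rw [Finset.ssubset_iff_of_subset (Finset.filter_subset _ _)]
    exact ⟨w, hw, fun h' => lt_irrefl _ (Finset.mem_filter.1 h').2⟩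
  have himg : F.image r = Finset.range F.card := by
    refine Finset.eq_of_subset_of_card_le ?_ ?_
    · intro a ha
      obtain ⟨w, hw, rfl⟩ := Finset.mem_image.1 ha
      exact Finset.mem_range.2 (hrange w hw)
    · rw [Finset.card_range, Finset.card_image_of_injOn hinj]
  refine ⟨fun a => F.filter (fun w => r w < a), ?_, ?_, ?_, r, hinj, ?_⟩
  · intro a b hab w hw
    rw [Finset.mem_filter] at hw ⊢
    exact ⟨hw.1, hw.2.trans_le hab⟩
  · intro a
    exact Finset.filter_subset _ _
  · intro a ha
    rw [← Finset.card_image_of_injOn (f := r) (hinj.mono (by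
      intro w hw
      exact (Finset.mem_filter.1 hw).1))]
    have : (F.filter (fun w => r w < a)).image r = Finset.range a := by
      ext b
      rw [Finset.mem_image, Finset.mem_range]
      constructor
      · rintro ⟨w, hw, rfl⟩
        exact (Finset.mem_filter.1 hw).2
      · intro hb
        have h1 : b ∈ F.image r := by
          rw [himg, Finset.mem_range]
          omega
        obtain ⟨w, hw, rfl⟩ := Finset.mem_image.1 h1
        exact ⟨w, Finset.mem_filter.2 ⟨hw, hb⟩, rfl⟩
    rw [this, Finset.card_range]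
  · intro w hw
    refine ⟨hrange w hw, ?_⟩
    ext x
    rw [Finset.mem_filter, Finset.mem_filter]
    refine and_congr_right fun hx => ?_
    rw [Nat.lt_succ_iff, ← not_lt, ← not_lt, hiff w hw x hx]

/-- the number of `j < p` with `X (j+1) ⊆ V` -/
def cnt (p : ℕ) (X : ℕ → Finset α) (V : Finset α) : ℕ :=
  ((Finset.range p).filter (fun j => X (j + 1) ⊆ V)).card

omit [Fintype α] in
theorem le_cnt {p : ℕ} {X : ℕ → Finset α} {V : Finset α} (hX : ∀ a b, a ≤ b → X a ⊆ X b)
    (hX0 : X 0 = ∅) (a : ℕ) : a ≤ cnt p X V ↔ a ≤ p ∧ X a ⊆ V := by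
  have hdown : ∀ i j, i ≤ j → j ∈ (Finset.range p).filter (fun j => X (j + 1) ⊆ V) →
      i ∈ (Finset.range p).filter (fun j => X (j + 1) ⊆ V) := by
    intro i j hij hj
    rw [Finset.mem_filter, Finset.mem_range] at hj ⊢
    exact ⟨by omega, (hX _ _ (by omega)).trans hj.2⟩
  unfold cnt
  constructor
  · intro h
    rcases Nat.eq_zero_or_pos a with rfl | ha
    · exact ⟨Nat.zero_le _, by rw [hX0]; exact Finset.empty_subset _⟩
    by_contra hcon
    have h1 : (Finset.range p).filter (fun j => X (j + 1) ⊆ V) ⊆ Finset.range (a - 1) := by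
      intro j hj
      rw [Finset.mem_range]
      by_contra hj'
      have h2 := hdown (a - 1) j (by omega) hj
      rw [Finset.mem_filter, Finset.mem_range, Nat.sub_add_cancel ha] at h2
      exact hcon ⟨by omega, h2.2⟩
    have h2 := Finset.card_le_card h1
    rw [Finset.card_range] at h2
    omega
  · rintro ⟨h1, h2⟩
    have h3 : Finset.range a ⊆ (Finset.range p).filter (fun j => X (j + 1) ⊆ V) := by
      intro j hj
      rw [Finset.mem_range] at hj
      rw [Finset.mem_filter, Finset.mem_range]
      exact ⟨by omega, (hX _ _ (by omega)).trans h2⟩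
    have h4 := Finset.card_le_card h3
    rwa [Finset.card_range] at h4

/-- the number of candidates for the partner of `m` -/
theorem cand_le (hP : ∀ m, Function.Injective (P m)) (hQ : ∀ w, Function.Injective (Q w))
    (S : Finset (Equiv.Perm α)) (hS : ∀ s ∈ S, Stb P Q s) (s : Equiv.Perm α) (hs : s ∈ S) (m : α) :
    ∃ (p q : ℕ) (X Y : ℕ → Finset α), (∀ a b, a ≤ b → X a ⊆ X b) ∧ (∀ a b, a ≤ b → Y a ⊆ Y b) ∧
      X 0 = ∅ ∧ Y 0 = ∅ ∧ (∀ a ≤ p, ∀ b ≤ q, (insert m (X a ∪ Y b)).card = a + b + 1) ∧
      ∀ V, m ∈ V → cand (S.image (fun t : Equiv.Perm α => (t : α → α))) s m V ≤ 1 + cnt p X V + cnt q Y V := by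
  set W : Finset α := S.image (fun t => t m) with hW
  set up : Finset α := W.filter (fun w => P m w < P m (s m)) with hup
  set dn : Finset α := W.filter (fun w => P m (s m) < P m w) with hdn
  obtain ⟨T, hT1, hT2, hT3, r, hr1, hr2⟩ := chain up (fun w => P m (s m) - P m w) (by
    intro w hw x hx h
    have h1 := (Finset.mem_filter.1 hw).2
    have h2 := (Finset.mem_filter.1 hx).2
    dsimp only at h
    exact hP m (by omega))
  obtain ⟨U, hU1, hU2, hU3, r', hr1', hr2'⟩ := chain dn (fun w => P m w) (by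
    intro w hw x hx h
    exact hP m h)
  refine ⟨up.card, dn.card, fun a => (T a).image s.symm, fun b => (U b).image s.symm, ?_, ?_, ?_, ?_, ?_, ?_⟩
  · intro a b hab
    exact Finset.image_subset_image (hT1 a b hab)
  · intro a b hab
    exact Finset.image_subset_image (hU1 a b hab)
  · have : T 0 = ∅ := Finset.card_eq_zero.1 (hT3 0 (Nat.zero_le _))
    simp [this]
  · have : U 0 = ∅ := Finset.card_eq_zero.1 (hU3 0 (Nat.zero_le _))
    simp [this]
  · intro a ha b hb
    have hd : Disjoint (T a) (U b) := by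
      rw [Finset.disjoint_left]
      intro w h1 h2
      have h3 := (Finset.mem_filter.1 (hT2 a h1)).2
      have h4 := (Finset.mem_filter.1 (hU2 b h2)).2
      exact lt_asymm h3 h4
    have hm : m ∉ (T a).image s.symm ∪ (U b).image s.symm := by
      rw [← Finset.image_union, Finset.mem_image]
      rintro ⟨w, hw, hwm⟩
      have h5 : w = s m := by rw [← hwm, Equiv.apply_symm_apply]
      rcases Finset.mem_union.1 hw with h | h
      · have h3 := (Finset.mem_filter.1 (hT2 a h)).2
        rw [h5] at h3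
        exact lt_irrefl _ h3
      · have h3 := (Finset.mem_filter.1 (hU2 b h)).2
        rw [h5] at h3
        exact lt_irrefl _ h3
    rw [Finset.card_insert_of_notMem hm, ← Finset.image_union,
      Finset.card_image_of_injective _ s.symm.injective, Finset.card_union_of_disjoint hd, hT3 a ha, hU3 b hb]
  · intro V hV
    unfold cand
    set C : Finset α := (cls (S.image (fun t : Equiv.Perm α => (t : α → α))) s V).image (fun g => g m) with hC
    -- description of the candidates
    have hCW : ∀ w ∈ C, ∃ t ∈ S, t m = w ∧ ∀ x, x ∉ V → t x = s x := by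
      intro w hw
      obtain ⟨g, hg, rfl⟩ := Finset.mem_image.1 hw
      rw [mem_cls] at hg
      obtain ⟨t, ht, rfl⟩ := Finset.mem_image.1 hg.1
      exact ⟨t, ht, rfl, hg.2⟩
    have key : ∀ t : Equiv.Perm α, (∀ x, x ∉ V → t x = s x) → ∀ w, s.symm w ≠ t.symm w → s.symm w ∈ V := by
      intro t ht w hw
      by_contra h
      have h1 := ht _ h
      rw [Equiv.apply_symm_apply] at h1
      exact hw (by rw [Equiv.eq_symm_apply, h1])
    have hsub : C ⊆ {s m} ∪ (C ∩ up ∪ C ∩ dn) := by
      intro w hw
      obtain ⟨t, ht, htw, _⟩ := hCW w hw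
      have hwW : w ∈ W := Finset.mem_image.2 ⟨t, ht, htw⟩
      rcases lt_trichotomy (P m w) (P m (s m)) with h | h | h
      · refine Finset.mem_union_right _ (Finset.mem_union_left _ (Finset.mem_inter.2 ⟨hw, ?_⟩))
        exact Finset.mem_filter.2 ⟨hwW, h⟩
      · refine Finset.mem_union_left _ (Finset.mem_singleton.2 (hP m h))
      · refine Finset.mem_union_right _ (Finset.mem_union_right _ (Finset.mem_inter.2 ⟨hw, ?_⟩))
        exact Finset.mem_filter.2 ⟨hwW, h⟩
    have hA : (C ∩ up).card ≤ cnt up.card (fun a => (T a).image s.symm) V := by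
      unfold cnt
      refine Finset.card_le_card_of_injOn r ?_ (hr1.mono (by
        intro w hw
        exact (Finset.mem_inter.1 hw).2))
      intro w hw
      obtain ⟨hwC, hwu⟩ := Finset.mem_inter.1 hw
      obtain ⟨t, ht, htw, htV⟩ := hCW w hwC
      have h1 := hr2 w hwu
      rw [Finset.mem_coe, Finset.mem_filter, Finset.mem_range]
      refine ⟨h1.1, ?_⟩
      dsimp only
      rw [h1.2]
      intro x hx
      obtain ⟨w', hw', rfl⟩ := Finset.mem_image.1 hx
      rw [Finset.mem_filter] at hw'
      have h2 := (Finset.mem_filter.1 hwu).2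
      have h3 := (Finset.mem_filter.1 hw'.1)
      obtain ⟨u, hu, hum⟩ := Finset.mem_image.1 h3.1
      refine key t htV w' ?_
      rw [← hum]
      refine distinct_up hP hQ (hS s hs) (hS t ht) (hS u hu) ?_ ?_
      · rw [hum, htw]
        have h4 := hw'.2
        have h5 := h3.2
        omega
      · rw [hum]
        exact h3.2
    have hB : (C ∩ dn).card ≤ cnt dn.card (fun a => (U a).image s.symm) V := by
      unfold cnt
      refine Finset.card_le_card_of_injOn r' ?_ (hr1'.mono (by
        intro w hw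
        exact (Finset.mem_inter.1 hw).2))
      intro w hw
      obtain ⟨hwC, hwu⟩ := Finset.mem_inter.1 hw
      obtain ⟨t, ht, htw, htV⟩ := hCW w hwC
      have h1 := hr2' w hwu
      rw [Finset.mem_coe, Finset.mem_filter, Finset.mem_range]
      refine ⟨h1.1, ?_⟩
      dsimp only
      rw [h1.2]
      intro x hx
      obtain ⟨w', hw', rfl⟩ := Finset.mem_image.1 hx
      rw [Finset.mem_filter] at hw'
      have h3 := (Finset.mem_filter.1 hw'.1)
      obtain ⟨u, hu, hum⟩ := Finset.mem_image.1 h3.1
      refine key t htV w' ?_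
      rw [← hum]
      refine distinct_dn hP hQ (hS s hs) (hS t ht) (hS u hu) ?_ ?_
      · rw [hum]
        exact h3.2
      · rw [hum, htw]
        exact hw'.2
    calc C.card ≤ ({s m} ∪ (C ∩ up ∪ C ∩ dn)).card := Finset.card_le_card hsub
      _ ≤ ({s m} : Finset α).card + (C ∩ up ∪ C ∩ dn).card := Finset.card_union_le _ _
      _ ≤ 1 + ((C ∩ up).card + (C ∩ dn).card) := by
          rw [Finset.card_singleton]
          exact Nat.add_le_add_left (Finset.card_union_le _ _) 1
      _ ≤ _ := by omega

end SMB
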