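import Mathlib
import Pool.Agent.Lib.MP_c91ad1_co.Entropy
import Pool.Agent.Lib.MP_c91ad1_co.Stable

/-!
# The expected logarithm of the number of candidates
-/

set_option autoImplicit false

namespace SMB

open Finset

variable {α : Type*} [Fintype α] [DecidableEq α]

/-- telescoping -/
theorem log_tel (a : ℕ) : Real.log (1 + (a : ℝ)) =
    ∑ s ∈ Finset.range a, (Real.log ((s : ℝ) + 2) - Real.log ((s : ℝ) + 1)) := by
  induction a with
  | zero => simp
  | succ a ih =>
    rw [Finset.sum_range_succ, ← ih]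
    push_cast
    rw [show 1 + ((a : ℝ) + 1) = (a : ℝ) + 2 by ring, show 1 + (a : ℝ) = (a : ℝ) + 1 by ring]
    ring

/-- counting the pairs of a staircase -/
theorem stair (A B s : ℕ) :
    ((((Finset.range (s + 1)).filter (fun i => i ≤ A ∧ s - i ≤ B)).card : ℕ) : ℝ) -
      ((((Finset.range s).filter (fun i => i + 1 ≤ A ∧ s - i ≤ B)).card : ℕ) : ℝ) =
      if s ≤ A + B then 1 else 0 := by
  have h1 : (Finset.range (s + 1)).filter (fun i => i ≤ A ∧ s - i ≤ B) = Finset.Icc (s - B) (min A s) := by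
    ext i
    simp only [Finset.mem_filter, Finset.mem_range, Finset.mem_Icc]
    omega
  have h2 : (Finset.range s).filter (fun i => i + 1 ≤ A ∧ s - i ≤ B) = Finset.Ico (s - B) (min A s) := by
    ext i
    simp only [Finset.mem_filter, Finset.mem_range, Finset.mem_Ico]
    omega
  rw [h1, h2, Nat.card_Icc, Nat.card_Ico]
  split_ifs with h
  · have h3 : min A s + 1 - (s - B) = (min A s - (s - B)) + 1 := by omega
    rw [h3]
    push_cast
    ring
  · have h3 : min A s + 1 - (s - B) = 0 := by omega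
    have h4 : min A s - (s - B) = 0 := by omega
    rw [h3, h4]
    simp

/-- the value of the expectation -/
noncomputable def cst (N : ℕ) : ℝ :=
  ∑ s ∈ Finset.range N, (Real.log ((s : ℝ) + 2) - Real.log ((s : ℝ) + 1)) * (2 / ((s : ℝ) + 3))

theorem card_split (p q s : ℕ) : ((Finset.range (s + 1)).filter (fun i => i ≤ p ∧ s - i ≤ q)).card ≤
    ((Finset.range s).filter (fun i => i + 1 ≤ p ∧ s - i ≤ q)).card + 1 := by
  have h1 : (Finset.range (s + 1)).filter (fun i => i ≤ p ∧ s - i ≤ q) = Finset.Icc (s - q) (min p s) := by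
    ext i
    simp only [Finset.mem_filter, Finset.mem_range, Finset.mem_Icc]
    omega
  have h2 : (Finset.range s).filter (fun i => i + 1 ≤ p ∧ s - i ≤ q) = Finset.Ico (s - q) (min p s) := by
    ext i
    simp only [Finset.mem_filter, Finset.mem_range, Finset.mem_Ico]
    omega
  rw [h1, h2, Nat.card_Icc, Nat.card_Ico]
  omega

omit [Fintype α] in
theorem sum_ind (I : Finset ℕ) (pr : ℕ → Prop) [DecidablePred pr] (g : ℕ → Finset α) (V : Finset α)
    (h : ∀ i ∈ I, (g i ⊆ V) ↔ pr i) :
    ∑ i ∈ I, 1 * (if g i ⊆ V then (1 : ℝ) else 0) = (((I.filter pr).card : ℕ) : ℝ) := by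
  rw [Finset.card_filter, Nat.cast_sum]
  refine Finset.sum_congr rfl fun i hi => ?_
  by_cases hp : pr i
  · rw [if_pos ((h i hi).2 hp), if_pos hp]
    simp
  · rw [if_neg (fun h' => hp ((h i hi).1 h')), if_neg hp]
    simp

theorem exp_log (m : α) (p q : ℕ) (X Y : ℕ → Finset α) (hX : ∀ a b, a ≤ b → X a ⊆ X b)
    (hY : ∀ a b, a ≤ b → Y a ⊆ Y b) (hX0 : X 0 = ∅) (hY0 : Y 0 = ∅)
    (hXY : ∀ a ≤ p, ∀ b ≤ q, (insert m (X a ∪ Y b)).card = a + b + 1) :
    ∃ f e : Finset α → ℝ, IsE m f e ∧ (∀ V, m ∈ V → Real.log (1 + cnt p X V + cnt q Y V) = f V) ∧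
      e Finset.univ ≤ cst (p + q) := by
  set L : ℕ → ℝ := fun s => Real.log ((s : ℝ) + 2) - Real.log ((s : ℝ) + 1) with hL
  have hL0 : ∀ s, 0 ≤ L s := fun s => sub_nonneg.2 (Real.log_le_log (by positivity) (by linarith))
  -- index sets for level s+1
  set I1 : ℕ → Finset ℕ := fun s => (Finset.range (s + 1 + 1)).filter (fun i => i ≤ p ∧ s + 1 - i ≤ q) with hI1
  set I2 : ℕ → Finset ℕ := fun s => (Finset.range (s + 1)).filter (fun i => i + 1 ≤ p ∧ s + 1 - i ≤ q) with hI2
  set f1 : ℕ → Finset α → ℝ := fun s V => (∑ i ∈ I1 s, 1 * (if insert m (X i ∪ Y (s + 1 - i)) ⊆ V then (1:ℝ) else 0)) -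
    ∑ i ∈ I2 s, 1 * (if insert m (X (i + 1) ∪ Y (s + 1 - i)) ⊆ V then (1:ℝ) else 0) with hf1
  set e1 : ℕ → Finset α → ℝ := fun s V => (∑ i ∈ I1 s, 1 * ((if insert m (X i ∪ Y (s + 1 - i)) ⊆ V then (1:ℝ) else 0) /
      (insert m (X i ∪ Y (s + 1 - i))).card)) -
    ∑ i ∈ I2 s, 1 * ((if insert m (X (i + 1) ∪ Y (s + 1 - i)) ⊆ V then (1:ℝ) else 0) /
      (insert m (X (i + 1) ∪ Y (s + 1 - i))).card) with he1
  have hE1 : ∀ s, IsE m (f1 s) (e1 s) := by
    intro s
    refine IsE.sub (IsE.sum (I1 s) (fun _ => 1) _ _ fun i _ => IsE.ind _ (Finset.mem_insert_self _ _))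
      (IsE.sum (I2 s) (fun _ => 1) _ _ fun i _ => IsE.ind _ (Finset.mem_insert_self _ _))
  refine ⟨fun V => ∑ s ∈ Finset.range (p + q), L s * f1 s V, fun V => ∑ s ∈ Finset.range (p + q), L s * e1 s V,
    IsE.sum _ _ _ _ fun s _ => hE1 s, ?_, ?_⟩
  · intro V hV
    dsimp only
    have hA : cnt p X V ≤ p := by
      unfold cnt
      refine (Finset.card_filter_le _ _).trans ?_
      rw [Finset.card_range]
    have hB : cnt q Y V ≤ q := by
      unfold cnt
      refine (Finset.card_filter_le _ _).trans ?_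
      rw [Finset.card_range]
    have hind : ∀ i j, i ≤ p → j ≤ q → ((insert m (X i ∪ Y j) ⊆ V) ↔ i ≤ cnt p X V ∧ j ≤ cnt q Y V) := by
      intro i j hi hj
      rw [Finset.insert_subset_iff, Finset.union_subset_iff, le_cnt hX hX0, le_cnt hY hY0]
      tauto
    have hf : ∀ s, f1 s V = if s + 1 ≤ cnt p X V + cnt q Y V then 1 else 0 := by
      intro s
      rw [← stair, hf1]
      dsimp only
      congr 1
      · rw [sum_ind (I1 s) (fun i => i ≤ cnt p X V ∧ s + 1 - i ≤ cnt q Y V)]
        · congr 2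
          ext i
          simp only [hI1, Finset.mem_filter, Finset.mem_range]
          omega
        · intro i hi
          rw [hI1, Finset.mem_filter] at hi
          exact hind i (s + 1 - i) hi.2.1 hi.2.2
      · rw [sum_ind (I2 s) (fun i => i + 1 ≤ cnt p X V ∧ s + 1 - i ≤ cnt q Y V)]
        · congr 2
          ext i
          simp only [hI2, Finset.mem_filter, Finset.mem_range]
          omega
        · intro i hi
          rw [hI2, Finset.mem_filter] at hi
          exact hind (i + 1) (s + 1 - i) hi.2.1 hi.2.2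
    have h1 := log_tel (cnt p X V + cnt q Y V)
    push_cast at h1
    rw [← add_assoc] at h1
    rw [h1]
    have h2 : Finset.range (cnt p X V + cnt q Y V) =
        (Finset.range (p + q)).filter (fun s => s + 1 ≤ cnt p X V + cnt q Y V) := by
      ext s
      simp only [Finset.mem_filter, Finset.mem_range]
      omega
    rw [h2, Finset.sum_filter]
    refine Finset.sum_congr rfl fun s _ => ?_
    rw [hf s]
    split_ifs <;> simp [hL]
  · dsimp only
    unfold cst
    refine Finset.sum_le_sum fun s _ => mul_le_mul_of_nonneg_left ?_ (hL0 s)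
    rw [he1]
    dsimp only
    have h1 : ∑ i ∈ I1 s, (1:ℝ) * ((if insert m (X i ∪ Y (s + 1 - i)) ⊆ Finset.univ then (1:ℝ) else 0) /
        (insert m (X i ∪ Y (s + 1 - i))).card) = (I1 s).card / ((s : ℝ) + 2) := by
      rw [Finset.sum_congr rfl (g := fun _ => 1 / ((s : ℝ) + 2))]
      · rw [Finset.sum_const, nsmul_eq_mul]
        ring
      · intro i hi
        rw [hI1, Finset.mem_filter, Finset.mem_range] at hi
        rw [if_pos (Finset.subset_univ _), hXY i hi.2.1 _ hi.2.2, one_mul]
        congr 1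
        have : i + (s + 1 - i) + 1 = s + 2 := by omega
        rw [this]
        push_cast
        ring
    have h2 : ∑ i ∈ I2 s, (1:ℝ) * ((if insert m (X (i + 1) ∪ Y (s + 1 - i)) ⊆ Finset.univ then (1:ℝ) else 0) /
        (insert m (X (i + 1) ∪ Y (s + 1 - i))).card) = (I2 s).card / ((s : ℝ) + 3) := by
      rw [Finset.sum_congr rfl (g := fun _ => 1 / ((s : ℝ) + 3))]
      · rw [Finset.sum_const, nsmul_eq_mul]
        ring
      · intro i hi
        rw [hI2, Finset.mem_filter, Finset.mem_range] at hi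
        rw [if_pos (Finset.subset_univ _), hXY (i + 1) hi.2.1 _ hi.2.2, one_mul]
        congr 1
        have : i + 1 + (s + 1 - i) + 1 = s + 3 := by omega
        rw [this]
        push_cast
        ring
    rw [h1, h2]
    have h3 : ((I1 s).card : ℝ) ≤ (I2 s).card + 1 := by
      have := card_split p q (s + 1)
      exact_mod_cast this
    have h4 : ((I1 s).card : ℝ) ≤ (s : ℝ) + 2 := by
      have : (I1 s).card ≤ s + 2 := by
        refine (Finset.card_filter_le _ _).trans ?_
        rw [Finset.card_range]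
      exact_mod_cast this
    have hs : (0 : ℝ) ≤ s := Nat.cast_nonneg s
    have h5 : ((I1 s).card : ℝ) / (s + 2) - (I2 s).card / (s + 3) ≤
        ((I1 s).card : ℝ) / (s + 2) - ((I1 s).card - 1) / (s + 3) := by
      have : (((I1 s).card : ℝ) - 1) / (s + 3) ≤ (I2 s).card / (s + 3) := by
        gcongr
        linarith
      linarith
    refine h5.trans ?_
    rw [div_sub_div _ _ (by positivity) (by positivity), div_le_div_iff₀ (by positivity) (by positivity)]
    nlinarith

/-- the numerical bound -/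
theorem log_step (s : ℕ) (hs : 1 ≤ s) : Real.log ((s : ℝ) + 1) - Real.log s ≤
    (1 / (s : ℝ) + 1 / ((s : ℝ) + 1)) / 2 := by
  have hs0 : (0 : ℝ) < s := by exact_mod_cast hs
  rw [← Real.log_div (by positivity) (by positivity)]
  set x : ℝ := ((s : ℝ) + 1) / s with hx
  have hx1 : 1 ≤ x := by
    rw [hx, le_div_iff₀ hs0]
    linarith
  have h1 : Real.log x ≤ Real.sinh (Real.log x) := Real.self_le_sinh_iff.2 (Real.log_nonneg hx1)
  rw [Real.sinh_log (by positivity)] at h1
  refine h1.trans (le_of_eq ?_)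
  rw [hx]
  field_simp
  ring

theorem cst_tail (N : ℕ) (hN : 7 ≤ N) : cst N ≤ cst 7 + (1 / 16 + 1 / 6) -
    (1 / (2 * ((N : ℝ) + 1)) + 3 / (2 * ((N : ℝ) + 2))) := by
  induction N, hN using Nat.le_induction with
  | base => norm_num
  | succ N hN ih =>
    have h1 : cst (N + 1) = cst N +
        (Real.log ((N : ℝ) + 2) - Real.log ((N : ℝ) + 1)) * (2 / ((N : ℝ) + 3)) := by
      unfold cst
      rw [Finset.sum_range_succ]
    have h2 := log_step (N + 1) (by omega)
    push_cast at h2
    rw [show (N : ℝ) + 1 + 1 = N + 2 by ring] at h2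
    have h3 : (Real.log ((N : ℝ) + 2) - Real.log ((N : ℝ) + 1)) * (2 / ((N : ℝ) + 3)) ≤
        ((1 / ((N : ℝ) + 1) + 1 / ((N : ℝ) + 2)) / 2) * (2 / ((N : ℝ) + 3)) := by
      gcongr
    have h4 : ((1 / ((N : ℝ) + 1) + 1 / ((N : ℝ) + 2)) / 2) * (2 / ((N : ℝ) + 3)) =
        (1 / (2 * ((N : ℝ) + 1)) + 3 / (2 * ((N : ℝ) + 2))) -
          (1 / (2 * ((N : ℝ) + 2)) + 3 / (2 * ((N : ℝ) + 3))) := by
      field_simp
      ring
    rw [h1]
    push_cast
    rw [show (N : ℝ) + 1 + 1 = N + 2 by ring, show (N : ℝ) + 1 + 2 = N + 3 by ring]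
    linarith

theorem cst_mono {a b : ℕ} (h : a ≤ b) : cst a ≤ cst b := by
  unfold cst
  refine Finset.sum_le_sum_of_subset_of_nonneg (Finset.range_subset_range.2 h) fun s _ _ => ?_
  refine mul_nonneg (sub_nonneg.2 (Real.log_le_log (by positivity) (by linarith))) (by positivity)

theorem pow_log {a b : ℕ} {c d : ℕ} (ha : 0 < a) (h : a ^ c ≤ b ^ d) :
    (c : ℝ) * Real.log a ≤ d * Real.log b := by
  rw [← Real.log_pow, ← Real.log_pow]
  exact Real.log_le_log (by positivity) (by exact_mod_cast h)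

theorem cst_seven : cst 7 + (1 / 16 + 1 / 6) ≤ Real.log (10 / 3) := by
  have h2 := Real.log_two_lt_d9
  have h2' := Real.log_two_gt_d9
  have h3 : (147 : ℝ) * Real.log 3 ≤ 233 * Real.log 2 := by
    have := pow_log (a := 3) (b := 2) (c := 147) (d := 233) (by norm_num) (by norm_num)
    push_cast at this
    exact this
  have h5 : (202 : ℝ) * Real.log 2 ≤ 87 * Real.log 5 := by
    have := pow_log (a := 2) (b := 5) (c := 202) (d := 87) (by norm_num) (by norm_num)
    push_cast at this
    exact this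
  have h7 : (26 : ℝ) * Real.log 7 ≤ 73 * Real.log 2 := by
    have := pow_log (a := 7) (b := 2) (c := 26) (d := 73) (by norm_num) (by norm_num)
    push_cast at this
    exact this
  have e4 : Real.log 4 = 2 * Real.log 2 := by
    rw [show (4 : ℝ) = 2 ^ 2 by norm_num, Real.log_pow]; push_cast; ring
  have e8 : Real.log 8 = 3 * Real.log 2 := by
    rw [show (8 : ℝ) = 2 ^ 3 by norm_num, Real.log_pow]; push_cast; ring
  have e6 : Real.log 6 = Real.log 2 + Real.log 3 := by
    rw [show (6 : ℝ) = 2 * 3 by norm_num, Real.log_mul (by norm_num) (by norm_num)]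
  have e10 : Real.log (10 / 3) = Real.log 2 + Real.log 5 - Real.log 3 := by
    rw [Real.log_div (by norm_num) (by norm_num), show (10 : ℝ) = 2 * 5 by norm_num,
      Real.log_mul (by norm_num) (by norm_num)]
  rw [e10]
  unfold cst
  simp only [Finset.sum_range_succ, Finset.sum_range_zero]
  norm_num
  rw [e4, e6, e8]
  linarith

theorem cst_le (N : ℕ) : cst N ≤ Real.log (10 / 3) := by
  have h1 : cst N ≤ cst (max N 7) := cst_mono (le_max_left _ _)
  have h2 := cst_tail (max N 7) (le_max_right _ _)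
  have h3 : (0 : ℝ) ≤ 1 / (2 * (((max N 7 : ℕ) : ℝ) + 1)) + 3 / (2 * (((max N 7 : ℕ) : ℝ) + 2)) := by positivity
  have h4 := cst_seven
  linarith

variable {P Q : α → α → ℕ}

/-- every family of stable matchings has at most `(10/3)^n` members -/
theorem card_le (hP : ∀ m, Function.Injective (P m)) (hQ : ∀ w, Function.Injective (Q w))
    (S : Finset (Equiv.Perm α)) (hS : ∀ s ∈ S, Stb P Q s) :
    (S.card : ℝ) ≤ (10 / 3 : ℝ) ^ Fintype.card α := by
  have hinj : Function.Injective (fun t : Equiv.Perm α => (t : α → α)) := DFunLike.coe_injective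
  rw [← Finset.card_image_of_injective S hinj]
  have h0 : (10 / 3 : ℝ) ^ Fintype.card α = Real.exp (Fintype.card α * Real.log (10 / 3)) := by
    rw [mul_comm, Real.exp_mul, Real.exp_log (by norm_num), Real.rpow_natCast]
  rw [h0]
  refine card_le_exp _ _ fun g hg => ?_
  obtain ⟨s, hs, rfl⟩ := Finset.mem_image.1 hg
  have h1 : ∀ m : α, ∃ f e : Finset α → ℝ, IsE m f e ∧
      (∀ V, m ∈ V → Real.log (cand (S.image (fun t : Equiv.Perm α => (t : α → α))) s m V) ≤ f V) ∧
      e Finset.univ ≤ Real.log (10 / 3) := by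
    intro m
    obtain ⟨p, q, X, Y, hX, hY, hX0, hY0, hXY, hc⟩ := cand_le hP hQ S hS s hs m
    obtain ⟨f, e, hE, hf, he⟩ := exp_log m p q X Y hX hY hX0 hY0 hXY
    refine ⟨f, e, hE, fun V hV => ?_, he.trans (cst_le _)⟩
    rw [← hf V hV]
    refine Real.log_le_log ?_ ?_
    · have : 0 < cand (S.image (fun t : Equiv.Perm α => (t : α → α))) s m V := by
        unfold cand
        refine Finset.card_pos.2 ⟨s m, Finset.mem_image.2 ⟨s, cls_self V hg, rfl⟩⟩
      exact_mod_cast this
    · exact_mod_cast hc V hV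
  choose f e hE hf he using h1
  refine (gg_le _ f e hE hf (Fintype.card α) Finset.univ rfl).trans ?_
  refine (Finset.sum_le_sum fun m _ => he m).trans (le_of_eq ?_)
  rw [Finset.sum_const, nsmul_eq_mul]
  rfl

end SMB
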