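import Pool.Agent.Lib.MP_c91ad1_co.SlChk

set_option autoImplicit false

namespace SL

theorem k4 : ∀ cb ∈ [2, 3, 4], ∀ j ∈ [1, 2, 3], j < cb → ∀ p ∈ [1, 2, 3],
    go 4 (ew 4 4 * ew 4 cb * ew 4 4 * ew 4 4) ord4 (cp [4, cb, 4, 4])
      [(p - 1, 3 + (j - 1)), (7, if p = 1 then 1 else 0), (10, if p = 3 then 1 else 2)] [] = true := by
  decide +kernel

/-! ### lists of length at most three -/

theorem m2 : ∀ ca ∈ [2, 3], ∀ cb ∈ [2, 3], (ca = 3 ∨ cb = 3) → ∀ i ∈ [1, 2], ∀ j ∈ [1, 2],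
    i < ca → j < cb →
    go 2 (ew 3 ca * ew 3 cb) ord2 (cp [ca, cb]) [(i - 1, 3 + (j - 1))] [] = true := by decide +kernel

theorem m3 : ∀ ca ∈ [2, 3], ∀ cb ∈ [2, 3], (ca = 3 ∨ cb = 3) → ∀ i ∈ [1, 2], ∀ j ∈ [1, 2],
    ∀ k ∈ [1, 2], i < ca → j < cb → k < ca →
    go 3 (ew 3 ca * ew 3 cb * ew 3 3) ord3 (cp [ca, cb, 3])
      [(i - 1, 3 + (j - 1)), (6, k - 1)] [] = true := by decide +kernel

end SL
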