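import Pool.Agent.Lib.MP_c91ad1_co.SlR5
import Pool.Agent.Lib.MP_c91ad1_co.SlChk4

/-!
# The bounds for the blocks
-/

set_option autoImplicit false

namespace SL

open Finset

variable {α : Type*}

theorem Lq.symm {S : Finset (α → ℕ)} {a b : α} {i j : ℕ} (h : Lq S a i b j) : Lq S b j a i :=
  fun s hs => (h s hs).symm

theorem Lq.trans {S : Finset (α → ℕ)} {a b d : α} {i j k : ℕ} (h : Lq S a i b j) (h' : Lq S b j d k) :
    Lq S a i d k :=
  fun s hs => (h s hs).trans (h' s hs)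

/-- good pairs for lists of length at most four -/
def Adj4 (S : Finset (α → ℕ)) (c : α → ℕ) (a b : α) : Prop :=
  a ≠ b ∧ (c a = 4 ∨ c b = 4) ∧
    ((∃ i j, 1 ≤ i ∧ i < c a ∧ 1 ≤ j ∧ j < c b ∧ nb i j = true ∧ Lq S a i b j) ∨
     (∃ i, (i = 1 ∨ i = 3) ∧ i < c a ∧ i < c b ∧ Lq S a i b i ∧
        ∃ x, x ≠ a ∧ x ≠ b ∧ ∃ j, 1 ≤ j ∧ j ≤ 3 ∧ Lq S a i x j) ∨
     (c a = 4 ∧ c b = 4 ∧ Lq S a 1 b 1 ∧ Lq S a 3 b 3))

/-- good pairs for lists of length at most three -/
def Adj3 (S : Finset (α → ℕ)) (c : α → ℕ) (a b : α) : Prop :=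
  a ≠ b ∧ (c a = 3 ∨ c b = 3) ∧ ∃ i j, 1 ≤ i ∧ i < c a ∧ 1 ≤ j ∧ j < c b ∧ Lq S a i b j

theorem nb_comm (i j : ℕ) : nb i j = nb j i := by
  unfold nb
  cases h1 : Nat.beq i 1 <;> cases h2 : Nat.beq j 1 <;> cases h3 : Nat.beq i 3 <;>
    cases h4 : Nat.beq j 3 <;> rfl

theorem Adj4.symm {S : Finset (α → ℕ)} {c : α → ℕ} {a b : α} (h : Adj4 S c a b) : Adj4 S c b a := by
  obtain ⟨h1, h2, h3⟩ := h
  refine ⟨h1.symm, h2.symm, ?_⟩
  rcases h3 with ⟨i, j, h3, h4, h5, h6, h7, h8⟩ | ⟨i, h3, h4, h5, h6, x, h7, h8, j, h9, h10, h11⟩ |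
    ⟨h3, h4, h5, h6⟩
  · exact Or.inl ⟨j, i, h5, h6, h3, h4, by rw [nb_comm]; exact h7, h8.symm⟩
  · exact Or.inr (Or.inl ⟨i, h3, h5, h4, h6.symm, x, h8, h7, j, h9, h10, h6.symm.trans h11⟩)
  · exact Or.inr (Or.inr ⟨h4, h3, h5.symm, h6.symm⟩)

theorem Adj3.symm {S : Finset (α → ℕ)} {c : α → ℕ} {a b : α} (h : Adj3 S c a b) : Adj3 S c b a := by
  obtain ⟨h1, h2, i, j, h3, h4, h5, h6, h8⟩ := h
  exact ⟨h1.symm, h2.symm, j, i, h5, h6, h3, h4, h8.symm⟩

section
variable [Fintype α] [DecidableEq α] {S : Finset (α → ℕ)} {c : α → ℕ}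

/-- `link` for a list of men -/
theorem lnk (h : Sys S c) (l : List α) (d : α) (hl : l.length ≤ 4) (hn : l.Nodup) (P : ℕ)
    (ls : List ℕ) (hls : ∀ x ∈ ls, x < 3 * l.length) (E : List (ℕ × ℕ)) (F : List ℕ)
    (hE : ∀ e ∈ E, ∃ p i q j, e = (3 * p + (i - 1), 3 * q + (j - 1)) ∧ p < l.length ∧ q < l.length ∧
      1 ≤ i ∧ i ≤ 3 ∧ 1 ≤ j ∧ j ≤ 3 ∧ Lq S (l.getD p d) i (l.getD q d) j)
    (hF : ∀ x ∈ F, ∃ p i, x = 3 * p + (i - 1) ∧ p < l.length ∧ 1 ≤ i ∧ i ≤ 3 ∧
      Agr S l.toFinset (l.getD p d) i)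
    (hs : go l.length P ls (cp (l.map c)) E F = true) : QK S l.toFinset ^ 2 ≤ P := by
  refine link h l.length P hl (fun p => l.getD p d) l.toFinset ?_ ?_ (cp (l.map c)) ?_ ?_ ls hls E F
    ?_ ?_ hs
  · intro a
    rw [List.mem_toFinset, List.mem_iff_getElem]
    constructor
    · rintro ⟨p, hp, rfl⟩
      exact ⟨p, hp, by simp [List.getD_eq_getElem?_getD, hp]⟩
    · rintro ⟨p, hp, rfl⟩
      exact ⟨p, hp, by simp [List.getD_eq_getElem?_getD, hp]⟩
  · intro p hp q hq hpq
    simp only [List.getD_eq_getElem?_getD, hp, hq, List.getElem?_eq_getElem, Option.getD_some] at hpq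
    exact (List.Nodup.getElem_inj_iff hn).1 hpq
  · intro p hp
    simp [cp, List.getD_eq_getElem?_getD, hp]
  · intro p hp
    simp [cp, List.getD_eq_getElem?_getD, hp]
  · intro e he
    obtain ⟨p, i, q, j, rfl, hp, hq, h1, h2, h3, h4, h5⟩ := hE e he
    have e1 : (3 * p + (i - 1)) / 3 = p := by omega
    have e2 : (3 * p + (i - 1)) % 3 + 1 = i := by omega
    have e3 : (3 * q + (j - 1)) / 3 = q := by omega
    have e4 : (3 * q + (j - 1)) % 3 + 1 = j := by omega
    dsimp only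
    rw [e1, e2, e3, e4]
    exact ⟨by omega, by omega, h5⟩
  · intro x hx
    obtain ⟨p, i, rfl, hp, h1, h2, h3⟩ := hF x hx
    have e1 : (3 * p + (i - 1)) / 3 = p := by omega
    have e2 : (3 * p + (i - 1)) % 3 + 1 = i := by omega
    rw [e1, e2]
    exact ⟨by omega, h3⟩

theorem mem234 {n : ℕ} (h1 : 1 < n) (h4 : n ≤ 4) : n ∈ [2, 3, 4] := by
  have : n = 2 ∨ n = 3 ∨ n = 4 := by omega
  rcases this with rfl | rfl | rfl <;> simp

theorem mem123 {n : ℕ} (h1 : 1 ≤ n) (h4 : n < 4) : n ∈ [1, 2, 3] := by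
  have : n = 1 ∨ n = 2 ∨ n = 3 := by omega
  rcases this with rfl | rfl | rfl <;> simp

theorem mem23 {n : ℕ} (h1 : 1 < n) (h4 : n ≤ 3) : n ∈ [2, 3] := by
  have : n = 2 ∨ n = 3 := by omega
  rcases this with rfl | rfl <;> simp

theorem mem12 {n : ℕ} (h1 : 1 ≤ n) (h4 : n < 3) : n ∈ [1, 2] := by
  have : n = 1 ∨ n = 2 := by omega
  rcases this with rfl | rfl <;> simp

/-- one man -/
theorem blk1 (h : Sys S c) (x : α) (hx : 1 ≤ c x) : QK S {x} ^ 2 ≤ c x ^ 2 := by
  have key : ∀ n ∈ [1, 2, 3, 4], go 1 (n ^ 2) [0, 1, 2] (cp [n]) [] [] = true := by decide +kernel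
  have hm : c x ∈ [1, 2, 3, 4] := by
    have h4 := h.le4 x
    have : c x = 1 ∨ c x = 2 ∨ c x = 3 ∨ c x = 4 := by omega
    rcases this with e | e | e | e <;> simp [e]
  have := lnk h [x] x (by simp) (by simp) (c x ^ 2) [0, 1, 2] (by simp) [] [] (by simp) (by simp)
    (key _ hm)
  simpa using this

/-- two men -/
theorem blk2 (h : Sys S c) {a b : α} (hab : Adj4 S c a b) :
    QK S {a, b} ^ 2 ≤ ew 4 (c a) * ew 4 (c b) := by
  obtain ⟨hne, h4, h3⟩ := hab
  have ha := h.le4 a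
  have hb := h.le4 b
  have hls : ∀ x ∈ ord2, x < 3 * [a, b].length := by
    intro x hx
    simp [ord2] at hx ⊢
    omega
  have hfin : ({a, b} : Finset α) = [a, b].toFinset := by simp
  rw [hfin]
  rcases h3 with ⟨i, j, h3, h5, h6, h7, h8, h9⟩ | ⟨i, h3, h5, h6, h7, x, h8, h9, j, h10, h11, h12⟩ |
    ⟨h3, h5, h6, h7⟩
  · refine lnk h [a, b] a (by simp) (by simpa using hne) _ ord2 hls _ [] ?_ (by simp)
      (k2a (c a) (mem234 (by omega) ha) (c b) (mem234 (by omega) hb) h4 i (mem123 h3 (by omega)) j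
        (mem123 h6 (by omega)) h5 h7 h8)
    intro e he
    rw [List.mem_singleton] at he
    subst he
    exact ⟨0, i, 1, j, by simp, by simp, by simp, h3, by omega, h6, by omega, h9⟩
  · refine lnk h [a, b] a (by simp) (by simpa using hne) _ ord2 hls _ _ ?_ ?_
      (k2b (c a) (mem234 (by omega) ha) (c b) (mem234 (by omega) hb) h4 i (by simpa using h3) h5 h6)
    · intro e he
      rw [List.mem_singleton] at he
      subst he
      exact ⟨0, i, 1, i, by simp, by simp, by simp, by omega, by omega, by omega, by omega, h7⟩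
    · intro e he
      rw [List.mem_singleton] at he
      subst he
      refine ⟨0, i, by simp, by simp, by omega, by omega, Or.inr ⟨x, ?_, j, h10, h11, h12⟩⟩
      simp [h8, h9]
  · rw [h3, h5]
    refine lnk h [a, b] a (by simp) (by simpa using hne) _ ord2 hls [(0, 3), (2, 5)] [] ?_ (by simp) ?_
    · intro e he
      simp only [List.mem_cons, List.not_mem_nil, or_false] at he
      rcases he with rfl | rfl
      · exact ⟨0, 1, 1, 1, by simp, by simp, by simp, by omega, by omega, by omega, by omega, h6⟩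
      · exact ⟨0, 3, 1, 3, by simp, by simp, by simp, by omega, by omega, by omega, by omega, h7⟩
    · simpa [h3, h5] using k2c

/-- three men -/
theorem blk3 (h : Sys S c) {a b u : α} (hab : Adj4 S c a b) (hua : u ≠ a) (hub : u ≠ b) (hu : c u = 4)
    {k : ℕ} (hk : 1 ≤ k) (hk' : k < c a) (hatt : Lq S u 2 a k) :
    QK S {a, b, u} ^ 2 ≤ ew 4 (c a) * ew 4 (c b) * ew 4 (c u) := by
  obtain ⟨hne, h4, h3⟩ := hab
  have ha := h.le4 a
  have hb := h.le4 b
  have hnd : [a, b, u].Nodup := by simp [hne, hua.symm, hub.symm]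
  have hls : ∀ x ∈ ord3, x < 3 * [a, b, u].length := by
    intro x hx
    simp [ord3] at hx ⊢
    omega
  have hfin : ({a, b, u} : Finset α) = [a, b, u].toFinset := by simp
  have hE : ∀ i j, 1 ≤ i → i < 4 → 1 ≤ j → j < 4 → Lq S a i b j →
      ∃ p i' q j', (i - 1, 3 + (j - 1)) = ((3 * p + (i' - 1), 3 * q + (j' - 1)) : ℕ × ℕ) ∧
        p < [a, b, u].length ∧ q < [a, b, u].length ∧ 1 ≤ i' ∧ i' ≤ 3 ∧ 1 ≤ j' ∧ j' ≤ 3 ∧
        Lq S ([a, b, u].getD p a) i' ([a, b, u].getD q a) j' := by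
    intro i j h1 h2 h5 h6 h7
    exact ⟨0, i, 1, j, by simp, by simp, by simp, h1, by omega, h5, by omega, h7⟩
  have hK : ∃ p i' q j', (7, k - 1) = ((3 * p + (i' - 1), 3 * q + (j' - 1)) : ℕ × ℕ) ∧
        p < [a, b, u].length ∧ q < [a, b, u].length ∧ 1 ≤ i' ∧ i' ≤ 3 ∧ 1 ≤ j' ∧ j' ≤ 3 ∧
        Lq S ([a, b, u].getD p a) i' ([a, b, u].getD q a) j' :=
    ⟨2, 2, 0, k, by simp, by simp, by simp, by omega, by omega, hk, by omega, hatt⟩
  rw [hfin, hu]
  rcases h3 with ⟨i, j, h3, h5, h6, h7, h8, h9⟩ | ⟨i, h3, h5, h6, h7, x, h8, h9, j, h10, h11, h12⟩ |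
    ⟨h3, h5, h6, h7⟩
  · refine lnk h [a, b, u] a (by simp) hnd _ ord3 hls [(i - 1, 3 + (j - 1)), (7, k - 1)] [] ?_
      (by simp) ?_
    · intro e he
      simp only [List.mem_cons, List.not_mem_nil, or_false] at he
      rcases he with rfl | rfl
      · exact hE i j h3 (by omega) h6 (by omega) h9
      · exact hK
    · have := k3a (c a) (mem234 (by omega) ha) (c b) (mem234 (by omega) hb) h4 i
        (mem123 h3 (by omega)) j (mem123 h6 (by omega)) k (mem123 hk (by omega)) h5 h7 hk' h8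
      simpa [hu] using this
  · by_cases hxu : x = u
    · subst hxu
      refine lnk h [a, b, x] a (by simp) hnd _ ord3 hls
        [(i - 1, 3 + (i - 1)), (7, k - 1), (i - 1, 6 + (j - 1))] [] ?_ (by simp) ?_
      · intro e he
        simp only [List.mem_cons, List.not_mem_nil, or_false] at he
        rcases he with rfl | rfl | rfl
        · exact hE i i (by omega) (by omega) (by omega) (by omega) h7
        · exact hK
        · exact ⟨0, i, 2, j, by simp, by simp, by simp, by omega, by omega, by omega, by omega, h12⟩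
      · have := k3b' (c a) (mem234 (by omega) ha) (c b) (mem234 (by omega) hb) h4 i
          (by simpa using h3) k (mem123 hk (by omega)) j (mem123 h10 (by omega)) h5 h6 hk'
        simpa [hu] using this
    · refine lnk h [a, b, u] a (by simp) hnd _ ord3 hls
        [(i - 1, 3 + (i - 1)), (7, k - 1)] [i - 1] ?_ ?_ ?_
      · intro e he
        simp only [List.mem_cons, List.not_mem_nil, or_false] at he
        rcases he with rfl | rfl
        · exact hE i i (by omega) (by omega) (by omega) (by omega) h7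
        · exact hK
      · intro e he
        rw [List.mem_singleton] at he
        subst he
        refine ⟨0, i, by simp, by simp, by omega, by omega, Or.inr ⟨x, ?_, j, h10, h11, h12⟩⟩
        simp [h8, h9, hxu]
      · have := k3b (c a) (mem234 (by omega) ha) (c b) (mem234 (by omega) hb) h4 i
          (by simpa using h3) k (mem123 hk (by omega)) h5 h6 hk'
        simpa [hu] using this
  · rw [h3, h5]
    refine lnk h [a, b, u] a (by simp) hnd _ ord3 hls [(0, 3), (2, 5), (7, k - 1)] [] ?_ (by simp) ?_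
    · intro e he
      simp only [List.mem_cons, List.not_mem_nil, or_false] at he
      rcases he with rfl | rfl | rfl
      · exact ⟨0, 1, 1, 1, by simp, by simp, by simp, by omega, by omega, by omega, by omega, h6⟩
      · exact ⟨0, 3, 1, 3, by simp, by simp, by simp, by omega, by omega, by omega, by omega, h7⟩
      · exact hK
    · simpa [h3, h5, hu] using k3c k (mem123 hk (by omega))

/-- four men -/
theorem blk4 (h : Sys S c) {a b u v : α} (hab : a ≠ b) (hua : u ≠ a) (hub : u ≠ b) (hva : v ≠ a)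
    (hvb : v ≠ b) (huv : u ≠ v) {p j k k' : ℕ} (hp : 1 ≤ p) (hp' : p < c a) (hj : 1 ≤ j)
    (hj' : j < c b) (hl : Lq S a p b j) (hu : c u = 4) (hv : c v = 4) (hk : 1 ≤ k)
    (hk' : k < k') (hk'' : k' < c a) (hpk : p ≠ k) (hpk' : p ≠ k') (h1 : Lq S u 2 a k)
    (h2 : Lq S v 2 a k') :
    QK S {a, b, u, v} ^ 2 ≤ ew 4 (c a) * ew 4 (c b) * ew 4 (c u) * ew 4 (c v) := by
  have ha := h.le4 a
  have hb := h.le4 b
  have hca : c a = 4 := by omega
  have hnd : [a, b, u, v].Nodup := by simp [hab, hua.symm, hub.symm, hva.symm, hvb.symm, huv]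
  have hls : ∀ x ∈ ord4, x < 3 * [a, b, u, v].length := by
    intro x hx
    simp [ord4] at hx ⊢
    omega
  have hfin : ({a, b, u, v} : Finset α) = [a, b, u, v].toFinset := by simp
  have hkp : k = if p = 1 then 2 else 1 := by
    split_ifs <;> omega
  have hkp' : k' = if p = 3 then 2 else 3 := by
    split_ifs <;> omega
  rw [hfin, hu, hv, hca]
  refine lnk h [a, b, u, v] a (by simp) hnd _ ord4 hls
    [(p - 1, 3 + (j - 1)), (7, if p = 1 then 1 else 0), (10, if p = 3 then 1 else 2)] [] ?_ (by simp) ?_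
  · intro e he
    simp only [List.mem_cons, List.not_mem_nil, or_false] at he
    rcases he with rfl | rfl | rfl
    · exact ⟨0, p, 1, j, by simp, by simp, by simp, hp, by omega, hj, by omega, hl⟩
    · refine ⟨2, 2, 0, k, ?_, by simp, by simp, by omega, by omega, hk, by omega, h1⟩
      rw [hkp]
      split_ifs <;> simp
    · refine ⟨3, 2, 0, k', ?_, by simp, by simp, by omega, by omega, by omega, by omega, h2⟩
      rw [hkp']
      split_ifs <;> simp
  · have := k4 (c b) (mem234 (by omega) hb) j (mem123 hj (by omega)) hj' p (mem123 hp (by omega))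
    simpa [hu, hv, hca] using this

/-- two men, lists of length at most three -/
theorem blk2' (h : Sys S c) (h3 : ∀ a, c a ≤ 3) {a b : α} (hab : Adj3 S c a b) :
    QK S {a, b} ^ 2 ≤ ew 3 (c a) * ew 3 (c b) := by
  obtain ⟨hne, h4, i, j, h5, h6, h7, h8, h9⟩ := hab
  have ha := h3 a
  have hb := h3 b
  have hls : ∀ x ∈ ord2, x < 3 * [a, b].length := by
    intro x hx
    simp [ord2] at hx ⊢
    omega
  have hfin : ({a, b} : Finset α) = [a, b].toFinset := by simp
  rw [hfin]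
  refine lnk h [a, b] a (by simp) (by simpa using hne) _ ord2 hls _ [] ?_ (by simp)
    (m2 (c a) (mem23 (by omega) ha) (c b) (mem23 (by omega) hb) h4 i (mem12 h5 (by omega)) j
      (mem12 h7 (by omega)) h6 h8)
  intro e he
  rw [List.mem_singleton] at he
  subst he
  exact ⟨0, i, 1, j, by simp, by simp, by simp, h5, by omega, h7, by omega, h9⟩

/-- three men, lists of length at most three -/
theorem blk3' (h : Sys S c) (h3 : ∀ a, c a ≤ 3) {a b u : α} (hab : Adj3 S c a b) (hua : u ≠ a)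
    (hub : u ≠ b) (hu : c u = 3) {k : ℕ} (hk : 1 ≤ k) (hk' : k < c a) (hatt : Lq S u 1 a k) :
    QK S {a, b, u} ^ 2 ≤ ew 3 (c a) * ew 3 (c b) * ew 3 (c u) := by
  obtain ⟨hne, h4, i, j, h5, h6, h7, h8, h9⟩ := hab
  have ha := h3 a
  have hb := h3 b
  have hnd : [a, b, u].Nodup := by simp [hne, hua.symm, hub.symm]
  have hls : ∀ x ∈ ord3, x < 3 * [a, b, u].length := by
    intro x hx
    simp [ord3] at hx ⊢
    omega
  have hfin : ({a, b, u} : Finset α) = [a, b, u].toFinset := by simp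
  rw [hfin, hu]
  refine lnk h [a, b, u] a (by simp) hnd _ ord3 hls [(i - 1, 3 + (j - 1)), (6, k - 1)] [] ?_
      (by simp) ?_
  · intro e he
    simp only [List.mem_cons, List.not_mem_nil, or_false] at he
    rcases he with rfl | rfl
    · exact ⟨0, i, 1, j, by simp, by simp, by simp, h5, by omega, h7, by omega, h9⟩
    · exact ⟨2, 1, 0, k, by simp, by simp, by simp, by omega, by omega, hk, by omega, hatt⟩
  · have := m3 (c a) (mem23 (by omega) ha) (c b) (mem23 (by omega) hb) h4 i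
      (mem12 h5 (by omega)) j (mem12 h7 (by omega)) k (mem12 hk (by omega)) h6 h8 hk'
    simpa [hu] using this

end

end SL
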