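import Pool.Agent.Lib.MP_c91ad1_co.SlDefs

/-!
# The finite checks
-/

set_option autoImplicit false

namespace SL

/-- orders of the legs -/
def ord2 : List ℕ := [0, 1, 2, 3, 4, 5]

def ord3 : List ℕ := [0, 5, 3, 2, 7, 6, 8, 4, 1]

def ord4 : List ℕ := [1, 5, 3, 9, 8, 4, 7, 6, 11, 0, 10, 2]

/-- is `(i, j)` not one of the two bad types? -/
def nb (i j : ℕ) : Bool := !((Nat.beq i 1 && Nat.beq j 1) || (Nat.beq i 3 && Nat.beq j 3))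

theorem k2a : ∀ ca ∈ [2, 3, 4], ∀ cb ∈ [2, 3, 4], (ca = 4 ∨ cb = 4) → ∀ i ∈ [1, 2, 3], ∀ j ∈ [1, 2, 3],
    i < ca → j < cb → nb i j = true →
    go 2 (ew 4 ca * ew 4 cb) ord2 (cp [ca, cb]) [(i - 1, 3 + (j - 1))] [] = true := by decide +kernel

theorem k2b : ∀ ca ∈ [2, 3, 4], ∀ cb ∈ [2, 3, 4], (ca = 4 ∨ cb = 4) → ∀ i ∈ [1, 3],
    i < ca → i < cb →
    go 2 (ew 4 ca * ew 4 cb) ord2 (cp [ca, cb]) [(i - 1, 3 + (i - 1))] [i - 1] = true := by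
  decide +kernel

theorem k2c : go 2 (ew 4 4 * ew 4 4) ord2 (cp [4, 4]) [(0, 3), (2, 5)] [] = true := by decide +kernel

theorem k3a : ∀ ca ∈ [2, 3, 4], ∀ cb ∈ [2, 3, 4], (ca = 4 ∨ cb = 4) → ∀ i ∈ [1, 2, 3], ∀ j ∈ [1, 2, 3],
    ∀ k ∈ [1, 2, 3], i < ca → j < cb → k < ca → nb i j = true →
    go 3 (ew 4 ca * ew 4 cb * ew 4 4) ord3 (cp [ca, cb, 4])
      [(i - 1, 3 + (j - 1)), (7, k - 1)] [] = true := by decide +kernel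

theorem k3b : ∀ ca ∈ [2, 3, 4], ∀ cb ∈ [2, 3, 4], (ca = 4 ∨ cb = 4) → ∀ i ∈ [1, 3],
    ∀ k ∈ [1, 2, 3], i < ca → i < cb → k < ca →
    go 3 (ew 4 ca * ew 4 cb * ew 4 4) ord3 (cp [ca, cb, 4])
      [(i - 1, 3 + (i - 1)), (7, k - 1)] [i - 1] = true := by decide +kernel

theorem k3b' : ∀ ca ∈ [2, 3, 4], ∀ cb ∈ [2, 3, 4], (ca = 4 ∨ cb = 4) → ∀ i ∈ [1, 3],
    ∀ k ∈ [1, 2, 3], ∀ j ∈ [1, 2, 3], i < ca → i < cb → k < ca →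
    go 3 (ew 4 ca * ew 4 cb * ew 4 4) ord3 (cp [ca, cb, 4])
      [(i - 1, 3 + (i - 1)), (7, k - 1), (i - 1, 6 + (j - 1))] [] = true := by decide +kernel

theorem k3c : ∀ k ∈ [1, 2, 3], go 3 (ew 4 4 * ew 4 4 * ew 4 4) ord3 (cp [4, 4, 4])
    [(0, 3), (2, 5), (7, k - 1)] [] = true := by decide +kernel

end SL
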