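import Mathlib

/-!
# Height vectors, legs, blocks, and the search

A stable matching `s` is seen through its height vector: `s a` is the number of stable partners of the
man `a` that are better than his partner in `s`. The leg `(a, i)` is the function `i ≤ s a` of `s`.
-/

set_option autoImplicit false

namespace SL

open Finset

variable {α : Type*}

/-- the legs `(a, i)` and `(b, j)` are equal on `S` -/
def Lq (S : Finset (α → ℕ)) (a : α) (i : ℕ) (b : α) (j : ℕ) : Prop :=
  ∀ s ∈ S, (i ≤ s a ↔ j ≤ s b)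

/-- what we use about stable matchings; `c a` is the number of stable partners of `a` -/
structure Sys (S : Finset (α → ℕ)) (c : α → ℕ) : Prop where
  lt : ∀ s ∈ S, ∀ a, s a < c a
  le4 : ∀ a, c a ≤ 4
  att : ∀ a i, i < c a → ∃ s ∈ S, i ≤ s a
  a1 : ∀ a i, 1 ≤ i → i < c a → ∃ b, b ≠ a ∧ ∃ j, 1 ≤ j ∧ j < c b ∧ Lq S a i b j
  a2 : ∀ a b i j j', a ≠ b → 1 ≤ i → i + 1 < c a → 1 ≤ j → 1 ≤ j' → Lq S a i b j →
    Lq S a (i + 1) b j' →
    ∃ d, d ≠ a ∧ d ≠ b ∧ ∃ k, 1 ≤ k ∧ k < c d ∧ (Lq S a i d k ∨ Lq S a (i + 1) d k)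

/-- the leg `(a, i)` is constant, or it is equal to a leg of a man outside the block `K` -/
def Agr (S : Finset (α → ℕ)) (K : Finset α) (a : α) (i : ℕ) : Prop :=
  (∀ s ∈ S, s a < i) ∨ ∃ b, b ∉ K ∧ ∃ j, 1 ≤ j ∧ j ≤ 3 ∧ Lq S a i b j

open Classical in
/-- the restriction to the block `K` -/
noncomputable def msk (K : Finset α) (s : α → ℕ) : α → ℕ := fun a => if a ∈ K then s a else 0

open Classical in
/-- the number of pairs of restrictions to `K` that agree on the crossing legs -/
noncomputable def QK (S : Finset (α → ℕ)) (K : Finset α) : ℕ :=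
  (((S.image (msk K)) ×ˢ (S.image (msk K))).filter
    (fun p => ∀ a ∈ K, ∀ i, 1 ≤ i → i ≤ 3 → Agr S K a i → (i ≤ p.1 a ↔ i ≤ p.2 a))).card

/-- the weight -/
def ew (t l : ℕ) : ℕ := if l = t then 3 * t - 2 else l ^ 2

/-! ### The search: the leg `(p, i)` of the `p`-th man of a block is the number `3 * p + (i - 1)` -/

/-- the bit `l` of `m` -/
def bt (m l : ℕ) : ℕ := Nat.land (Nat.shiftRight m l) 1

/-- the states of the list whose bit `l` is `v` -/
def flb (v l : ℕ) : List ℕ → List ℕ
  | [] => []
  | x :: T => bif Nat.beq (bt x l) v then x :: flb v l T else flb v l T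

/-- the states of the list on which the legs `l` and `l'` are equal -/
def flt (l l' : ℕ) : List ℕ → List ℕ
  | [] => []
  | x :: T => bif Nat.beq (bt x l) (bt x l') then x :: flt l l' T else flt l l' T

/-- `cons`, without empty lists -/
def cns (T : List ℕ) (C : List (List ℕ)) : List (List ℕ) :=
  match T with
  | [] => C
  | x :: T' => (x :: T') :: C

/-- split all classes by the bit `l` -/
def spc (l : ℕ) : List (List ℕ) → List (List ℕ)
  | [] => []
  | T :: C => cns (flb 0 l T) (cns (flb 1 l T) (spc l C))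

/-- keep in all classes the states on which the legs `l` and `l'` are equal -/
def flc (l l' : ℕ) : List (List ℕ) → List (List ℕ)
  | [] => []
  | T :: C => cns (flt l l' T) (flc l l' C)

/-- the sum of the squares of the lengths of the classes -/
def qc : List (List ℕ) → ℕ
  | [] => 0
  | T :: C => Nat.add (Nat.mul T.length T.length) (qc C)

/-- is the number of pairs of states small enough? -/
def okc (P : ℕ) (C : List (List ℕ)) : Bool := Nat.ble (Nat.mul (qc C) (qc C)) P

/-- two consecutive legs of a man, known to be equal to legs of the same other man, and not known to be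
crossing, or to be equal to a leg of a third man -/
def pat (E : List (ℕ × ℕ)) (A : ℕ) (e e' : ℕ × ℕ) : Bool :=
  Nat.beq e'.1 (e.1 + 1) && Nat.ble (e.1 % 3) 1 && Nat.beq (e.2 / 3) (e'.2 / 3) &&
  !Nat.beq (e.1 / 3) (e.2 / 3) && Nat.beq (bt A e.1) 0 && Nat.beq (bt A e'.1) 0 &&
  E.all (fun d => !((Nat.beq d.1 e.1 || Nat.beq d.1 e'.1) && !Nat.beq (d.2 / 3) (e.1 / 3) &&
    !Nat.beq (d.2 / 3) (e.2 / 3)))

/-- both orders -/
def sy (E : List (ℕ × ℕ)) : List (ℕ × ℕ) := E ++ E.map Prod.swap

/-- the last part of the search: `E` is the list of the known equalities of legs, `A` the mask of the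
legs known to be crossing, `C` the list of the classes of states -/
def srb (k P : ℕ) : ℕ → List (ℕ × ℕ) → ℕ → List (List ℕ) → Bool
  | 0, _, _, _ => false
  | f + 1, E, A, C =>
    okc P C ||
    match ((sy E) ×ˢ (sy E)).find? (fun d => pat (sy E) A d.1 d.2) with
    | some d => srb k P f E (Nat.lor A (2 ^ d.1.1)) (spc d.1.1 C) &&
        srb k P f E (Nat.lor A (2 ^ d.2.1)) (spc d.2.1 C) &&
        (List.range (3 * k)).all (fun l' => Nat.beq (l' / 3) (d.1.1 / 3) ||
          Nat.beq (l' / 3) (d.1.2 / 3) ||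
          (srb k P f ((d.1.1, l') :: E) A (flc d.1.1 l' C) &&
            srb k P f ((d.2.1, l') :: E) A (flc d.2.1 l' C)))
    | none => false

/-- the search; the first list is the list of the legs to decide, `D` the mask of the decided legs -/
def srch (k P : ℕ) : List ℕ → List (ℕ × ℕ) → ℕ → ℕ → List (List ℕ) → Bool
  | [], E, A, _, C => srb k P 6 E A C
  | l :: r, E, A, D, C =>
    bif Nat.beq (bt D l) 1 then srch k P r E A D C else
    (okc P C ||
      (srch k P r E (Nat.lor A (2 ^ l)) (Nat.lor D (2 ^ l)) (spc l C) &&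
        (List.range (3 * k)).all (fun l' => Nat.beq (l' / 3) (l / 3) || Nat.beq (bt A l') 1 ||
          srch k P r ((l, l') :: E) A (Nat.lor D (Nat.lor (2 ^ l) (2 ^ l'))) (flc l l' C))))

/-- the state with heights `h0`, `h1`, `h2`, `h3` -/
def enc (h0 h1 h2 h3 : ℕ) : ℕ := (2 ^ h0 - 1) + 8 * (2 ^ h1 - 1) + 64 * (2 ^ h2 - 1) + 512 * (2 ^ h3 - 1)

/-- all states with heights below `c0`, `c1`, `c2`, `c3` -/
def sts (c0 c1 c2 c3 : ℕ) : List ℕ :=
  (List.range c0).flatMap fun h0 => (List.range c1).flatMap fun h1 =>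
    (List.range c2).flatMap fun h2 => (List.range c3).map fun h3 => enc h0 h1 h2 h3

/-- the mask of the legs that do not exist -/
def dmk (k : ℕ) (c : ℕ → ℕ) : ℕ :=
  (List.range (3 * k)).foldl (fun A l => if c (l / 3) ≤ l % 3 + 1 then Nat.lor A (2 ^ l) else A) 0

/-- the mask of the legs in the list -/
def lmk (E : List (ℕ × ℕ)) : ℕ := E.foldl (fun A e => Nat.lor A (Nat.lor (2 ^ e.1) (2 ^ e.2))) 0

/-- split the classes by the legs of the list -/
def spl (F : List ℕ) (C : List (List ℕ)) : List (List ℕ) := F.foldl (fun C l => spc l C) C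

/-- keep the states on which all equalities hold -/
def fle (E : List (ℕ × ℕ)) (C : List (List ℕ)) : List (List ℕ) := E.foldl (fun C e => flc e.1 e.2 C) C

/-- the start of the search for a block of `k` men with `c 0`, `c 1`, ... stable partners: `ls` is the list
of the legs to decide, `E` the list of known equalities, `F` the list of legs known to be crossing -/
def go (k P : ℕ) (ls : List ℕ) (c : ℕ → ℕ) (E : List (ℕ × ℕ)) (F : List ℕ) : Bool :=
  srch k P ls E (Nat.lor (dmk k c) (F.foldl (fun A l => Nat.lor A (2 ^ l)) 0))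
    (Nat.lor (dmk k c) (lmk E)) (spl F (fle E [sts (c 0) (c 1) (c 2) (c 3)]))

/-- caps -/
def cp (l : List ℕ) : ℕ → ℕ := fun p => l.getD p 1

end SL
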