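import Mathlib
import Pool.Agent.Lib.MP_c91ad1_co.Stable
import Pool.Agent.Lib.MP_c91ad1_co.SlDefs

set_option autoImplicit false

namespace SL

open Finset SMB

variable {α : Type*} [Fintype α] [DecidableEq α] {P Q : α → α → ℕ}

omit [Fintype α] [DecidableEq α] in
theorem sl1_meet (hP : ∀ m, Function.Injective (P m)) (hQ : ∀ w, Function.Injective (Q w))
    {s t : Equiv.Perm α} (hs : Stb P Q s) (ht : Stb P Q t) {m1 m2 : α}
    (h1 : P m1 (s m1) ≤ P m1 (t m1)) (h2 : P m2 (t m2) < P m2 (s m2)) (h : s m1 = t m2) : m1 = m2 := by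
  by_contra hne
  have h3 : P m1 (s m1) < P m1 (t m1) := by
    rcases lt_or_eq_of_le h1 with h4 | h4
    · exact h4
    · exact absurd (t.injective ((hP _ h4).symm.trans h)) hne
  have h5 := opp1 hQ hs h2
  have h6 := opp1 hQ ht h3
  have h7 : s.symm (t m2) = m1 := by rw [Equiv.symm_apply_eq, h]
  have h8 : t.symm (s m1) = m2 := by rw [Equiv.symm_apply_eq, h]
  rw [h7] at h5
  rw [h8, h] at h6
  exact lt_asymm h5 h6

theorem sl1_join (hP : ∀ m, Function.Injective (P m)) (hQ : ∀ w, Function.Injective (Q w))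
    {s t : Equiv.Perm α} (hs : Stb P Q s) (ht : Stb P Q t) {m1 m2 : α}
    (h1 : P m1 (s m1) ≤ P m1 (t m1)) (h2 : P m2 (t m2) < P m2 (s m2)) (h : t m1 = s m2) : m1 = m2 := by
  by_contra hne
  have h3 : P m1 (s m1) < P m1 (t m1) := by
    rcases lt_or_eq_of_le h1 with h4 | h4
    · exact h4
    · exact absurd (s.injective ((hP _ h4).trans h)) hne
  have h5 := opp2 hP hQ hs ht h2
  have h6 := opp2 hP hQ ht hs h3
  have h7 : t.symm (s m2) = m1 := by rw [Equiv.symm_apply_eq, h]
  have h8 : s.symm (t m1) = m2 := by rw [Equiv.symm_apply_eq, h]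
  rw [h7] at h5
  rw [h8, h] at h6
  exact lt_asymm h5 h6

/-- the best of two stable matchings for the men is a stable matching -/
theorem meet_stb (hP : ∀ m, Function.Injective (P m)) (hQ : ∀ w, Function.Injective (Q w))
    {s t : Equiv.Perm α} (hs : Stb P Q s) (ht : Stb P Q t) :
    ∃ u : Equiv.Perm α, Stb P Q u ∧ ∀ m, u m = if P m (s m) ≤ P m (t m) then s m else t m := by
  have hinj : Function.Injective (fun m => if P m (s m) ≤ P m (t m) then s m else t m) := by
    intro m1 m2 h
    have h' : (if P m1 (s m1) ≤ P m1 (t m1) then s m1 else t m1) =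
        if P m2 (s m2) ≤ P m2 (t m2) then s m2 else t m2 := h
    by_cases h1 : P m1 (s m1) ≤ P m1 (t m1) <;> by_cases h2 : P m2 (s m2) ≤ P m2 (t m2)
    · rw [if_pos h1, if_pos h2] at h'
      exact s.injective h'
    · rw [if_pos h1, if_neg h2] at h'
      exact sl1_meet hP hQ hs ht h1 (not_le.1 h2) h'
    · rw [if_neg h1, if_pos h2] at h'
      exact (sl1_meet hP hQ hs ht h2 (not_le.1 h1) h'.symm).symm
    · rw [if_neg h1, if_neg h2] at h'
      exact t.injective h'
  refine ⟨Equiv.ofBijective _ (Finite.injective_iff_bijective.1 hinj), ?_, fun m => rfl⟩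
  obtain ⟨u, hu⟩ : ∃ u : Equiv.Perm α, u = Equiv.ofBijective _ (Finite.injective_iff_bijective.1 hinj) := ⟨_, rfl⟩
  rw [← hu]
  have hum : ∀ m, u m = if P m (s m) ≤ P m (t m) then s m else t m := fun m => by rw [hu]; rfl
  intro m w hb
  obtain ⟨hb1, hb2⟩ := hb
  have h1 : P m (u m) ≤ P m (s m) ∧ P m (u m) ≤ P m (t m) := by
    rw [hum]
    split_ifs with h
    · exact ⟨le_rfl, h⟩
    · exact ⟨(not_le.1 h).le, le_rfl⟩
  have h2 : u (u.symm w) = w := u.apply_symm_apply w
  have h3 := hum (u.symm w)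
  rw [h2] at h3
  split_ifs at h3 with h
  · have h4 : s.symm w = u.symm w := by rw [Equiv.symm_apply_eq, ← h3]
    exact hs m w ⟨hb1.trans_le h1.1, by rw [h4]; exact hb2⟩
  · have h4 : t.symm w = u.symm w := by rw [Equiv.symm_apply_eq, ← h3]
    exact ht m w ⟨hb1.trans_le h1.2, by rw [h4]; exact hb2⟩

/-- the worst of two stable matchings for the men is a stable matching -/
theorem join_stb (hP : ∀ m, Function.Injective (P m)) (hQ : ∀ w, Function.Injective (Q w))
    {s t : Equiv.Perm α} (hs : Stb P Q s) (ht : Stb P Q t) :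
    ∃ u : Equiv.Perm α, Stb P Q u ∧ ∀ m, u m = if P m (s m) ≤ P m (t m) then t m else s m := by
  have hinj : Function.Injective (fun m => if P m (s m) ≤ P m (t m) then t m else s m) := by
    intro m1 m2 h
    have h' : (if P m1 (s m1) ≤ P m1 (t m1) then t m1 else s m1) =
        if P m2 (s m2) ≤ P m2 (t m2) then t m2 else s m2 := h
    by_cases h1 : P m1 (s m1) ≤ P m1 (t m1) <;> by_cases h2 : P m2 (s m2) ≤ P m2 (t m2)
    · rw [if_pos h1, if_pos h2] at h'
      exact t.injective h'
    · rw [if_pos h1, if_neg h2] at h'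
      exact sl1_join hP hQ hs ht h1 (not_le.1 h2) h'
    · rw [if_neg h1, if_pos h2] at h'
      exact (sl1_join hP hQ hs ht h2 (not_le.1 h1) h'.symm).symm
    · rw [if_neg h1, if_neg h2] at h'
      exact s.injective h'
  refine ⟨Equiv.ofBijective _ (Finite.injective_iff_bijective.1 hinj), ?_, fun m => rfl⟩
  obtain ⟨u, hu⟩ : ∃ u : Equiv.Perm α, u = Equiv.ofBijective _ (Finite.injective_iff_bijective.1 hinj) := ⟨_, rfl⟩
  rw [← hu]
  have hum : ∀ m, u m = if P m (s m) ≤ P m (t m) then t m else s m := fun m => by rw [hu]; rfl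
  intro m w hb
  obtain ⟨hb1, hb2⟩ := hb
  have h2 : u (u.symm w) = w := u.apply_symm_apply w
  have h3 := hum (u.symm w)
  rw [h2] at h3
  -- the woman `w` does not like her partner in `s` or in `t` better than her partner in `u`
  have h5 : Q w (u.symm w) ≤ Q w (s.symm w) ∧ Q w (u.symm w) ≤ Q w (t.symm w) := by
    split_ifs at h3 with h
    · have h4 : t.symm w = u.symm w := by rw [Equiv.symm_apply_eq, ← h3]
      refine ⟨?_, by rw [h4]⟩
      rcases lt_or_eq_of_le h with h6 | h6
      · have h7 := opp2 hP hQ ht hs h6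
        rw [← h3] at h7
        exact h7.le
      · have h7 : s (u.symm w) = t (u.symm w) := hP _ h6
        have h8 : s.symm w = u.symm w := by rw [Equiv.symm_apply_eq, h7, ← h3]
        rw [h8]
    · have h4 : s.symm w = u.symm w := by rw [Equiv.symm_apply_eq, ← h3]
      refine ⟨by rw [h4], ?_⟩
      have h7 := opp2 hP hQ hs ht (not_le.1 h)
      rw [← h3] at h7
      exact h7.le
  have h9 := hum m
  split_ifs at h9 with h
  · rw [h9] at hb1
    exact ht m w ⟨hb1, hb2.trans_le h5.2⟩
  · rw [h9] at hb1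
    exact hs m w ⟨hb1, hb2.trans_le h5.1⟩

end SL
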