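import Mathlib
import Pool.Agent.Lib.MP_c91ad1_co.SlR1

set_option autoImplicit false

namespace SL

open Finset SMB

variable {α : Type*} [Fintype α] [DecidableEq α] {P Q : α → α → ℕ}

open Classical in
/-- the finite set of the stable matchings -/
noncomputable def Sm (P Q : α → α → ℕ) : Finset (Equiv.Perm α) := univ.filter (fun s => Stb P Q s)

/-- the stable partners of `a` -/
noncomputable def Sp (P Q : α → α → ℕ) (a : α) : Finset α := (Sm P Q).image (fun s => s a)

/-- the height vector of `s` -/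
noncomputable def hv (P Q : α → α → ℕ) (s : Equiv.Perm α) (a : α) : ℕ :=
  ((Sp P Q a).filter (fun w => P a w < P a (s a))).card

theorem mem_Sm {s : Equiv.Perm α} : s ∈ Sm P Q ↔ Stb P Q s := by
  classical
  simp [Sm]

theorem sl2a_mem {s : Equiv.Perm α} (hs : s ∈ Sm P Q) (a : α) : s a ∈ Sp P Q a := by
  unfold Sp
  exact Finset.mem_image_of_mem _ hs

theorem sl2a_lt {s t : Equiv.Perm α} {a : α} (hs : s ∈ Sm P Q) (h : P a (s a) < P a (t a)) :
    hv P Q s a < hv P Q t a := by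
  unfold hv
  apply Finset.card_lt_card
  rw [Finset.ssubset_iff_of_subset]
  · exact ⟨s a, Finset.mem_filter.2 ⟨sl2a_mem hs a, h⟩, by simp⟩
  · intro w hw
    rw [Finset.mem_filter] at hw ⊢
    exact ⟨hw.1, hw.2.trans h⟩

theorem sl2a_congr {s t : Equiv.Perm α} {a : α} (h : s a = t a) : hv P Q s a = hv P Q t a := by
  unfold hv
  rw [h]

theorem hv_le_iff {s t : Equiv.Perm α} (hs : s ∈ Sm P Q) (ht : t ∈ Sm P Q) (a : α) :
    hv P Q s a ≤ hv P Q t a ↔ P a (s a) ≤ P a (t a) := by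
  classical
  constructor
  · intro h
    by_contra hc
    push Not at hc
    have h1 := sl2a_lt (P := P) (Q := Q) (s := t) (t := s) ht hc
    omega
  · intro h
    unfold hv
    apply Finset.card_le_card
    intro w hw
    rw [Finset.mem_filter] at hw ⊢
    exact ⟨hw.1, lt_of_lt_of_le hw.2 h⟩

theorem hv_lt {s : Equiv.Perm α} (hs : s ∈ Sm P Q) (a : α) : hv P Q s a < (Sp P Q a).card := by
  classical
  unfold hv
  apply Finset.card_lt_card
  rw [Finset.ssubset_iff_of_subset (Finset.filter_subset _ _)]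
  exact ⟨s a, sl2a_mem hs a, by simp⟩

theorem hv_att (hP : ∀ m, Function.Injective (P m)) (a : α) (i : ℕ) (hi : i < (Sp P Q a).card) :
    ∃ s ∈ Sm P Q, hv P Q s a = i := by
  classical
  obtain ⟨f, hf⟩ : ∃ f : α → ℕ, f = fun w => ((Sp P Q a).filter (fun w' => P a w' < P a w)).card := ⟨_, rfl⟩
  have hlt : ∀ w ∈ Sp P Q a, ∀ w', P a w < P a w' → f w < f w' := by
    intro w hw w' hww
    rw [hf]
    apply Finset.card_lt_card
    rw [Finset.ssubset_iff_of_subset]
    · exact ⟨w, Finset.mem_filter.2 ⟨hw, hww⟩, by simp⟩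
    · intro v hv
      rw [Finset.mem_filter] at hv ⊢
      exact ⟨hv.1, hv.2.trans hww⟩
  have hinj : Set.InjOn f (Sp P Q a : Set α) := by
    intro w hw w' hw' h
    by_contra hne
    have h1 : P a w ≠ P a w' := fun h2 => hne (hP a h2)
    rcases lt_or_gt_of_ne h1 with h2 | h2
    · exact absurd h (hlt w hw w' h2).ne
    · exact absurd h (hlt w' hw' w h2).ne'
  have hsub : (Sp P Q a).image f ⊆ Finset.range (Sp P Q a).card := by
    intro j hj
    obtain ⟨w, hw, rfl⟩ := Finset.mem_image.1 hj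
    rw [Finset.mem_range, hf]
    apply Finset.card_lt_card
    rw [Finset.ssubset_iff_of_subset (Finset.filter_subset _ _)]
    exact ⟨w, hw, by simp⟩
  have heq : (Sp P Q a).image f = Finset.range (Sp P Q a).card := by
    apply Finset.eq_of_subset_of_card_le hsub
    rw [Finset.card_range, Finset.card_image_of_injOn hinj]
  have hmem : i ∈ (Sp P Q a).image f := by
    rw [heq, Finset.mem_range]
    exact hi
  obtain ⟨w, hw, hwi⟩ := Finset.mem_image.1 hmem
  unfold Sp at hw
  obtain ⟨s, hs, rfl⟩ := Finset.mem_image.1 hw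
  refine ⟨s, hs, ?_⟩
  rw [hf] at hwi
  exact hwi

theorem hv_meet (hP : ∀ m, Function.Injective (P m)) (hQ : ∀ w, Function.Injective (Q w))
    {s t : Equiv.Perm α} (hs : s ∈ Sm P Q) (ht : t ∈ Sm P Q) :
    ∃ u ∈ Sm P Q, ∀ a, hv P Q u a = min (hv P Q s a) (hv P Q t a) := by
  obtain ⟨u, hu, hum⟩ := meet_stb hP hQ (mem_Sm.1 hs) (mem_Sm.1 ht)
  refine ⟨u, mem_Sm.2 hu, fun a => ?_⟩
  by_cases h : P a (s a) ≤ P a (t a)
  · have h1 := hum a
    rw [if_pos h] at h1
    rw [sl2a_congr h1, min_eq_left ((hv_le_iff hs ht a).2 h)]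
  · have h1 := hum a
    rw [if_neg h] at h1
    push Not at h
    rw [sl2a_congr h1, min_eq_right ((hv_le_iff ht hs a).2 h.le)]

theorem hv_join (hP : ∀ m, Function.Injective (P m)) (hQ : ∀ w, Function.Injective (Q w))
    {s t : Equiv.Perm α} (hs : s ∈ Sm P Q) (ht : t ∈ Sm P Q) :
    ∃ u ∈ Sm P Q, ∀ a, hv P Q u a = max (hv P Q s a) (hv P Q t a) := by
  obtain ⟨u, hu, hum⟩ := join_stb hP hQ (mem_Sm.1 hs) (mem_Sm.1 ht)
  refine ⟨u, mem_Sm.2 hu, fun a => ?_⟩
  by_cases h : P a (s a) ≤ P a (t a)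
  · have h1 := hum a
    rw [if_pos h] at h1
    rw [sl2a_congr h1, max_eq_right ((hv_le_iff hs ht a).2 h)]
  · have h1 := hum a
    rw [if_neg h] at h1
    push Not at h
    rw [sl2a_congr h1, max_eq_left ((hv_le_iff ht hs a).2 h.le)]

end SL
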