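import Mathlib
import Pool.Agent.Lib.MP_c91ad1_co.SlR2a

set_option autoImplicit false

namespace SL

open Finset SMB

variable {α : Type*} [Fintype α] [DecidableEq α] {P Q : α → α → ℕ}

/-- equal partners have equal heights -/
theorem sl2b_hv_congr {s t : Equiv.Perm α} {a : α} (h : s a = t a) : hv P Q s a = hv P Q t a := by
  unfold hv
  rw [h]

/-- equal heights come from equal partners -/
theorem sl2b_eq_of_hv (hP : ∀ m, Function.Injective (P m)) {s t : Equiv.Perm α} (hs : s ∈ Sm P Q)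
    (ht : t ∈ Sm P Q) {a : α} (h : hv P Q s a = hv P Q t a) : s a = t a :=
  hP a (le_antisymm ((hv_le_iff hs ht a).1 h.le) ((hv_le_iff ht hs a).1 h.ge))

omit [Fintype α] in
/-- two permutations that agree off `{a, b}` and differ at `a` are exchanged by a swap -/
theorem sl2b_swap {s t : Equiv.Perm α} {a b : α} (h : ∀ d, d ≠ a → d ≠ b → s d = t d)
    (hne : s a ≠ t a) : t a = s b := by
  have h1 : s (s.symm (t a)) = t a := s.apply_symm_apply _
  by_cases h2 : s.symm (t a) = a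
  · rw [h2] at h1
    exact absurd h1 hne
  · by_cases h3 : s.symm (t a) = b
    · rw [h3] at h1
      exact h1.symm
    · have h4 := h _ h2 h3
      rw [h1] at h4
      exact absurd (t.injective h4).symm h2

/-- the stable matchings that are below the leg `(a, i)`: for a real leg `(a, i)` let `t` be the least
stable matching with `i ≤ hv t a`; the greatest stable matching `s ≤ t` with `hv s a < i` differs from `t`
only in men who have a leg equal to `(a, i)` -/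
theorem pred (hP : ∀ m, Function.Injective (P m)) (hQ : ∀ w, Function.Injective (Q w)) (a : α) (i : ℕ)
    (hi : 1 ≤ i) (hi' : i < (Sp P Q a).card) :
    ∃ s ∈ Sm P Q, ∃ t ∈ Sm P Q, (∀ u ∈ Sm P Q, i ≤ hv P Q u a → ∀ d, hv P Q t d ≤ hv P Q u d) ∧
      hv P Q t a = i ∧ hv P Q s a < i ∧ (∀ d, hv P Q s d ≤ hv P Q t d) ∧
      (∀ u ∈ Sm P Q, (∀ d, hv P Q u d ≤ hv P Q t d) → hv P Q u a < i → ∀ d, hv P Q u d ≤ hv P Q s d) ∧
      ∀ d, hv P Q s d = hv P Q t d ∨
        (1 ≤ hv P Q t d ∧ hv P Q t d < (Sp P Q d).card ∧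
          ∀ u ∈ Sm P Q, (i ≤ hv P Q u a ↔ hv P Q t d ≤ hv P Q u d)) := by
  classical
  obtain ⟨u0, hu0, hu0i⟩ := hv_att hP a i hi'
  obtain ⟨t, htA, htmin⟩ := ((Sm P Q).filter (fun u => i ≤ hv P Q u a)).exists_min_image
    (fun u => ∑ d, hv P Q u d) ⟨u0, Finset.mem_filter.2 ⟨hu0, hu0i.ge⟩⟩
  rw [Finset.mem_filter] at htA
  obtain ⟨ht, hta⟩ := htA
  have hleast : ∀ u ∈ Sm P Q, i ≤ hv P Q u a → ∀ d, hv P Q t d ≤ hv P Q u d := by
    intro u hu hui d
    by_contra hd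
    push Not at hd
    obtain ⟨m, hm, hmv⟩ := hv_meet hP hQ ht hu
    have h1 := htmin m (Finset.mem_filter.2 ⟨hm, by rw [hmv]; exact le_min hta hui⟩)
    have h2 : ∑ d, hv P Q m d < ∑ d, hv P Q t d := by
      refine Finset.sum_lt_sum (fun e _ => by rw [hmv]; exact min_le_left _ _)
        ⟨d, Finset.mem_univ _, ?_⟩
      rw [hmv, min_eq_right hd.le]
      exact hd
    exact absurd h1 (not_le.2 h2)
  have hta' : hv P Q t a = i := le_antisymm ((hleast u0 hu0 hu0i.ge a).trans hu0i.le) hta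
  obtain ⟨u1, hu1, hu1i⟩ := hv_att hP a (i - 1) (by omega : i - 1 < (Sp P Q a).card)
  obtain ⟨m1, hm1, hm1v⟩ := hv_meet hP hQ ht hu1
  obtain ⟨s, hsD, hsmax⟩ :=
    ((Sm P Q).filter (fun u => (∀ d, hv P Q u d ≤ hv P Q t d) ∧ hv P Q u a < i)).exists_max_image
    (fun u => ∑ d, hv P Q u d) ⟨m1, Finset.mem_filter.2 ⟨hm1, fun d => by
      rw [hm1v]; exact min_le_left _ _, by rw [hm1v, hu1i]; omega⟩⟩
  rw [Finset.mem_filter] at hsD
  obtain ⟨hs, hst, hsa⟩ := hsD
  have hgr : ∀ u ∈ Sm P Q, (∀ d, hv P Q u d ≤ hv P Q t d) → hv P Q u a < i →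
      ∀ d, hv P Q u d ≤ hv P Q s d := by
    intro u hu hut hua d
    by_contra hd
    push Not at hd
    obtain ⟨m, hm, hmv⟩ := hv_join hP hQ hs hu
    have h1 := hsmax m (Finset.mem_filter.2 ⟨hm, fun e => by rw [hmv]; exact max_le (hst e) (hut e), by
      rw [hmv]; exact max_lt hsa hua⟩)
    have h2 : ∑ d, hv P Q s d < ∑ d, hv P Q m d := by
      refine Finset.sum_lt_sum (fun e _ => by rw [hmv]; exact le_max_left _ _)
        ⟨d, Finset.mem_univ _, ?_⟩
      rw [hmv, max_eq_right hd.le]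
      exact hd
    exact absurd h1 (not_le.2 h2)
  refine ⟨s, hs, t, ht, hleast, hta', hsa, hst, hgr, fun d => ?_⟩
  by_cases hd : hv P Q s d = hv P Q t d
  · exact Or.inl hd
  · right
    have hd' : hv P Q s d < hv P Q t d := lt_of_le_of_ne (hst d) hd
    refine ⟨by omega, hv_lt ht d, fun u hu => ⟨fun h => hleast u hu h d, fun h => ?_⟩⟩
    by_contra hua
    push Not at hua
    obtain ⟨m, hm, hmv⟩ := hv_meet hP hQ hu ht
    have h1 := hgr m hm (fun e => by rw [hmv]; exact min_le_right _ _)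
      (by rw [hmv]; exact lt_of_le_of_lt (min_le_left _ _) hua) d
    rw [hmv, min_eq_right h] at h1
    exact absurd h1 (not_le.2 hd')

/-- A1 for the stable matchings themselves -/
theorem sl2b_a1 (hP : ∀ m, Function.Injective (P m)) (hQ : ∀ w, Function.Injective (Q w)) (a : α)
    (i : ℕ) (hi : 1 ≤ i) (hi' : i < (Sp P Q a).card) : ∃ b, b ≠ a ∧ ∃ j, 1 ≤ j ∧
      j < (Sp P Q b).card ∧ ∀ u ∈ Sm P Q, (i ≤ hv P Q u a ↔ j ≤ hv P Q u b) := by
  obtain ⟨s, hs, t, ht, -, hta, hsa, -, -, hd⟩ := pred hP hQ a i hi hi'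
  by_contra hno
  push Not at hno
  have h1 : ∀ b, b ≠ a → s b = t b := by
    intro b hb
    rcases hd b with h | ⟨h2, h3, h4⟩
    · exact sl2b_eq_of_hv hP hs ht h
    · exfalso
      obtain ⟨u, hu, hu'⟩ := hno b hb _ h2 h3
      have h5 := h4 u hu
      rcases hu' with ⟨h6, h7⟩ | ⟨h6, h7⟩
      · exact absurd (h5.1 h6) (not_le.2 h7)
      · exact absurd (h5.2 h7) (not_le.2 h6)
  have h2 : s a ≠ t a := by
    intro h
    have := sl2b_hv_congr (P := P) (Q := Q) h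
    omega
  have h3 := sl2b_swap (b := a) (fun d hda _ => h1 d hda) h2
  exact h2 h3.symm

/-- A2 for the stable matchings themselves -/
theorem sl2b_a2 (hP : ∀ m, Function.Injective (P m)) (hQ : ∀ w, Function.Injective (Q w)) (a b : α)
    (i j : ℕ) (hi : 1 ≤ i) (hi' : i + 1 < (Sp P Q a).card)
    (h1 : ∀ u ∈ Sm P Q, (i ≤ hv P Q u a ↔ j ≤ hv P Q u b)) :
    ∃ d, d ≠ a ∧ d ≠ b ∧ ∃ k, 1 ≤ k ∧ k < (Sp P Q d).card ∧
      ((∀ u ∈ Sm P Q, (i ≤ hv P Q u a ↔ k ≤ hv P Q u d)) ∨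
        ∀ u ∈ Sm P Q, (i + 1 ≤ hv P Q u a ↔ k ≤ hv P Q u d)) := by
  obtain ⟨s, hs, t, ht, hle, hta, hsa, -, -, hd⟩ := pred hP hQ a i hi (by omega)
  obtain ⟨s2, hs2, t2, ht2, -, hta2, hsa2, -, hgr2, hd2⟩ := pred hP hQ a (i + 1) (by omega) hi'
  by_contra hno
  have e1 : ∀ d, d ≠ a → d ≠ b → s d = t d := by
    intro d hda hdb
    rcases hd d with h | ⟨h2, h3, h4⟩
    · exact sl2b_eq_of_hv hP hs ht h
    · exact absurd ⟨d, hda, hdb, _, h2, h3, Or.inl h4⟩ hno
  have e2 : ∀ d, d ≠ a → d ≠ b → s2 d = t2 d := by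
    intro d hda hdb
    rcases hd2 d with h | ⟨h2, h3, h4⟩
    · exact sl2b_eq_of_hv hP hs2 ht2 h
    · exact absurd ⟨d, hda, hdb, _, h2, h3, Or.inr h4⟩ hno
  have n1 : s a ≠ t a := by
    intro h
    have := sl2b_hv_congr (P := P) (Q := Q) h
    omega
  have n2 : s2 a ≠ t2 a := by
    intro h
    have := sl2b_hv_congr (P := P) (Q := Q) h
    omega
  have c1 : t a = s b := sl2b_swap e1 n1
  have c2 : s2 a = t2 b := sl2b_swap (fun d hda hdb => (e2 d hda hdb).symm) (Ne.symm n2)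
  have h5 : ∀ d, hv P Q t d ≤ hv P Q t2 d := hle t2 ht2 (by omega)
  have h6 := hgr2 t ht h5 (by omega) a
  have h7 : s2 a = t a := sl2b_eq_of_hv hP hs2 ht (by omega)
  have h8 : t2 b = s b := by rw [← c2, h7, c1]
  have h9 := sl2b_hv_congr (P := P) (Q := Q) h8
  have h10 := (h1 t2 ht2).1 (by omega)
  have h11 := (h1 s hs).not.1 (by omega)
  rw [h9] at h10
  exact h11 h10

open Classical in
/-- the height vectors of the stable matchings have the properties of `Sys` -/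
theorem sys_of_stable (hP : ∀ m, Function.Injective (P m)) (hQ : ∀ w, Function.Injective (Q w))
    (h4 : ∀ a, (Sp P Q a).card ≤ 4) :
    Sys ((Sm P Q).image (hv P Q)) (fun a => (Sp P Q a).card) ∧
      ((Sm P Q).image (hv P Q)).card = (Sm P Q).card := by
  have hLq : ∀ a i b j, Lq ((Sm P Q).image (hv P Q)) a i b j ↔
      ∀ u ∈ Sm P Q, (i ≤ hv P Q u a ↔ j ≤ hv P Q u b) := by
    intro a i b j
    unfold Lq
    constructor
    · intro h u hu
      exact h _ (Finset.mem_image_of_mem _ hu)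
    · intro h s hs
      rw [Finset.mem_image] at hs
      obtain ⟨u, hu, rfl⟩ := hs
      exact h u hu
  refine ⟨⟨?_, h4, ?_, ?_, ?_⟩, ?_⟩
  · intro s hs a
    rw [Finset.mem_image] at hs
    obtain ⟨u, hu, rfl⟩ := hs
    exact hv_lt hu a
  · intro a i hi
    obtain ⟨u, hu, hui⟩ := hv_att hP a i hi
    exact ⟨_, Finset.mem_image_of_mem _ hu, hui.ge⟩
  · intro a i hi hi'
    obtain ⟨b, hb, j, hj, hj', h⟩ := sl2b_a1 hP hQ a i hi hi'
    exact ⟨b, hb, j, hj, hj', (hLq _ _ _ _).2 h⟩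
  · intro a b i j j' _ hi hi' _ _ h1 _
    obtain ⟨d, hda, hdb, k, hk, hk', h⟩ := sl2b_a2 hP hQ a b i j hi hi' ((hLq _ _ _ _).1 h1)
    refine ⟨d, hda, hdb, k, hk, hk', ?_⟩
    rcases h with h | h
    · exact Or.inl ((hLq _ _ _ _).2 h)
    · exact Or.inr ((hLq _ _ _ _).2 h)
  · refine Finset.card_image_of_injOn ?_
    intro s hs t ht hst
    refine Equiv.ext fun a => ?_
    exact sl2b_eq_of_hv hP (Finset.mem_coe.1 hs) (Finset.mem_coe.1 ht) (congrFun hst a)

end SL
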