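import Pool.Agent.Lib.MP_c91ad1_co.SlMain
import Pool.Agent.Lib.MP_c91ad1_co.SlR2

/-!
# The bound for stable matchings
-/

set_option autoImplicit false

namespace SL

open Finset SMB

theorem ew_eq {t l : ℕ} (ht : t ≤ 2) (hl : l ≤ t) : ew 4 l = ew t l := by
  have : t = 0 ∨ t = 1 ∨ t = 2 := by omega
  rcases this with rfl | rfl | rfl
  · have : l = 0 := by omega
    subst this
    rfl
  · have : l = 0 ∨ l = 1 := by omega
    rcases this with rfl | rfl <;> rfl
  · have : l = 0 ∨ l = 1 ∨ l = 2 := by omega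
    rcases this with rfl | rfl | rfl <;> rfl

theorem ew_le {t l : ℕ} (h1 : 1 ≤ t) (h4 : t ≤ 4) (hl : l ≤ t) : ew t l ≤ 3 * t - 2 := by
  have : t = 1 ∨ t = 2 ∨ t = 3 ∨ t = 4 := by omega
  rcases this with rfl | rfl | rfl | rfl
  · have : l = 0 ∨ l = 1 := by omega
    rcases this with rfl | rfl <;> decide
  · have : l = 0 ∨ l = 1 ∨ l = 2 := by omega
    rcases this with rfl | rfl | rfl <;> decide
  · have : l = 0 ∨ l = 1 ∨ l = 2 ∨ l = 3 := by omega
    rcases this with rfl | rfl | rfl | rfl <;> decide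
  · have : l = 0 ∨ l = 1 ∨ l = 2 ∨ l = 3 ∨ l = 4 := by omega
    rcases this with rfl | rfl | rfl | rfl | rfl <;> decide

/-- for every instance: the square of the number of stable matchings is at most the product of the numbers
of the stable partners of the men -/
theorem card_sq_le {α : Type*} [Fintype α] [DecidableEq α] {P Q : α → α → ℕ}
    (hP : ∀ m, Function.Injective (P m)) (hQ : ∀ w, Function.Injective (Q w)) :
    (Sm P Q).card ^ 2 ≤ ∏ a, (Sp P Q a).card := by
  classical
  have hcard : ((Sm P Q).image (hv P Q)).card = (Sm P Q).card := by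
    refine Finset.card_image_of_injOn ?_
    intro s hs t ht hst
    refine Equiv.ext fun a => ?_
    exact sl2b_eq_of_hv hP (Finset.mem_coe.1 hs) (Finset.mem_coe.1 ht) (congrFun hst a)
  rw [← hcard]
  refine (gen_le (fun a => a) (fun a i => 1 ≤ i ∧ i < (Sp P Q a).card) ((Sm P Q).image (hv P Q))
    ?_).trans (Finset.prod_le_prod' fun κ _ => ?_)
  · rintro a i ⟨h1, h2⟩
    right
    obtain ⟨b, hb, j, hj, hj', h⟩ := sl2b_a1 hP hQ a i h1 h2
    refine ⟨b, j, hb, ⟨hj, hj'⟩, ?_⟩
    intro s hs
    obtain ⟨u, hu, rfl⟩ := Finset.mem_image.1 hs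
    exact h u hu
  · rw [← Finset.card_range (Sp P Q κ).card]
    refine Finset.card_le_card_of_injOn (fun p => p.1 κ) ?_ ?_
    · intro p hp
      rw [Finset.mem_coe, mem_prs] at hp
      obtain ⟨⟨s, hs, e⟩, -, -⟩ := hp
      obtain ⟨u, hu, rfl⟩ := Finset.mem_image.1 hs
      rw [Finset.mem_coe, Finset.mem_range]
      show p.1 κ < _
      rw [← e, mkb_apply rfl]
      exact hv_lt hu κ
    · intro p hp q hq hpq
      have key : ∀ p ∈ prs (fun a => a) (fun a i => 1 ≤ i ∧ i < (Sp P Q a).card)
          ((Sm P Q).image (hv P Q)) κ, p.1 = p.2 ∧ ∀ a, a ≠ κ → p.1 a = 0 := by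
        intro p hp
        rw [mem_prs] at hp
        obtain ⟨⟨s, hs, e⟩, ⟨t, ht, e'⟩, h⟩ := hp
        obtain ⟨u, hu, rfl⟩ := Finset.mem_image.1 hs
        obtain ⟨v, hv', rfl⟩ := Finset.mem_image.1 ht
        have h1 := hv_lt hu κ
        have h2 := hv_lt hv' κ
        have h3 : hv P Q u κ = hv P Q v κ := by
          have h4 : ∀ i, 1 ≤ i → i < (Sp P Q κ).card → (i ≤ hv P Q u κ ↔ i ≤ hv P Q v κ) := by
            intro i hi hi'
            have := h κ rfl i ⟨hi, hi'⟩
            rwa [← e, ← e', mkb_apply rfl, mkb_apply rfl] at this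
          rcases lt_trichotomy (hv P Q u κ) (hv P Q v κ) with h5 | h5 | h5
          · have := (h4 (hv P Q v κ) (by omega) h2).2 le_rfl
            omega
          · exact h5
          · have := (h4 (hv P Q u κ) (by omega) h1).1 le_rfl
            omega
        constructor
        · rw [← e, ← e']
          funext a
          unfold mkb
          by_cases ha : a = κ
          · subst ha
            simp [h3]
          · simp [ha]
        · intro a ha
          rw [← e]
          simp [mkb, ha]
      obtain ⟨h1, h2⟩ := key p (Finset.mem_coe.1 hp)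
      obtain ⟨h3, h4⟩ := key q (Finset.mem_coe.1 hq)
      have h5 : p.1 = q.1 := by
        funext a
        by_cases ha : a = κ
        · rw [ha]
          exact hpq
        · rw [h2 a ha, h4 a ha]
      exact Prod.ext h5 (h1.symm.trans (h5.trans h3))

theorem card_pow_le {α : Type*} [Fintype α] [LinearOrder α] {P Q : α → α → ℕ}
    (hP : ∀ m, Function.Injective (P m)) (hQ : ∀ w, Function.Injective (Q w)) {t : ℕ} (h4 : t ≤ 4)
    (ht : ∀ a, (Sp P Q a).card ≤ t) : (Sm P Q).card ^ 4 ≤ ∏ a, ew t ((Sp P Q a).card) := by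
  classical
  rcases Finset.eq_empty_or_nonempty (Sm P Q) with he | hne
  · rw [he, Finset.card_empty]
    exact Nat.zero_le _
  obtain ⟨hsys, hcard⟩ := sys_of_stable hP hQ (fun a => (ht a).trans h4)
  have hne' : ((Sm P Q).image (hv P Q)).Nonempty := hne.image _
  rw [← hcard]
  have hb4 := bound4 hsys hne'
  have : t = 4 ∨ t = 3 ∨ t ≤ 2 := by omega
  rcases this with rfl | rfl | h2
  · exact hb4
  · exact bound3 hsys ht hne'
  · refine hb4.trans (le_of_eq ?_)
    exact Finset.prod_congr rfl fun a _ => ew_eq h2 (ht a)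

end SL
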