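import Mathlib
import Pool.Agent.Lib.MP_c91ad1_co.SlDefs

set_option autoImplicit false

namespace SL

open Finset

theorem sl3_arith {x y a0 a1 b0 b1 A B p : ℕ} (hx : x ^ 2 ≤ a0 * (b0 * p)) (hy : y ^ 2 ≤ a1 * (b1 * p))
    (hA : a0 + a1 ≤ A) (hB : b0 + b1 ≤ B) : (x + y) ^ 2 ≤ A * (B * p) := by
  have h1 : (2 * (x * y)) ^ 2 ≤ (p * (a0 * b1 + a1 * b0)) ^ 2 := by
    calc (2 * (x * y)) ^ 2 = 4 * (x ^ 2 * y ^ 2) := by ring
      _ ≤ 4 * ((a0 * (b0 * p)) * (a1 * (b1 * p))) := Nat.mul_le_mul_left _ (Nat.mul_le_mul hx hy)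
      _ = p ^ 2 * (4 * ((a0 * b1) * (a1 * b0))) := by ring
      _ ≤ p ^ 2 * (a0 * b1 + a1 * b0) ^ 2 := Nat.mul_le_mul_left _ (by
          rw [← mul_assoc]
          exact four_mul_le_pow_two_add _ _)
      _ = (p * (a0 * b1 + a1 * b0)) ^ 2 := by ring
  have h2 : 2 * (x * y) ≤ p * (a0 * b1 + a1 * b0) := (Nat.pow_le_pow_iff_left two_ne_zero).1 h1
  calc (x + y) ^ 2 = x ^ 2 + y ^ 2 + 2 * (x * y) := by ring
    _ ≤ a0 * (b0 * p) + a1 * (b1 * p) + p * (a0 * b1 + a1 * b0) := by omega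
    _ = (a0 + a1) * ((b0 + b1) * p) := by ring
    _ ≤ A * (B * p) := Nat.mul_le_mul hA (Nat.mul_le_mul_right _ hB)

variable {α : Type*}

open Classical in
/-- the restriction to a class of the partition -/
noncomputable def mkb (b : α → α) (κ : α) (s : α → ℕ) : α → ℕ := fun a => if b a = κ then s a else 0

open Classical in
/-- the pairs of restrictions that agree on the legs of `C` -/
noncomputable def prs (b : α → α) (C : α → ℕ → Prop) (S : Finset (α → ℕ)) (κ : α) :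
    Finset ((α → ℕ) × (α → ℕ)) :=
  ((S.image (mkb b κ)) ×ˢ (S.image (mkb b κ))).filter
    (fun p => ∀ a, b a = κ → ∀ i, C a i → (i ≤ p.1 a ↔ i ≤ p.2 a))

theorem mkb_apply {b : α → α} {κ a : α} (h : b a = κ) (s : α → ℕ) : mkb b κ s a = s a := by
  simp [mkb, h]

theorem mem_prs {b : α → α} {C : α → ℕ → Prop} {S : Finset (α → ℕ)} {κ : α}
    {p : (α → ℕ) × (α → ℕ)} : p ∈ prs b C S κ ↔
      (∃ s ∈ S, mkb b κ s = p.1) ∧ (∃ s ∈ S, mkb b κ s = p.2) ∧
        ∀ a, b a = κ → ∀ i, C a i → (i ≤ p.1 a ↔ i ≤ p.2 a) := by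
  unfold prs
  simp only [Finset.mem_filter, Finset.mem_product, Finset.mem_image, and_assoc]

theorem prs_mono {b : α → α} {C : α → ℕ → Prop} {S S' : Finset (α → ℕ)} (h : S' ⊆ S) (κ : α) :
    prs b C S' κ ⊆ prs b C S κ := by
  intro p hp
  rw [mem_prs] at hp ⊢
  obtain ⟨⟨s, hs, h1⟩, ⟨t, ht, h2⟩, h3⟩ := hp
  exact ⟨⟨s, h hs, h1⟩, ⟨t, h ht, h2⟩, h3⟩

theorem prs_add {b : α → α} {C : α → ℕ → Prop} {S S0 S1 : Finset (α → ℕ)} (h0 : S0 ⊆ S) (h1 : S1 ⊆ S)
    {a : α} {i : ℕ} (hS0 : ∀ s ∈ S0, ¬ i ≤ s a) (hS1 : ∀ s ∈ S1, i ≤ s a) :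
    (prs b C S0 (b a)).card + (prs b C S1 (b a)).card ≤ (prs b C S (b a)).card := by
  classical
  rw [← Finset.card_union_of_disjoint]
  · exact Finset.card_le_card (Finset.union_subset (prs_mono h0 _) (prs_mono h1 _))
  · rw [Finset.disjoint_left]
    intro p hp hp'
    rw [mem_prs] at hp hp'
    obtain ⟨⟨s, hs, e⟩, -⟩ := hp
    obtain ⟨⟨t, ht, e'⟩, -⟩ := hp'
    have h2 := hS0 s hs
    have h3 := hS1 t ht
    rw [← mkb_apply rfl s, e] at h2
    rw [← mkb_apply rfl t, e'] at h3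
    exact h2 h3

variable [Fintype α] [DecidableEq α]

/-- the general block inequality -/
theorem gen_le (b : α → α) (C : α → ℕ → Prop) (S : Finset (α → ℕ))
    (hC : ∀ a i, C a i → (∀ s ∈ S, ∀ t ∈ S, (i ≤ s a ↔ i ≤ t a)) ∨
      ∃ a' i', b a' ≠ b a ∧ C a' i' ∧ ∀ s ∈ S, (i ≤ s a ↔ i' ≤ s a')) :
    S.card ^ 2 ≤ ∏ κ : α, (prs b C S κ).card := by
  classical
  induction S using Finset.strongInduction with
  | H S ih =>
    by_cases hconst : ∀ a i, C a i → ∀ s ∈ S, ∀ t ∈ S, (i ≤ s a ↔ i ≤ t a)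
    · have h1 : ∀ κ, (prs b C S κ).card = (S.image (mkb b κ)).card ^ 2 := by
        intro κ
        rw [sq, ← Finset.card_product]
        congr 1
        ext p
        rw [mem_prs, Finset.mem_product, Finset.mem_image, Finset.mem_image]
        constructor
        · rintro ⟨h2, h3, -⟩
          exact ⟨h2, h3⟩
        · rintro ⟨⟨s, hs, e⟩, ⟨t, ht, e'⟩⟩
          refine ⟨⟨s, hs, e⟩, ⟨t, ht, e'⟩, ?_⟩
          intro a ha i hi
          rw [← e, ← e', mkb_apply ha, mkb_apply ha]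
          exact hconst a i hi s hs t ht
      have h2 : S.card ≤ ∏ κ : α, (S.image (mkb b κ)).card := by
        rw [← Fintype.card_piFinset]
        refine Finset.card_le_card_of_injOn (fun s κ => mkb b κ s) ?_ ?_
        · intro s hs
          rw [Finset.mem_coe, Fintype.mem_piFinset]
          intro κ
          exact Finset.mem_image_of_mem _ hs
        · intro s _ t _ hst
          funext a
          have := congrFun (congrFun hst (b a)) a
          dsimp only at this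
          rwa [mkb_apply rfl, mkb_apply rfl] at this
      calc S.card ^ 2 ≤ (∏ κ : α, (S.image (mkb b κ)).card) ^ 2 := Nat.pow_le_pow_left h2 2
        _ = ∏ κ : α, (S.image (mkb b κ)).card ^ 2 := (Finset.prod_pow _ _ _).symm
        _ = ∏ κ : α, (prs b C S κ).card := Finset.prod_congr rfl fun κ _ => (h1 κ).symm
    · push Not at hconst
      obtain ⟨a, i, hai, s0, hs0, t0, ht0, hne⟩ := hconst
      obtain hc | ⟨a', i', hb, hai', heq⟩ := hC a i hai
      · exfalso
        have := hc s0 hs0 t0 ht0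
        omega
      have hinh : ∀ S' ⊆ S, ∀ a i, C a i → (∀ s ∈ S', ∀ t ∈ S', (i ≤ s a ↔ i ≤ t a)) ∨
          ∃ a' i', b a' ≠ b a ∧ C a' i' ∧ ∀ s ∈ S', (i ≤ s a ↔ i' ≤ s a') := by
        intro S' hS' a i hi
        rcases hC a i hi with h | ⟨a', i', h1, h2, h3⟩
        · exact Or.inl fun s hs t ht => h s (hS' hs) t (hS' ht)
        · exact Or.inr ⟨a', i', h1, h2, fun s hs => h3 s (hS' hs)⟩
      set S0 := S.filter (fun s => ¬ i ≤ s a) with hS0
      set S1 := S.filter (fun s => i ≤ s a) with hS1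
      have hsub0 : S0 ⊆ S := Finset.filter_subset _ _
      have hsub1 : S1 ⊆ S := Finset.filter_subset _ _
      have hx0 : ∃ s ∈ S, i ≤ s a := by
        by_cases h : i ≤ s0 a
        · exact ⟨s0, hs0, h⟩
        · exact ⟨t0, ht0, by omega⟩
      have hx1 : ∃ s ∈ S, ¬ i ≤ s a := by
        by_cases h : i ≤ s0 a
        · exact ⟨t0, ht0, by omega⟩
        · exact ⟨s0, hs0, h⟩
      have hss0 : S0 ⊂ S := by
        refine Finset.ssubset_iff_subset_ne.2 ⟨hsub0, fun h => ?_⟩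
        obtain ⟨s, hs, h'⟩ := hx0
        rw [← h, hS0, Finset.mem_filter] at hs
        exact hs.2 h'
      have hss1 : S1 ⊂ S := by
        refine Finset.ssubset_iff_subset_ne.2 ⟨hsub1, fun h => ?_⟩
        obtain ⟨s, hs, h'⟩ := hx1
        rw [← h, hS1, Finset.mem_filter] at hs
        exact h' hs.2
      have ih0 := ih S0 hss0 (hinh S0 hsub0)
      have ih1 := ih S1 hss1 (hinh S1 hsub1)
      have hcard : S.card = S0.card + S1.card := by
        rw [add_comm]
        exact (Finset.card_filter_add_card_filter_not (s := S) (fun s => i ≤ s a)).symm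
      have hA := prs_add (b := b) (C := C) hsub0 hsub1 (a := a) (i := i)
        (fun s hs => (Finset.mem_filter.1 hs).2) (fun s hs => (Finset.mem_filter.1 hs).2)
      have hB := prs_add (b := b) (C := C) hsub0 hsub1 (a := a') (i := i')
        (fun s hs h => (Finset.mem_filter.1 hs).2 ((heq s (hsub0 hs)).2 h))
        (fun s hs => (heq s (hsub1 hs)).1 (Finset.mem_filter.1 hs).2)
      have hsplit : ∀ f : α → ℕ, ∏ κ : α, f κ =
          f (b a) * (f (b a') * ∏ κ ∈ (univ.erase (b a)).erase (b a'), f κ) := by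
        intro f
        rw [Finset.mul_prod_erase _ _ (Finset.mem_erase.2 ⟨hb, Finset.mem_univ _⟩),
          Finset.mul_prod_erase _ _ (Finset.mem_univ _)]
      have hle : ∀ S' ⊆ S, ∏ κ ∈ (univ.erase (b a)).erase (b a'), (prs b C S' κ).card ≤
          ∏ κ ∈ (univ.erase (b a)).erase (b a'), (prs b C S κ).card := fun S' hS' =>
        Finset.prod_le_prod' fun κ _ => Finset.card_le_card (prs_mono hS' κ)
      rw [hcard, hsplit]
      refine sl3_arith (ih0.trans ?_) (ih1.trans ?_) hA hB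
      · rw [hsplit]
        exact Nat.mul_le_mul_left _ (Nat.mul_le_mul_left _ (hle S0 hsub0))
      · rw [hsplit]
        exact Nat.mul_le_mul_left _ (Nat.mul_le_mul_left _ (hle S1 hsub1))

/-- the block inequality -/
theorem block_le (S : Finset (α → ℕ)) (h3 : ∀ s ∈ S, ∀ a, s a ≤ 3) (b : α → α) :
    S.card ^ 2 ≤ ∏ κ : α, QK S (univ.filter (fun a => b a = κ)) := by
  refine (gen_le b (fun a i => 1 ≤ i ∧ i ≤ 3 ∧ Agr S (univ.filter (fun x => b x = b a)) a i) S
    ?_).trans (Finset.prod_le_prod' fun κ _ => ?_)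
  · rintro a i ⟨h1, h2, h4⟩
    rcases h4 with h4 | ⟨x, hx, j, hj1, hj3, hl⟩
    · left
      intro s hs t ht
      have e1 := h4 s hs
      have e2 := h4 t ht
      constructor <;> intro h <;> omega
    · right
      rw [Finset.mem_filter] at hx
      have hx' : b x ≠ b a := fun h => hx ⟨Finset.mem_univ _, h⟩
      refine ⟨x, j, hx', ⟨hj1, hj3, Or.inr ⟨a, ?_, i, h1, h2, fun s hs => (hl s hs).symm⟩⟩, hl⟩
      rw [Finset.mem_filter]
      exact fun h => hx' h.2.symm
  · unfold QK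
    apply Finset.card_le_card
    intro p hp
    rw [mem_prs] at hp
    obtain ⟨⟨s, hs, e⟩, ⟨t, ht, e'⟩, h⟩ := hp
    have hmk : ∀ s : α → ℕ, msk (univ.filter (fun a => b a = κ)) s = mkb b κ s := by
      intro s
      funext a
      simp [msk, mkb]
    simp only [Finset.mem_filter, Finset.mem_product, Finset.mem_image, hmk]
    refine ⟨⟨⟨s, hs, e⟩, ⟨t, ht, e'⟩⟩, ?_⟩
    intro a ha i hi1 hi3 hagr
    have ha' : b a = κ := by simpa using ha
    refine h a ha' i ⟨hi1, hi3, ?_⟩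
    rw [ha']
    exact hagr

end SL
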