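import Mathlib

set_option autoImplicit false

namespace SL

open Finset

section

variable {α : Type*} [Fintype α] [DecidableEq α]

/-- a matching of the graph `adj`, as an involution -/
def sl6_P (adj : α → α → Prop) (f : α → α) : Prop :=
  (∀ a, f (f a) = a) ∧ ∀ a, f a ≠ a → adj a (f a)

/-- the number of matched points -/
def sl6_n (f : α → α) : ℕ := (univ.filter (fun a => f a ≠ a)).card

theorem sl6_max (adj : α → α → Prop) : ∃ f, sl6_P adj f ∧ ∀ g, sl6_P adj g → sl6_n g ≤ sl6_n f := by
  classical
  obtain ⟨f, hf, hmax⟩ := Finset.exists_max_image (univ.filter (fun f : α → α => sl6_P adj f)) sl6_n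
    ⟨id, mem_filter.2 ⟨mem_univ _, fun _ => rfl, fun _ h => absurd rfl h⟩⟩
  exact ⟨f, (mem_filter.1 hf).2, fun g hg => hmax g (mem_filter.2 ⟨mem_univ _, hg⟩)⟩

theorem sl6_lt {f g : α → α} {u : α} (hu : f u = u) (hgu : g u ≠ u) (h : ∀ a, f a ≠ a → g a ≠ a) :
    sl6_n f < sl6_n g := by
  unfold sl6_n
  apply card_lt_card
  rw [ssubset_iff_of_subset]
  · exact ⟨u, mem_filter.2 ⟨mem_univ _, hgu⟩, fun h' => (mem_filter.1 h').2 hu⟩
  · intro a ha
    rw [mem_filter] at ha ⊢
    exact ⟨ha.1, h a ha.2⟩

theorem sl6_aug1 {adj : α → α → Prop} (hsym : ∀ a b, adj a b → adj b a) {f : α → α} (hf : sl6_P adj f)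
    (hmax : ∀ g, sl6_P adj g → sl6_n g ≤ sl6_n f) {u v : α} (huv : u ≠ v) (hu : f u = u) (hv : f v = v)
    (h : adj u v) : False := by
  obtain ⟨hff, hfa⟩ := hf
  obtain ⟨g, hg⟩ : ∃ g : α → α, ∀ a, g a = if a = u then v else if a = v then u else f a := ⟨_, fun _ => rfl⟩
  have gu : g u = v := by rw [hg, if_pos rfl]
  have gv : g v = u := by rw [hg, if_neg huv.symm, if_pos rfl]
  have go : ∀ a, a ≠ u → a ≠ v → g a = f a := fun a h1 h2 => by rw [hg, if_neg h1, if_neg h2]
  have hP : sl6_P adj g := by
    constructor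
    · intro a
      by_cases h1 : a = u
      · rw [h1, gu, gv]
      · by_cases h2 : a = v
        · rw [h2, gv, gu]
        · rw [go a h1 h2, go (f a) (fun h3 => h1 (by rw [← hff a, h3, hu])) (fun h3 => h2 (by rw [← hff a, h3, hv])),
            hff]
    · intro a ha
      by_cases h1 : a = u
      · rw [h1, gu]
        exact h
      · by_cases h2 : a = v
        · rw [h2, gv]
          exact hsym _ _ h
        · rw [go a h1 h2] at ha ⊢
          exact hfa a ha
  have h1 := hmax g hP
  have h2 : sl6_n f < sl6_n g := by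
    refine sl6_lt hu (by rw [gu]; exact huv.symm) fun a ha => ?_
    rw [go a (fun h3 => ha (by rw [h3, hu])) (fun h3 => ha (by rw [h3, hv]))]
    exact ha
  omega

theorem sl6_aug3 {adj : α → α → Prop} (hsym : ∀ a b, adj a b → adj b a) {f : α → α} (hf : sl6_P adj f)
    (hmax : ∀ g, sl6_P adj g → sl6_n g ≤ sl6_n f) {u v w : α} (huv : u ≠ v) (hu : f u = u) (hv : f v = v)
    (hw : f w ≠ w) (h1 : adj u w) (h2 : adj v (f w)) : False := by
  obtain ⟨hff, hfa⟩ := hf
  have hfw : f (f w) ≠ f w := by rw [hff]; exact hw.symm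
  have uw : u ≠ w := fun h => hw (by rw [← h, hu])
  have vw : v ≠ w := fun h => hw (by rw [← h, hv])
  have uw' : u ≠ f w := fun h => hfw (by rw [← h, hu])
  have vw' : v ≠ f w := fun h => hfw (by rw [← h, hv])
  obtain ⟨g, hg⟩ : ∃ g : α → α, ∀ a, g a = if a = u then w else if a = w then u else if a = v then f w else
      if a = f w then v else f a := ⟨_, fun _ => rfl⟩
  have gu : g u = w := by rw [hg, if_pos rfl]
  have gw : g w = u := by rw [hg, if_neg uw.symm, if_pos rfl]
  have gv : g v = f w := by rw [hg, if_neg huv.symm, if_neg vw, if_pos rfl]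
  have gw' : g (f w) = v := by rw [hg, if_neg uw'.symm, if_neg hw, if_neg vw'.symm, if_pos rfl]
  have go : ∀ a, a ≠ u → a ≠ w → a ≠ v → a ≠ f w → g a = f a := fun a q1 q2 q3 q4 => by
    rw [hg, if_neg q1, if_neg q2, if_neg q3, if_neg q4]
  have hP : sl6_P adj g := by
    constructor
    · intro a
      by_cases q1 : a = u
      · rw [q1, gu, gw]
      by_cases q2 : a = w
      · rw [q2, gw, gu]
      by_cases q3 : a = v
      · rw [q3, gv, gw']
      by_cases q4 : a = f w
      · rw [q4, gw', gv]
      rw [go a q1 q2 q3 q4, go (f a) (fun h3 => q1 (by rw [← hff a, h3, hu])) (fun h3 => q4 (by rw [← hff a, h3]))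
        (fun h3 => q3 (by rw [← hff a, h3, hv])) (fun h3 => q2 (by rw [← hff a, h3, hff])), hff]
    · intro a ha
      by_cases q1 : a = u
      · rw [q1, gu]
        exact h1
      by_cases q2 : a = w
      · rw [q2, gw]
        exact hsym _ _ h1
      by_cases q3 : a = v
      · rw [q3, gv]
        exact h2
      by_cases q4 : a = f w
      · rw [q4, gw']
        exact hsym _ _ h2
      rw [go a q1 q2 q3 q4] at ha ⊢
      exact hfa a ha
  have k1 := hmax g hP
  have k2 : sl6_n f < sl6_n g := by
    refine sl6_lt hu (by rw [gu]; exact uw.symm) fun a ha => ?_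
    by_cases q2 : a = w
    · rw [q2, gw]
      exact uw
    by_cases q4 : a = f w
    · rw [q4, gw']
      exact vw'
    rw [go a (fun h3 => ha (by rw [h3, hu])) q2 (fun h3 => ha (by rw [h3, hv])) q4]
    exact ha
  omega

end

/-- a partition into blocks from a maximum matching: `F` is the set of the full men, `adj` the graph of the
good pairs, `att u w k`: the man `u` is attached to the leg `k` of `w`, `shr w w' p`: the pair `w, w'`
shares the leg `p` of `w` -/
theorem part {α : Type*} [Fintype α] [LinearOrder α] (F : α → Prop) (adj : α → α → Prop)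
    (att shr : α → α → ℕ → Prop) (hirr : ∀ a, ¬ adj a a) (hsym : ∀ a b, adj a b → adj b a)
    (h1 : ∀ u, F u → ∃ w k, att u w k) (h2 : ∀ u w k, att u w k → adj u w ∧ 1 ≤ k ∧ k ≤ 3)
    (h3 : ∀ u v w k, att u w k → att v w k → u ≠ v → adj u v)
    (h4 : ∀ w w', adj w w' → ∃ p, 1 ≤ p ∧ p ≤ 3 ∧ shr w w' p)
    (h5 : ∀ u w w' p, att u w p → shr w w' p → u ≠ w' → adj u w') :
    ∃ b : α → α, ∀ κ,
      univ.filter (fun a => b a = κ) = ∅ ∨
      (∃ x, ¬ F x ∧ univ.filter (fun a => b a = κ) = {x}) ∨
      (∃ w w', adj w w' ∧ univ.filter (fun a => b a = κ) = {w, w'}) ∨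
      (∃ w w' u k, adj w w' ∧ u ≠ w ∧ u ≠ w' ∧ F u ∧ att u w k ∧
        univ.filter (fun a => b a = κ) = {w, w', u}) ∨
      (∃ w w' u v k k' p, adj w w' ∧ u ≠ w ∧ u ≠ w' ∧ v ≠ w ∧ v ≠ w' ∧ u ≠ v ∧ F u ∧ F v ∧
        att u w k ∧ att v w k' ∧ shr w w' p ∧ 1 ≤ p ∧ p ≤ 3 ∧ p ≠ k ∧ p ≠ k' ∧ k ≠ k' ∧
        univ.filter (fun a => b a = κ) = {w, w', u, v}) := by
  classical
  obtain ⟨f, hf, hmax⟩ := sl6_max adj
  have hff := hf.1
  have hfa := hf.2
  have hatt : ∀ u, ∃ w k, F u → att u w k := by
    intro u
    by_cases h : F u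
    · obtain ⟨w, k, h'⟩ := h1 u h
      exact ⟨w, k, fun _ => h'⟩
    · exact ⟨u, 0, fun h' => absurd h' h⟩
  choose ww kk hatt using hatt
  have hww : ∀ u, f u = u → F u → f (ww u) ≠ ww u := by
    intro u hu hF hfix
    have h := (h2 _ _ _ (hatt u hF)).1
    refine sl6_aug1 hsym hf hmax (u := u) (v := ww u) ?_ hu hfix h
    intro h'
    rw [← h'] at h
    exact hirr u h
  obtain ⟨x, hx⟩ : ∃ x : α → α, ∀ a, x a = if f a = a ∧ F a then ww a else a := ⟨_, fun _ => rfl⟩
  refine ⟨fun a => min (x a) (f (x a)), fun κ => ?_⟩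
  have hmin : ∀ a, min (x a) (f (x a)) = κ → x a = κ ∨ x a = f κ := by
    intro a ha
    rcases min_choice (x a) (f (x a)) with h | h
    · left
      rw [← ha, h]
    · right
      rw [← ha, h, hff]
  by_cases hemp : univ.filter (fun a => min (x a) (f (x a)) = κ) = ∅
  · exact Or.inl hemp
  obtain ⟨a0, ha0⟩ := nonempty_iff_ne_empty.2 hemp
  have ha0 := (mem_filter.1 ha0).2
  by_cases hκ : f κ = κ
  · -- a fixed point which is not full
    right; left
    have key : ∀ a, min (x a) (f (x a)) = κ → a = κ ∧ ¬ F κ := by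
      intro a ha
      have hxa : x a = κ := by
        rcases hmin a ha with h | h
        · exact h
        · rw [h, hκ]
      by_cases hc : f a = a ∧ F a
      · rw [hx, if_pos hc] at hxa
        have := hww a hc.1 hc.2
        rw [hxa] at this
        exact absurd hκ this
      · rw [hx, if_neg hc] at hxa
        refine ⟨hxa, fun hF => hc ?_⟩
        rw [hxa]
        exact ⟨hκ, hF⟩
    refine ⟨κ, (key a0 ha0).2, ?_⟩
    ext a
    rw [mem_filter, mem_singleton]
    constructor
    · intro h
      exact (key a h.2).1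
    · intro h
      refine ⟨mem_univ _, ?_⟩
      have h' := (key a0 ha0).1
      rw [h'] at ha0
      rw [h]
      exact ha0
  · -- a matched pair and the men attached to it
    have hκ' : f (f κ) ≠ f κ := by rw [hff]; exact fun h => hκ h.symm
    have hle : κ ≤ f κ := by
      rcases hmin a0 ha0 with h | h
      · rw [h] at ha0
        exact min_eq_left_iff.1 ha0
      · rw [h, hff] at ha0
        exact min_eq_right_iff.1 ha0
    have hblk : ∀ a, min (x a) (f (x a)) = κ ↔
        a = κ ∨ a = f κ ∨ (f a = a ∧ F a ∧ (ww a = κ ∨ ww a = f κ)) := by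
      intro a
      constructor
      · intro ha
        have h := hmin a ha
        by_cases hc : f a = a ∧ F a
        · rw [hx, if_pos hc] at h
          exact Or.inr (Or.inr ⟨hc.1, hc.2, h⟩)
        · rw [hx, if_neg hc] at h
          rcases h with h | h
          · exact Or.inl h
          · exact Or.inr (Or.inl h)
      · intro ha
        have h : x a = κ ∨ x a = f κ := by
          rcases ha with h | h | ⟨h3, h4, h5⟩
          · left
            rw [hx, if_neg, h]
            rw [h]
            exact fun h' => hκ h'.1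
          · right
            rw [hx, if_neg, h]
            rw [h]
            exact fun h' => hκ' h'.1
          · rw [hx, if_pos ⟨h3, h4⟩]
            exact h5
        rcases h with h | h
        · rw [h]
          exact min_eq_left hle
        · rw [h, hff]
          exact min_eq_right hle
    by_cases hU : ∃ u, f u = u ∧ F u ∧ (ww u = κ ∨ ww u = f κ)
    · obtain ⟨u, hu, hFu, hwu⟩ := hU
      -- the man `w` and his partner
      have hw : f (ww u) ≠ ww u := hww u hu hFu
      have hww' : ∀ v, f v = v → F v → (ww v = κ ∨ ww v = f κ) → ww v = ww u := by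
        intro v hv hFv hwv
        by_cases huv : u = v
        · rw [huv]
        by_contra hne
        have h6 : ww v = f (ww u) := by
          rcases hwu with h | h <;> rcases hwv with h' | h'
          · exact absurd (h'.trans h.symm) hne
          · rw [h', h]
          · rw [h', h, hff]
          · exact absurd (h'.trans h.symm) hne
        have h7 := (h2 _ _ _ (hatt v hFv)).1
        rw [h6] at h7
        exact sl6_aug3 hsym hf hmax huv hu hv hw (h2 _ _ _ (hatt u hFu)).1 h7
      have hadj : adj (ww u) (f (ww u)) := hfa _ hw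
      have hfw : f (f (ww u)) ≠ f (ww u) := by rw [hff]; exact fun h => hw h.symm
      have hnw : ∀ v, f v = v → v ≠ ww u := fun v hv h => hw (by rw [← h, hv])
      have hnw' : ∀ v, f v = v → v ≠ f (ww u) := fun v hv h => hfw (by rw [← h, hv])
      have hpair : ∀ a, (a = κ ∨ a = f κ) ↔ (a = ww u ∨ a = f (ww u)) := by
        intro a
        rcases hwu with h | h
        · rw [h]
        · rw [h, hff]
          exact or_comm
      have hkk : ∀ v v', f v = v → F v → ww v = ww u → f v' = v' → F v' → ww v' = ww u → v ≠ v' →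
          kk v ≠ kk v' := by
        intro v v' hv hFv hwv hv' hFv' hwv' hne hk
        have h8 := hatt v hFv
        have h9 := hatt v' hFv'
        rw [hwv] at h8
        rw [hwv', ← hk] at h9
        exact sl6_aug1 hsym hf hmax hne hv hv' (h3 _ _ _ _ h8 h9 hne)
      by_cases hV : ∃ v, v ≠ u ∧ f v = v ∧ F v ∧ (ww v = κ ∨ ww v = f κ)
      · obtain ⟨v, hvu, hv, hFv, hwv⟩ := hV
        have hwv' := hww' v hv hFv hwv
        obtain ⟨p, hp1, hp3, hp⟩ := h4 _ _ hadj
        have hkp : ∀ y z, f y = y → F y → ww y = ww u → f z = z → F z → ww z = ww u → z ≠ y → kk y ≠ p := by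
          intro y z hy hFy hwy hz hFz hwz hzy hk
          have h8 := hatt y hFy
          rw [hwy, hk] at h8
          have h9 := h5 _ _ _ _ h8 hp (hnw' y hy)
          have h10 := (h2 _ _ _ (hatt z hFz)).1
          rw [hwz] at h10
          exact sl6_aug3 hsym hf hmax hzy hz hy hw h10 h9
        have hku := hatt u hFu
        have hkv := hatt v hFv
        rw [hwv'] at hkv
        refine Or.inr (Or.inr (Or.inr (Or.inr ⟨ww u, f (ww u), u, v, kk u, kk v, p, hadj, hnw u hu, hnw' u hu,
          hnw v hv, hnw' v hv, hvu.symm, hFu, hFv, hku, hkv, hp, hp1, hp3,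
          (hkp u v hu hFu rfl hv hFv hwv' hvu).symm, (hkp v u hv hFv hwv' hu hFu rfl hvu.symm).symm,
          hkk u v hu hFu rfl hv hFv hwv' hvu.symm, ?_⟩)))
        ext a
        rw [mem_filter, hblk, mem_insert, mem_insert, mem_insert, mem_singleton, ← or_assoc, hpair]
        constructor
        · rintro ⟨-, (h | h) | ⟨q1, q2, q3⟩⟩
          · exact Or.inl h
          · exact Or.inr (Or.inl h)
          · by_cases hau : a = u
            · exact Or.inr (Or.inr (Or.inl hau))
            by_cases hav : a = v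
            · exact Or.inr (Or.inr (Or.inr hav))
            exfalso
            have q4 := hww' a q1 q2 q3
            have r1 := hkk a u q1 q2 q4 hu hFu rfl hau
            have r2 := hkk a v q1 q2 q4 hv hFv hwv' hav
            have r3 := hkk u v hu hFu rfl hv hFv hwv' hvu.symm
            have r4 := hkp a u q1 q2 q4 hu hFu rfl (fun h => hau h.symm)
            have r5 := hkp u v hu hFu rfl hv hFv hwv' hvu
            have r6 := hkp v u hv hFv hwv' hu hFu rfl hvu.symm
            have s1 := (h2 _ _ _ (hatt a q2)).2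
            have s2 := (h2 _ _ _ (hatt u hFu)).2
            have s3 := (h2 _ _ _ (hatt v hFv)).2
            omega
        · rintro (h | h | h | h)
          · exact ⟨mem_univ _, Or.inl (Or.inl h)⟩
          · exact ⟨mem_univ _, Or.inl (Or.inr h)⟩
          · rw [h]
            exact ⟨mem_univ _, Or.inr ⟨hu, hFu, hwu⟩⟩
          · rw [h]
            exact ⟨mem_univ _, Or.inr ⟨hv, hFv, hwv⟩⟩
      · refine Or.inr (Or.inr (Or.inr (Or.inl ⟨ww u, f (ww u), u, kk u, hadj, hnw u hu, hnw' u hu, hFu,
          hatt u hFu, ?_⟩)))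
        ext a
        rw [mem_filter, hblk, mem_insert, mem_insert, mem_singleton, ← or_assoc, hpair]
        constructor
        · rintro ⟨-, (h | h) | ⟨q1, q2, q3⟩⟩
          · exact Or.inl h
          · exact Or.inr (Or.inl h)
          · refine Or.inr (Or.inr ?_)
            by_contra hau
            exact hV ⟨a, hau, q1, q2, q3⟩
        · rintro (h | h | h)
          · exact ⟨mem_univ _, Or.inl (Or.inl h)⟩
          · exact ⟨mem_univ _, Or.inl (Or.inr h)⟩
          · rw [h]
            exact ⟨mem_univ _, Or.inr ⟨hu, hFu, hwu⟩⟩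
    · refine Or.inr (Or.inr (Or.inl ⟨κ, f κ, hfa _ hκ, ?_⟩))
      ext a
      rw [mem_filter, hblk, mem_insert, mem_singleton]
      constructor
      · rintro ⟨-, h | h | h⟩
        · exact Or.inl h
        · exact Or.inr h
        · exact absurd ⟨a, h⟩ hU
      · rintro (h | h)
        · exact ⟨mem_univ _, Or.inl h⟩
        · exact ⟨mem_univ _, Or.inr (Or.inl h)⟩

end SL
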