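import Pool.Agent.Lib.MP_c91ad1_co.SlBlocks
import Pool.Agent.Lib.MP_c91ad1_co.SlR3
import Pool.Agent.Lib.MP_c91ad1_co.SlR6

/-!
# The bound for systems of height vectors
-/

set_option autoImplicit false

namespace SL

open Finset

variable {α : Type*} [Fintype α]

theorem blk0 (S : Finset (α → ℕ)) : QK S (∅ : Finset α) ^ 2 ≤ 1 := by
  have h0 : ∀ s : α → ℕ, msk (∅ : Finset α) s = fun _ => 0 := by
    intro s
    funext a
    simp [msk]
  have h1 : QK S (∅ : Finset α) ≤ 1 := by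
    unfold QK
    rw [Finset.card_le_one]
    intro x hx y hy
    simp only [Finset.mem_filter, Finset.mem_product, Finset.mem_image, h0] at hx hy
    obtain ⟨⟨⟨_, _, hx1⟩, ⟨_, _, hx2⟩⟩, _⟩ := hx
    obtain ⟨⟨⟨_, _, hy1⟩, ⟨_, _, hy2⟩⟩, _⟩ := hy
    exact Prod.ext (hx1.symm.trans hy1) (hx2.symm.trans hy2)
  calc _ ≤ 1 ^ 2 := Nat.pow_le_pow_left h1 2
    _ = 1 := rfl

variable [LinearOrder α] {S : Finset (α → ℕ)} {c : α → ℕ}

/-- from the bounds for the blocks to the bound for the number of height vectors -/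
theorem assemble (h : Sys S c) (e : α → ℕ) (b : α → α)
    (hb : ∀ κ, QK S (univ.filter (fun a => b a = κ)) ^ 2 ≤ ∏ a ∈ univ.filter (fun a => b a = κ), e a) :
    S.card ^ 4 ≤ ∏ a, e a := by
  have h3 : ∀ s ∈ S, ∀ a, s a ≤ 3 := by
    intro s hs a
    have h1 := h.lt s hs a
    have h2 := h.le4 a
    omega
  calc S.card ^ 4 = (S.card ^ 2) ^ 2 := by ring
    _ ≤ (∏ κ : α, QK S (univ.filter (fun a => b a = κ))) ^ 2 := Nat.pow_le_pow_left (block_le S h3 b) 2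
    _ = ∏ κ : α, QK S (univ.filter (fun a => b a = κ)) ^ 2 := (Finset.prod_pow _ _ _).symm
    _ ≤ ∏ κ : α, ∏ a ∈ univ.filter (fun a => b a = κ), e a := Finset.prod_le_prod' fun κ _ => hb κ
    _ = ∏ a, e a := Finset.prod_fiberwise _ _ _

theorem nb2 (k : ℕ) : nb 2 k = true := by
  unfold nb
  cases h : Nat.beq k 1 <;> cases h' : Nat.beq k 3 <;> rfl


theorem bound4 (h : Sys S c) (hne : S.Nonempty) : S.card ^ 4 ≤ ∏ a, ew 4 (c a) := by
  have hc1 : ∀ a, 1 ≤ c a := by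
    intro a
    obtain ⟨s, hs⟩ := hne
    have := h.lt s hs a
    omega
  obtain ⟨b, hb⟩ := part (fun u => c u = 4) (Adj4 S c)
    (fun u w k => u ≠ w ∧ c u = 4 ∧ 1 ≤ k ∧ k < c w ∧ Lq S u 2 w k)
    (fun w w' p => 1 ≤ p ∧ p < c w ∧ ∃ j, 1 ≤ j ∧ j < c w' ∧ Lq S w p w' j)
    (fun a ha => ha.1 rfl) (fun a b hab => hab.symm)
    (by
      intro u hu
      obtain ⟨w, hw, k, h1, h2, h3⟩ := h.a1 u 2 (by norm_num) (by omega)
      exact ⟨w, k, hw.symm, hu, h1, h2, h3⟩)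
    (by
      rintro u w k ⟨h1, h2, h3, h4, h5⟩
      have := h.le4 w
      exact ⟨⟨h1, Or.inl h2, Or.inl ⟨2, k, by norm_num, by omega, h3, h4, nb2 k, h5⟩⟩, h3, by omega⟩)
    (by
      rintro u v w k ⟨h1, h2, h3, h4, h5⟩ ⟨h1', h2', h3', h4', h5'⟩ huv
      exact ⟨huv, Or.inl h2, Or.inl ⟨2, 2, by norm_num, by omega, by norm_num, by omega, nb2 2,
        h5.trans h5'.symm⟩⟩)
    (by
      rintro w w' ⟨h1, h2, h3⟩
      have hw := h.le4 w
      have hw' := h.le4 w'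
      rcases h3 with ⟨i, j, h3, h5, h6, h7, h8, h9⟩ | ⟨i, h3, h5, h6, h7, -⟩ | ⟨h3, h5, h6, h7⟩
      · exact ⟨i, h3, by omega, h3, h5, j, h6, h7, h9⟩
      · exact ⟨i, by omega, by omega, by omega, h5, i, by omega, h6, h7⟩
      · exact ⟨1, by omega, by omega, by omega, by omega, 1, by omega, by omega, h6⟩)
    (by
      rintro u w w' p ⟨h1, h2, h3, h4, h5⟩ ⟨h6, h7, j, h8, h9, h10⟩ huw
      exact ⟨huw, Or.inl h2, Or.inl ⟨2, j, by norm_num, by omega, h8, h9, nb2 j, h5.trans h10⟩⟩)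
  refine assemble h _ b fun κ => ?_
  rcases hb κ with hκ | ⟨x, hx, hκ⟩ | ⟨w, w', hw, hκ⟩ | ⟨w, w', u, k, hw, huw, huw', hu, hatt, hκ⟩ |
    ⟨w, w', u, v, k, k', p, hw, huw, huw', hvw, hvw', huv, hu, hv, hk, hk', hp, hp1, hp3, hpk, hpk',
      hkk, hκ⟩
  · rw [hκ, Finset.prod_empty]
    exact blk0 S
  · rw [hκ, Finset.prod_singleton, ew, if_neg hx]
    exact blk1 h x (hc1 x)
  · rw [hκ, Finset.prod_pair hw.1]
    exact blk2 h hw
  · rw [hκ, Finset.prod_insert (by simp [hw.1, huw.symm]), Finset.prod_pair huw'.symm, ← mul_assoc]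
    exact blk3 h hw huw huw' hu hatt.2.2.1 hatt.2.2.2.1 hatt.2.2.2.2
  · obtain ⟨h1, h2, h3, h4, h5⟩ := hk
    obtain ⟨h1', h2', h3', h4', h5'⟩ := hk'
    obtain ⟨h6, h7, j, h8, h9, h10⟩ := hp
    rw [hκ, Finset.prod_insert (by simp [hw.1, huw.symm, hvw.symm]),
      Finset.prod_insert (by simp [huw'.symm, hvw'.symm]), Finset.prod_pair huv, ← mul_assoc,
      ← mul_assoc]
    rcases lt_or_gt_of_ne hkk with hlt | hlt
    · exact blk4 h hw.1 huw huw' hvw hvw' huv h6 h7 h8 h9 h10 hu hv h3 hlt h4' hpk hpk' h5 h5'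
    · have := blk4 h hw.1 hvw hvw' huw huw' huv.symm h6 h7 h8 h9 h10 hv hu h3' hlt h4 hpk' hpk h5' h5
      have e : ({w, w', u, v} : Finset α) = {w, w', v, u} := by
        ext x
        simp only [Finset.mem_insert, Finset.mem_singleton]
        tauto
      rw [e]
      calc _ ≤ _ := this
        _ = _ := by ring

theorem bound3 (h : Sys S c) (h3 : ∀ a, c a ≤ 3) (hne : S.Nonempty) :
    S.card ^ 4 ≤ ∏ a, ew 3 (c a) := by
  have hc1 : ∀ a, 1 ≤ c a := by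
    intro a
    obtain ⟨s, hs⟩ := hne
    have := h.lt s hs a
    omega
  obtain ⟨b, hb⟩ := part (fun u => c u = 3) (Adj3 S c)
    (fun u w k => u ≠ w ∧ c u = 3 ∧ 1 ≤ k ∧ k < c w ∧ Lq S u 1 w k)
    (fun w w' p => 1 ≤ p ∧ p < c w ∧ ∃ j, 1 ≤ j ∧ j < c w' ∧ Lq S w p w' j)
    (fun a ha => ha.1 rfl) (fun a b hab => hab.symm)
    (by
      intro u hu
      obtain ⟨w, hw, k, h1, h2, h3⟩ := h.a1 u 1 (by norm_num) (by omega)
      exact ⟨w, k, hw.symm, hu, h1, h2, h3⟩)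
    (by
      rintro u w k ⟨h1, h2, h3, h4, h5⟩
      have := h.le4 w
      exact ⟨⟨h1, Or.inl h2, 1, k, by norm_num, by omega, h3, h4, h5⟩, h3, by omega⟩)
    (by
      rintro u v w k ⟨h1, h2, h3, h4, h5⟩ ⟨h1', h2', h3', h4', h5'⟩ huv
      exact ⟨huv, Or.inl h2, 1, 1, by norm_num, by omega, by norm_num, by omega,
        h5.trans h5'.symm⟩)
    (by
      rintro w w' ⟨h1, h2, i, j, h3, h4, h5, h6, h7⟩
      have hw := h.le4 w
      exact ⟨i, h3, by omega, h3, h4, j, h5, h6, h7⟩)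
    (by
      rintro u w w' p ⟨h1, h2, h3, h4, h5⟩ ⟨h6, h7, j, h8, h9, h10⟩ huw
      exact ⟨huw, Or.inl h2, 1, j, by norm_num, by omega, h8, h9, h5.trans h10⟩)
  refine assemble h _ b fun κ => ?_
  rcases hb κ with hκ | ⟨x, hx, hκ⟩ | ⟨w, w', hw, hκ⟩ | ⟨w, w', u, k, hw, huw, huw', hu, hatt, hκ⟩ |
    ⟨w, w', u, v, k, k', p, hw, huw, huw', hvw, hvw', huv, hu, hv, hk, hk', hp, hp1, hp3, hpk, hpk',
      hkk, hκ⟩
  · rw [hκ, Finset.prod_empty]
    exact blk0 S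
  · rw [hκ, Finset.prod_singleton, ew, if_neg hx]
    exact blk1 h x (hc1 x)
  · rw [hκ, Finset.prod_pair hw.1]
    exact blk2' h h3 hw
  · rw [hκ, Finset.prod_insert (by simp [hw.1, huw.symm]), Finset.prod_pair huw'.symm, ← mul_assoc]
    exact blk3' h h3 hw huw huw' hu hatt.2.2.1 hatt.2.2.2.1 hatt.2.2.2.2
  · exfalso
    obtain ⟨h1, h2, h4, h5, h6⟩ := hk
    obtain ⟨h1', h2', h4', h5', h6'⟩ := hk'
    obtain ⟨h7, h8, j, h9, h10, h11⟩ := hp
    have := h3 w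
    omega

end SL
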