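import Mathlib
import Pool.Agent.Lib.MP_c91ad1_co.SlDefs

set_option autoImplicit false

namespace SL

open Finset

theorem sl4_bt (m l : ℕ) : bt m l = (m.testBit l).toNat := by
  rw [Nat.toNat_testBit]
  show (m >>> l) &&& 1 = _
  rw [Nat.and_one_is_mod, Nat.shiftRight_eq_div_pow]

theorem sl4_bt_one {m l : ℕ} : bt m l = 1 ↔ m.testBit l = true := by
  rw [sl4_bt]
  cases m.testBit l <;> simp

theorem sl4_bt_cases (m l : ℕ) : bt m l = 0 ∨ bt m l = 1 := by
  rw [sl4_bt]
  cases m.testBit l <;> simp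

theorem sl4_lor {A l l' : ℕ} (h : bt (Nat.lor A (2 ^ l)) l' = 1) : bt A l' = 1 ∨ l' = l := by
  rw [sl4_bt_one] at h ⊢
  have h1 : (A ||| 2 ^ l).testBit l' = true := h
  rw [Nat.testBit_or, Nat.testBit_two_pow, Bool.or_eq_true, decide_eq_true_eq] at h1
  rcases h1 with h1 | h1
  · exact Or.inl h1
  · exact Or.inr h1.symm

theorem sl4_mem_flb {v l x : ℕ} {T : List ℕ} : x ∈ flb v l T ↔ x ∈ T ∧ bt x l = v := by
  induction T with
  | nil => simp [flb]
  | cons y T ih =>
    unfold flb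
    cases h : Nat.beq (bt y l) v with
    | true =>
      have h' : bt y l = v := Nat.eq_of_beq_eq_true h
      simp only [cond_true, List.mem_cons, ih]
      constructor
      · rintro (rfl | h1)
        · exact ⟨Or.inl rfl, h'⟩
        · exact ⟨Or.inr h1.1, h1.2⟩
      · rintro ⟨rfl | h1, h2⟩
        · exact Or.inl rfl
        · exact Or.inr ⟨h1, h2⟩
    | false =>
      have h' : bt y l ≠ v := Nat.ne_of_beq_eq_false h
      simp only [cond_false, List.mem_cons, ih]
      constructor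
      · rintro h1
        exact ⟨Or.inr h1.1, h1.2⟩
      · rintro ⟨rfl | h1, h2⟩
        · exact absurd h2 h'
        · exact ⟨h1, h2⟩

theorem sl4_mem_flt {l l' x : ℕ} {T : List ℕ} : x ∈ flt l l' T ↔ x ∈ T ∧ bt x l = bt x l' := by
  induction T with
  | nil => simp [flt]
  | cons y T ih =>
    unfold flt
    cases h : Nat.beq (bt y l) (bt y l') with
    | true =>
      have h' : bt y l = bt y l' := Nat.eq_of_beq_eq_true h
      simp only [cond_true, List.mem_cons, ih]
      constructor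
      · rintro (rfl | h1)
        · exact ⟨Or.inl rfl, h'⟩
        · exact ⟨Or.inr h1.1, h1.2⟩
      · rintro ⟨rfl | h1, h2⟩
        · exact Or.inl rfl
        · exact Or.inr ⟨h1, h2⟩
    | false =>
      have h' : bt y l ≠ bt y l' := Nat.ne_of_beq_eq_false h
      simp only [cond_false, List.mem_cons, ih]
      constructor
      · rintro h1
        exact ⟨Or.inr h1.1, h1.2⟩
      · rintro ⟨rfl | h1, h2⟩
        · exact absurd h2 h'
        · exact ⟨h1, h2⟩

theorem sl4_cns_self {x : ℕ} {T : List ℕ} (C : List (List ℕ)) (h : x ∈ T) : T ∈ cns T C := by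
  cases T with
  | nil => simp at h
  | cons y T => simp [cns]

theorem sl4_cns_of {T U : List ℕ} {C : List (List ℕ)} (h : U ∈ C) : U ∈ cns T C := by
  cases T with
  | nil => exact h
  | cons y T => exact List.mem_cons_of_mem _ h

theorem sl4_spc {l m m' : ℕ} {T : List ℕ} {C : List (List ℕ)} (hT : T ∈ C) (hm : m ∈ T)
    (hm' : m' ∈ T) (h : bt m l = bt m' l) : ∃ U ∈ spc l C, m ∈ U ∧ m' ∈ U := by
  induction C with
  | nil => simp at hT
  | cons T' C ih =>
    unfold spc
    rcases List.mem_cons.1 hT with rfl | hT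
    · rcases sl4_bt_cases m l with h0 | h0
      · have h1 : m ∈ flb 0 l T := sl4_mem_flb.2 ⟨hm, h0⟩
        exact ⟨flb 0 l T, sl4_cns_self _ h1, h1, sl4_mem_flb.2 ⟨hm', h ▸ h0⟩⟩
      · have h1 : m ∈ flb 1 l T := sl4_mem_flb.2 ⟨hm, h0⟩
        exact ⟨flb 1 l T, sl4_cns_of (sl4_cns_self _ h1), h1, sl4_mem_flb.2 ⟨hm', h ▸ h0⟩⟩
    · obtain ⟨U, hU, h1⟩ := ih hT
      exact ⟨U, sl4_cns_of (sl4_cns_of hU), h1⟩

theorem sl4_flc {l l' m m' : ℕ} {T : List ℕ} {C : List (List ℕ)} (hT : T ∈ C) (hm : m ∈ T)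
    (hm' : m' ∈ T) (h : bt m l = bt m l') (h' : bt m' l = bt m' l') :
    ∃ U ∈ flc l l' C, m ∈ U ∧ m' ∈ U := by
  induction C with
  | nil => simp at hT
  | cons T' C ih =>
    unfold flc
    rcases List.mem_cons.1 hT with rfl | hT
    · have h1 : m ∈ flt l l' T := sl4_mem_flt.2 ⟨hm, h⟩
      exact ⟨flt l l' T, sl4_cns_self _ h1, h1, sl4_mem_flt.2 ⟨hm', h'⟩⟩
    · obtain ⟨U, hU, h1⟩ := ih hT
      exact ⟨U, sl4_cns_of hU, h1⟩

/-- the pairs in the classes -/
def sl4_cov : List (List ℕ) → Finset (ℕ × ℕ)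
  | [] => ∅
  | T :: C => (T.toFinset ×ˢ T.toFinset) ∪ sl4_cov C

theorem sl4_card_cov (C : List (List ℕ)) : (sl4_cov C).card ≤ qc C := by
  induction C with
  | nil => simp [sl4_cov, qc]
  | cons T C ih =>
    unfold sl4_cov qc
    refine (Finset.card_union_le _ _).trans ?_
    rw [Finset.card_product]
    exact Nat.add_le_add (Nat.mul_le_mul (List.toFinset_card_le T) (List.toFinset_card_le T)) ih

theorem sl4_mem_cov {C : List (List ℕ)} {T : List ℕ} {m m' : ℕ} (hT : T ∈ C) (hm : m ∈ T)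
    (hm' : m' ∈ T) : (m, m') ∈ sl4_cov C := by
  induction C with
  | nil => simp at hT
  | cons T' C ih =>
    unfold sl4_cov
    rw [Finset.mem_union]
    rcases List.mem_cons.1 hT with rfl | hT
    · left
      rw [Finset.mem_product, List.mem_toFinset, List.mem_toFinset]
      exact ⟨hm, hm'⟩
    · exact Or.inr (ih hT)

/-- the invariant of the classes -/
def sl4_Inv (R : Finset ℕ) (agr : ℕ → Prop) (C : List (List ℕ)) : Prop :=
  ∀ m ∈ R, ∀ m' ∈ R, (∀ l, agr l → bt m l = bt m' l) → ∃ T ∈ C, m ∈ T ∧ m' ∈ T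

theorem sl4_Inv_spc {R : Finset ℕ} {agr : ℕ → Prop} {C : List (List ℕ)} (h : sl4_Inv R agr C) {l : ℕ}
    (hl : agr l) : sl4_Inv R agr (spc l C) := by
  intro m hm m' hm' hmm
  obtain ⟨T, hT, h1, h2⟩ := h m hm m' hm' hmm
  exact sl4_spc hT h1 h2 (hmm l hl)

theorem sl4_Inv_flc {R : Finset ℕ} {agr : ℕ → Prop} {C : List (List ℕ)} (h : sl4_Inv R agr C)
    {l l' : ℕ} (hl : ∀ m ∈ R, bt m l = bt m l') : sl4_Inv R agr (flc l l' C) := by
  intro m hm m' hm' hmm
  obtain ⟨T, hT, h1, h2⟩ := h m hm m' hm' hmm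
  exact sl4_flc hT h1 h2 (hl m hm) (hl m' hm')

open Classical in
theorem sl4_ok {R : Finset ℕ} {agr : ℕ → Prop} {C : List (List ℕ)} (h : sl4_Inv R agr C) {P : ℕ}
    (hok : okc P C = true) :
    ((R ×ˢ R).filter (fun p => ∀ l, agr l → bt p.1 l = bt p.2 l)).card ^ 2 ≤ P := by
  have h1 : ((R ×ˢ R).filter (fun p => ∀ l, agr l → bt p.1 l = bt p.2 l)).card ≤ qc C := by
    refine (Finset.card_le_card ?_).trans (sl4_card_cov C)
    intro p hp
    rw [Finset.mem_filter, Finset.mem_product] at hp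
    obtain ⟨T, hT, h1, h2⟩ := h p.1 hp.1.1 p.2 hp.1.2 hp.2
    exact sl4_mem_cov hT h1 h2
  have h2 : qc C * qc C ≤ P := Nat.le_of_ble_eq_true hok
  calc _ ≤ qc C ^ 2 := Nat.pow_le_pow_left h1 2
    _ = qc C * qc C := sq _
    _ ≤ P := h2

theorem sl4_sy {E : List (ℕ × ℕ)} {eqv : ℕ → ℕ → Prop} (hsymm : ∀ l l', eqv l l' → eqv l' l)
    (hE : ∀ e ∈ E, eqv e.1 e.2) : ∀ e ∈ sy E, eqv e.1 e.2 := by
  intro e he
  unfold sy at he
  rcases List.mem_append.1 he with he | he
  · exact hE e he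
  · obtain ⟨d, hd, rfl⟩ := List.mem_map.1 he
    exact hsymm _ _ (hE d hd)

open Classical in
theorem sl4_srb (k P : ℕ) (R : Finset ℕ) (eqv : ℕ → ℕ → Prop) (agr : ℕ → Prop)
    (hsymm : ∀ l l', eqv l l' → eqv l' l)
    (hbit : ∀ l l', eqv l l' → ∀ m ∈ R, bt m l = bt m l')
    (h2 : ∀ l l1 l2, l % 3 ≤ 1 → l1 / 3 = l2 / 3 → l / 3 ≠ l1 / 3 → eqv l l1 → eqv (l + 1) l2 →
      agr l ∨ agr (l + 1) ∨ ∃ l', l' < 3 * k ∧ l' / 3 ≠ l / 3 ∧ l' / 3 ≠ l1 / 3 ∧
        (eqv l l' ∨ eqv (l + 1) l')) (f : ℕ) :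
    ∀ (E : List (ℕ × ℕ)) (A : ℕ) (C : List (List ℕ)), (∀ e ∈ E, eqv e.1 e.2) → sl4_Inv R agr C →
    srb k P f E A C = true →
    ((R ×ˢ R).filter (fun p => ∀ l, agr l → bt p.1 l = bt p.2 l)).card ^ 2 ≤ P := by
  induction f with
  | zero =>
    intro E A C _ _ hs
    simp [srb] at hs
  | succ f ih =>
    intro E A C hE hC hs
    rw [srb, Bool.or_eq_true] at hs
    rcases hs with hs | hs
    · exact sl4_ok hC hs
    · cases hf : ((sy E) ×ˢ (sy E)).find? (fun d => pat (sy E) A d.1 d.2) with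
      | none =>
        rw [hf] at hs
        simp at hs
      | some d =>
        rw [hf] at hs
        dsimp only at hs
        have hmem := List.mem_of_find?_eq_some hf
        have hpat := List.find?_some hf
        obtain ⟨⟨x, y⟩, ⟨x', y'⟩⟩ := d
        have hmem := List.pair_mem_product.1 hmem
        have he1 := sl4_sy hsymm hE _ hmem.1
        have he2 := sl4_sy hsymm hE _ hmem.2
        simp only [pat, Bool.and_eq_true, Bool.not_eq_true'] at hpat
        dsimp only at he1 he2 hs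
        obtain ⟨⟨⟨⟨⟨⟨hp1, hp2⟩, hp3⟩, hp4⟩, -⟩, -⟩, -⟩ := hpat
        have hp1 := Nat.eq_of_beq_eq_true hp1
        have hp3 := Nat.eq_of_beq_eq_true hp3
        have hp2' : x % 3 ≤ 1 := Nat.le_of_ble_eq_true hp2
        have hp4' : x / 3 ≠ y / 3 := Nat.ne_of_beq_eq_false hp4
        subst hp1
        rw [Bool.and_eq_true, Bool.and_eq_true] at hs
        obtain ⟨⟨hs1, hs2⟩, hs3⟩ := hs
        rcases h2 x y y' hp2' hp3 hp4' he1 he2 with h | h | ⟨l', hl', hx', hy', h⟩
        · exact ih _ _ _ hE (sl4_Inv_spc hC h) hs1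
        · exact ih _ _ _ hE (sl4_Inv_spc hC h) hs2
        · rw [List.all_eq_true] at hs3
          have h3 := hs3 l' (List.mem_range.2 hl')
          rw [Bool.or_eq_true, Bool.or_eq_true, Bool.and_eq_true] at h3
          rcases h3 with (h3 | h3) | h3
          · exact absurd (Nat.eq_of_beq_eq_true h3) hx'
          · exact absurd (Nat.eq_of_beq_eq_true h3) hy'
          · rcases h with h | h
            · refine ih _ _ _ ?_ (sl4_Inv_flc hC (hbit _ _ h)) h3.1
              intro e he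
              rcases List.mem_cons.1 he with rfl | he
              · exact h
              · exact hE e he
            · refine ih _ _ _ ?_ (sl4_Inv_flc hC (hbit _ _ h)) h3.2
              intro e he
              rcases List.mem_cons.1 he with rfl | he
              · exact h
              · exact hE e he

open Classical in
/-- the search is sound -/
theorem srch_sound (k P : ℕ) (R : Finset ℕ) (eqv : ℕ → ℕ → Prop) (agr : ℕ → Prop)
    (hsymm : ∀ l l', eqv l l' → eqv l' l)
    (htr : ∀ l l', eqv l l' → agr l' → agr l)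
    (hbit : ∀ l l', eqv l l' → ∀ m ∈ R, bt m l = bt m l')
    (h1 : ∀ l, l < 3 * k → agr l ∨ ∃ l', l' < 3 * k ∧ l' / 3 ≠ l / 3 ∧ eqv l l')
    (h2 : ∀ l l1 l2, l % 3 ≤ 1 → l1 / 3 = l2 / 3 → l / 3 ≠ l1 / 3 → eqv l l1 → eqv (l + 1) l2 →
      agr l ∨ agr (l + 1) ∨ ∃ l', l' < 3 * k ∧ l' / 3 ≠ l / 3 ∧ l' / 3 ≠ l1 / 3 ∧
        (eqv l l' ∨ eqv (l + 1) l'))
    (ls : List ℕ) (hls : ∀ l ∈ ls, l < 3 * k) (E : List (ℕ × ℕ)) (A D : ℕ) (C : List (List ℕ))
    (hE : ∀ e ∈ E, eqv e.1 e.2) (hA : ∀ l, bt A l = 1 → agr l)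
    (hC : ∀ m ∈ R, ∀ m' ∈ R, (∀ l, agr l → bt m l = bt m' l) → ∃ T ∈ C, m ∈ T ∧ m' ∈ T)
    (hs : srch k P ls E A D C = true) :
    ((R ×ˢ R).filter (fun p => ∀ l, agr l → bt p.1 l = bt p.2 l)).card ^ 2 ≤ P := by
  induction ls generalizing E A D C with
  | nil =>
    rw [srch] at hs
    exact sl4_srb k P R eqv agr hsymm hbit h2 6 E A C hE hC hs
  | cons l r ih =>
    have hr : ∀ l ∈ r, l < 3 * k := fun x hx => hls x (List.mem_cons_of_mem _ hx)
    rw [srch] at hs
    cases hD : Nat.beq (bt D l) 1 with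
    | true =>
      rw [hD, cond_true] at hs
      exact ih hr E A D C hE hA hC hs
    | false =>
      rw [hD, cond_false, Bool.or_eq_true, Bool.and_eq_true] at hs
      rcases hs with hs | ⟨hs1, hs2⟩
      · exact sl4_ok hC hs
      · have hfirst : agr l →
            ((R ×ˢ R).filter (fun p => ∀ l, agr l → bt p.1 l = bt p.2 l)).card ^ 2 ≤ P := by
          intro hl
          refine ih hr E _ _ _ hE ?_ (sl4_Inv_spc hC hl) hs1
          intro x hx
          rcases sl4_lor hx with h | rfl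
          · exact hA x h
          · exact hl
        rcases h1 l (hls l List.mem_cons_self) with h | ⟨l', hl', hne, heq⟩
        · exact hfirst h
        · rw [List.all_eq_true] at hs2
          have h3 := hs2 l' (List.mem_range.2 hl')
          rw [Bool.or_eq_true, Bool.or_eq_true] at h3
          rcases h3 with (h3 | h3) | h3
          · exact absurd (Nat.eq_of_beq_eq_true h3) hne
          · exact hfirst (htr _ _ heq (hA l' (Nat.eq_of_beq_eq_true h3)))
          · refine ih hr _ _ _ _ ?_ hA (sl4_Inv_flc hC (hbit _ _ heq)) h3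
            intro e he
            rcases List.mem_cons.1 he with rfl | he
            · exact heq
            · exact hE e he

end SL
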