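import Mathlib
import Pool.Agent.Lib.MP_c91ad1_co.SlR4

set_option autoImplicit false

namespace SL

open Finset

/-! ### Bits -/

theorem sl5_bt (m l : ℕ) : bt m l = m / 2 ^ l % 2 := by
  have h1 : Nat.land (Nat.shiftRight m l) 1 = (m >>> l) &&& 1 := rfl
  unfold bt
  rw [h1, Nat.and_one_is_mod, Nat.shiftRight_eq_div_pow]

theorem sl5_bt_test (m l : ℕ) : bt m l = 1 ↔ m.testBit l = true := by
  rw [sl5_bt, Nat.testBit_eq_decide_div_mod_eq, decide_eq_true_eq]

theorem sl5_bt_cases (m l : ℕ) : bt m l = 0 ∨ bt m l = 1 := by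
  rw [sl5_bt]
  omega

theorem sl5_bt_lor (a b l : ℕ) : bt (Nat.lor a b) l = 1 ↔ bt a l = 1 ∨ bt b l = 1 := by
  have h : Nat.lor a b = a ||| b := rfl
  rw [sl5_bt_test, sl5_bt_test, sl5_bt_test, h, Nat.testBit_or, Bool.or_eq_true]

theorem sl5_bt_pow (j l : ℕ) : bt (2 ^ j) l = 1 ↔ j = l := by
  rw [sl5_bt_test, Nat.testBit_two_pow, decide_eq_true_eq]

theorem sl5_bt_zero (l : ℕ) : bt 0 l = 0 := by
  rw [sl5_bt]
  simp

/-- the bits of a state -/
theorem sl5_enc_dec : ∀ h0 < 4, ∀ h1 < 4, ∀ h2 < 4, ∀ h3 < 4, ∀ l < 12, bt (enc h0 h1 h2 h3) l =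
    if l % 3 < (if l / 3 = 0 then h0 else if l / 3 = 1 then h1 else if l / 3 = 2 then h2 else h3)
      then 1 else 0 := by
  decide +kernel

theorem sl5_enc_inj {a b c d a' b' c' d' : ℕ} (ha : a < 4) (hb : b < 4) (hc : c < 4) (hd : d < 4)
    (ha' : a' < 4) (hb' : b' < 4) (hc' : c' < 4) (hd' : d' < 4)
    (h : enc a b c d = enc a' b' c' d') : a = a' ∧ b = b' ∧ c = c' ∧ d = d' := by
  unfold enc at h
  have key : ∀ x < 4, 2 ^ x - 1 ≤ 7 := by decide
  have inj : ∀ x < 4, ∀ y < 4, 2 ^ x - 1 = 2 ^ y - 1 → x = y := by decide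
  have k1 := key a ha
  have k2 := key b hb
  have k3 := key c hc
  have k4 := key d hd
  have k5 := key a' ha'
  have k6 := key b' hb'
  have k7 := key c' hc'
  have k8 := key d' hd'
  refine ⟨inj a ha a' ha' ?_, inj b hb b' hb' ?_, inj c hc c' hc' ?_, inj d hd d' hd' ?_⟩ <;>
    omega

/-! ### Masks -/

theorem sl5_foldl_if (q : ℕ → Prop) [DecidablePred q] (L : List ℕ) (A l : ℕ) :
    bt (L.foldl (fun A l => if q l then Nat.lor A (2 ^ l) else A) A) l = 1 →
      bt A l = 1 ∨ (l ∈ L ∧ q l) := by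
  induction L generalizing A with
  | nil => intro h; exact Or.inl h
  | cons x L ih =>
    intro h
    rw [List.foldl_cons] at h
    rcases ih _ h with h1 | ⟨h1, h2⟩
    · by_cases hx : q x
      · rw [if_pos hx, sl5_bt_lor, sl5_bt_pow] at h1
        rcases h1 with h1 | h1
        · exact Or.inl h1
        · subst h1
          exact Or.inr ⟨List.mem_cons_self, hx⟩
      · rw [if_neg hx] at h1
        exact Or.inl h1
    · exact Or.inr ⟨List.mem_cons_of_mem _ h1, h2⟩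

theorem sl5_foldl (L : List ℕ) (A l : ℕ) :
    bt (L.foldl (fun A l => Nat.lor A (2 ^ l)) A) l = 1 → bt A l = 1 ∨ l ∈ L := by
  induction L generalizing A with
  | nil => intro h; exact Or.inl h
  | cons x L ih =>
    intro h
    rw [List.foldl_cons] at h
    rcases ih _ h with h1 | h1
    · rw [sl5_bt_lor, sl5_bt_pow] at h1
      rcases h1 with h1 | h1
      · exact Or.inl h1
      · subst h1
        exact Or.inr List.mem_cons_self
    · exact Or.inr (List.mem_cons_of_mem _ h1)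

/-! ### Classes -/

theorem sl5_mem_cns {T T0 : List ℕ} {C : List (List ℕ)} {x : ℕ} (hx : x ∈ T) :
    T ∈ cns T0 C ↔ (T = T0 ∨ T ∈ C) := by
  cases T0 with
  | nil =>
    constructor
    · intro h; exact Or.inr h
    · rintro (h | h)
      · subst h
        exact absurd hx List.not_mem_nil
      · exact h
  | cons y T' =>
    show T ∈ (y :: T') :: C ↔ _
    rw [List.mem_cons]

theorem sl5_mem_flb {v l x : ℕ} {T : List ℕ} : x ∈ flb v l T ↔ x ∈ T ∧ bt x l = v := by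
  induction T with
  | nil => simp [flb]
  | cons y T ih =>
    rw [flb]
    by_cases h : bt y l = v
    · rw [h]
      simp only [Nat.beq_refl, cond_true, List.mem_cons, ih]
      constructor
      · rintro (h1 | ⟨h1, h2⟩)
        · subst h1; exact ⟨Or.inl rfl, h⟩
        · exact ⟨Or.inr h1, h2⟩
      · rintro ⟨h1 | h1, h2⟩
        · exact Or.inl h1
        · exact Or.inr ⟨h1, h2⟩
    · have hb : Nat.beq (bt y l) v = false := by
        rw [Bool.eq_false_iff]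
        intro hc
        exact h (Nat.eq_of_beq_eq_true hc)
      rw [hb]
      simp only [cond_false, List.mem_cons, ih]
      constructor
      · rintro ⟨h1, h2⟩; exact ⟨Or.inr h1, h2⟩
      · rintro ⟨h1 | h1, h2⟩
        · subst h1; exact absurd h2 h
        · exact ⟨h1, h2⟩

theorem sl5_mem_flt {l l' x : ℕ} {T : List ℕ} : x ∈ flt l l' T ↔ x ∈ T ∧ bt x l = bt x l' := by
  induction T with
  | nil => simp [flt]
  | cons y T ih =>
    rw [flt]
    by_cases h : bt y l = bt y l'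
    · rw [h]
      simp only [Nat.beq_refl, cond_true, List.mem_cons, ih]
      constructor
      · rintro (h1 | ⟨h1, h2⟩)
        · subst h1; exact ⟨Or.inl rfl, h⟩
        · exact ⟨Or.inr h1, h2⟩
      · rintro ⟨h1 | h1, h2⟩
        · exact Or.inl h1
        · exact Or.inr ⟨h1, h2⟩
    · have hb : Nat.beq (bt y l) (bt y l') = false := by
        rw [Bool.eq_false_iff]
        intro hc
        exact h (Nat.eq_of_beq_eq_true hc)
      rw [hb]
      simp only [cond_false, List.mem_cons, ih]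
      constructor
      · rintro ⟨h1, h2⟩; exact ⟨Or.inr h1, h2⟩
      · rintro ⟨h1 | h1, h2⟩
        · subst h1; exact absurd h2 h
        · exact ⟨h1, h2⟩

theorem sl5_spc {l : ℕ} {C : List (List ℕ)} {x y : ℕ} (h : ∃ T ∈ C, x ∈ T ∧ y ∈ T)
    (hxy : bt x l = bt y l) : ∃ T ∈ spc l C, x ∈ T ∧ y ∈ T := by
  obtain ⟨T, hT, hx, hy⟩ := h
  induction C with
  | nil => exact absurd hT List.not_mem_nil
  | cons T0 C ih =>
    rw [spc]
    rcases List.mem_cons.1 hT with h1 | h1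
    · subst h1
      rcases sl5_bt_cases x l with h2 | h2
      · have hx' : x ∈ flb 0 l T := sl5_mem_flb.2 ⟨hx, h2⟩
        have hy' : y ∈ flb 0 l T := sl5_mem_flb.2 ⟨hy, hxy ▸ h2⟩
        exact ⟨flb 0 l T, (sl5_mem_cns hx').2 (Or.inl rfl), hx', hy'⟩
      · have hx' : x ∈ flb 1 l T := sl5_mem_flb.2 ⟨hx, h2⟩
        have hy' : y ∈ flb 1 l T := sl5_mem_flb.2 ⟨hy, hxy ▸ h2⟩
        exact ⟨flb 1 l T, (sl5_mem_cns hx').2 (Or.inr ((sl5_mem_cns hx').2 (Or.inl rfl))), hx', hy'⟩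
    · obtain ⟨T', hT', hx', hy'⟩ := ih h1
      exact ⟨T', (sl5_mem_cns hx').2 (Or.inr ((sl5_mem_cns hx').2 (Or.inr hT'))), hx', hy'⟩

theorem sl5_flc {l l' : ℕ} {C : List (List ℕ)} {x y : ℕ} (h : ∃ T ∈ C, x ∈ T ∧ y ∈ T)
    (hx0 : bt x l = bt x l') (hy0 : bt y l = bt y l') : ∃ T ∈ flc l l' C, x ∈ T ∧ y ∈ T := by
  obtain ⟨T, hT, hx, hy⟩ := h
  induction C with
  | nil => exact absurd hT List.not_mem_nil
  | cons T0 C ih =>
    rw [flc]
    rcases List.mem_cons.1 hT with h1 | h1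
    · subst h1
      have hx' : x ∈ flt l l' T := sl5_mem_flt.2 ⟨hx, hx0⟩
      have hy' : y ∈ flt l l' T := sl5_mem_flt.2 ⟨hy, hy0⟩
      exact ⟨flt l l' T, (sl5_mem_cns hx').2 (Or.inl rfl), hx', hy'⟩
    · obtain ⟨T', hT', hx', hy'⟩ := ih h1
      exact ⟨T', (sl5_mem_cns hx').2 (Or.inr hT'), hx', hy'⟩

theorem sl5_spl {F : List ℕ} {x y : ℕ} (hF : ∀ l ∈ F, bt x l = bt y l) :
    ∀ C : List (List ℕ), (∃ T ∈ C, x ∈ T ∧ y ∈ T) → ∃ T ∈ spl F C, x ∈ T ∧ y ∈ T := by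
  unfold spl
  induction F with
  | nil => intro C h; exact h
  | cons l F ih =>
    intro C h
    rw [List.foldl_cons]
    exact ih (fun l' hl' => hF l' (List.mem_cons_of_mem _ hl')) _
      (sl5_spc h (hF l List.mem_cons_self))

theorem sl5_fle {E : List (ℕ × ℕ)} {x y : ℕ} (hx : ∀ e ∈ E, bt x e.1 = bt x e.2)
    (hy : ∀ e ∈ E, bt y e.1 = bt y e.2) :
    ∀ C : List (List ℕ), (∃ T ∈ C, x ∈ T ∧ y ∈ T) → ∃ T ∈ fle E C, x ∈ T ∧ y ∈ T := by
  unfold fle
  induction E with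
  | nil => intro C h; exact h
  | cons e E ih =>
    intro C h
    rw [List.foldl_cons]
    exact ih (fun e' he' => hx e' (List.mem_cons_of_mem _ he'))
      (fun e' he' => hy e' (List.mem_cons_of_mem _ he')) _
      (sl5_flc h (hx e List.mem_cons_self) (hy e List.mem_cons_self))

theorem sl5_mem_sts {c0 c1 c2 c3 h0 h1 h2 h3 : ℕ} (k0 : h0 < c0) (k1 : h1 < c1) (k2 : h2 < c2)
    (k3 : h3 < c3) : enc h0 h1 h2 h3 ∈ sts c0 c1 c2 c3 := by
  unfold sts
  simp only [List.mem_flatMap, List.mem_map, List.mem_range]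
  exact ⟨h0, k0, h1, k1, h2, k2, h3, k3, rfl⟩

/-! ### The heights in a block -/

variable {α : Type*}

/-- the height of the `p`-th man of the block -/
def sl5_g (k : ℕ) (m : ℕ → α) (f : α → ℕ) (p : ℕ) : ℕ := if p < k then f (m p) else 0

/-- the state of the block -/
def sl5_e (k : ℕ) (m : ℕ → α) (f : α → ℕ) : ℕ :=
  enc (sl5_g k m f 0) (sl5_g k m f 1) (sl5_g k m f 2) (sl5_g k m f 3)

theorem sl5_g_lt {k : ℕ} {m : ℕ → α} {f : α → ℕ} (hf : ∀ p < k, f (m p) < 4) (p : ℕ) :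
    sl5_g k m f p < 4 := by
  unfold sl5_g
  split_ifs with h
  · exact hf p h
  · norm_num

theorem sl5_e_bt {k : ℕ} (hk : k ≤ 4) {m : ℕ → α} {f : α → ℕ} (hf : ∀ p < k, f (m p) < 4) {l : ℕ}
    (hl : l < 3 * k) : bt (sl5_e k m f) l = 1 ↔ l % 3 + 1 ≤ f (m (l / 3)) := by
  unfold sl5_e
  rw [sl5_enc_dec _ (sl5_g_lt hf 0) _ (sl5_g_lt hf 1) _ (sl5_g_lt hf 2) _ (sl5_g_lt hf 3) l
    (by omega)]
  have hp : l / 3 < k := by omega
  have h1 : (if l / 3 = 0 then sl5_g k m f 0 else if l / 3 = 1 then sl5_g k m f 1 else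
      if l / 3 = 2 then sl5_g k m f 2 else sl5_g k m f 3) = f (m (l / 3)) := by
    have h2 : l / 3 = 0 ∨ l / 3 = 1 ∨ l / 3 = 2 ∨ l / 3 = 3 := by omega
    rcases h2 with h2 | h2 | h2 | h2 <;> rw [h2] at hp ⊢ <;> simp [sl5_g, hp]
  rw [h1]
  by_cases h2 : l % 3 < f (m (l / 3))
  · rw [if_pos h2]
    exact ⟨fun _ => h2, fun _ => rfl⟩
  · rw [if_neg h2]
    exact ⟨fun h3 => absurd h3 (by norm_num), fun h3 => absurd h3 h2⟩

theorem sl5_e_congr {k : ℕ} (hk : k ≤ 4) {m : ℕ → α} {f f' : α → ℕ} (hf : ∀ p < k, f (m p) < 4)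
    (hf' : ∀ p < k, f' (m p) < 4) {l l' : ℕ} (hl : l < 3 * k) (hl' : l' < 3 * k)
    (h : l % 3 + 1 ≤ f (m (l / 3)) ↔ l' % 3 + 1 ≤ f' (m (l' / 3))) :
    bt (sl5_e k m f) l = bt (sl5_e k m f') l' := by
  have h1 := sl5_e_bt hk hf hl
  have h2 := sl5_e_bt hk hf' hl'
  rcases sl5_bt_cases (sl5_e k m f) l with h3 | h3 <;>
    rcases sl5_bt_cases (sl5_e k m f') l' with h4 | h4
  · rw [h3, h4]
  · exfalso
    rw [h3] at h1
    have := h1.2 (h.2 (h2.1 h4))
    omega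
  · exfalso
    rw [h4] at h2
    have := h2.2 (h.1 (h1.1 h3))
    omega
  · rw [h3, h4]

theorem sl5_e_inj {k : ℕ} {m : ℕ → α} {f f' : α → ℕ} (hk : k ≤ 4) (hf : ∀ p < k, f (m p) < 4)
    (hf' : ∀ p < k, f' (m p) < 4) (h : sl5_e k m f = sl5_e k m f') :
    ∀ p < k, f (m p) = f' (m p) := by
  unfold sl5_e at h
  obtain ⟨h0, h1, h2, h3⟩ := sl5_enc_inj (sl5_g_lt hf 0) (sl5_g_lt hf 1) (sl5_g_lt hf 2)
    (sl5_g_lt hf 3) (sl5_g_lt hf' 0) (sl5_g_lt hf' 1) (sl5_g_lt hf' 2) (sl5_g_lt hf' 3) h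
  intro p hp
  have h4 : p = 0 ∨ p = 1 ∨ p = 2 ∨ p = 3 := by omega
  have h5 : sl5_g k m f p = sl5_g k m f' p := by
    rcases h4 with h4 | h4 | h4 | h4 <;> rw [h4] <;> assumption
  unfold sl5_g at h5
  rwa [if_pos hp, if_pos hp] at h5

open Classical in
/-- the pairs of restrictions are pairs of states -/
theorem sl5_card (S : Finset (α → ℕ)) (k : ℕ) (hk : k ≤ 4) (m : ℕ → α) (K : Finset α)
    (hK : ∀ a, a ∈ K ↔ ∃ p < k, m p = a) (hlt4 : ∀ s ∈ S, ∀ p < k, s (m p) < 4) (R : Finset ℕ)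
    (hR : ∀ s ∈ S, sl5_e k m s ∈ R) (agr : ℕ → Prop)
    (hagr : ∀ l, agr l → l < 3 * k ∧ Agr S K (m (l / 3)) (l % 3 + 1)) :
    QK S K ≤ ((R ×ˢ R).filter (fun p => ∀ l, agr l → bt p.1 l = bt p.2 l)).card := by
  unfold QK
  have hmsk : ∀ s : α → ℕ, sl5_e k m (msk K s) = sl5_e k m s := by
    intro s
    have h3 : ∀ p, sl5_g k m (msk K s) p = sl5_g k m s p := by
      intro p
      unfold sl5_g msk
      split_ifs with h4 h5
      · rfl
      · exact absurd ((hK _).2 ⟨p, h4, rfl⟩) h5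
      · rfl
    unfold sl5_e
    rw [h3, h3, h3, h3]
  have hmp : ∀ s : α → ℕ, ∀ p < k, msk K s (m p) = s (m p) := by
    intro s p hp
    unfold msk
    rw [if_pos ((hK _).2 ⟨p, hp, rfl⟩)]
  apply Finset.card_le_card_of_injOn (fun q => (sl5_e k m q.1, sl5_e k m q.2))
  · rintro ⟨f, f'⟩ hff
    rw [Finset.mem_coe, Finset.mem_filter, Finset.mem_product] at hff
    obtain ⟨⟨hf, hf'⟩, hag⟩ := hff
    obtain ⟨s, hs, rfl⟩ := Finset.mem_image.1 hf
    obtain ⟨s', hs', rfl⟩ := Finset.mem_image.1 hf'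
    rw [Finset.mem_coe, Finset.mem_filter, Finset.mem_product]
    refine ⟨⟨?_, ?_⟩, ?_⟩
    · show sl5_e k m (msk K s) ∈ R
      rw [hmsk]
      exact hR s hs
    · show sl5_e k m (msk K s') ∈ R
      rw [hmsk]
      exact hR s' hs'
    · intro l hl0
      obtain ⟨hl, hagl⟩ := hagr l hl0
      show bt (sl5_e k m (msk K s)) l = bt (sl5_e k m (msk K s')) l
      have h3 : l / 3 < k := by omega
      apply sl5_e_congr hk _ _ hl hl
      · exact hag _ ((hK _).2 ⟨l / 3, h3, rfl⟩) (l % 3 + 1) (by omega) (by omega) hagl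
      · intro p hp
        rw [hmp s p hp]
        exact hlt4 s hs p hp
      · intro p hp
        rw [hmp s' p hp]
        exact hlt4 s' hs' p hp
  · have key : ∀ f ∈ S.image (msk K), ∀ g ∈ S.image (msk K), sl5_e k m f = sl5_e k m g →
        f = g := by
      intro f hf g hg hfg
      obtain ⟨s, hs, rfl⟩ := Finset.mem_image.1 hf
      obtain ⟨s', hs', rfl⟩ := Finset.mem_image.1 hg
      have h3 := sl5_e_inj hk (fun p hp => by rw [hmp s p hp]; exact hlt4 s hs p hp)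
        (fun p hp => by rw [hmp s' p hp]; exact hlt4 s' hs' p hp) hfg
      funext a
      by_cases ha : a ∈ K
      · obtain ⟨p, hp, rfl⟩ := (hK a).1 ha
        exact h3 p hp
      · unfold msk
        rw [if_neg ha, if_neg ha]
    rintro ⟨f, f'⟩ hff ⟨g, g'⟩ hgg heq
    rw [Finset.mem_coe, Finset.mem_filter, Finset.mem_product] at hff hgg
    have e1 : sl5_e k m f = sl5_e k m g := congrArg Prod.fst heq
    have e2 : sl5_e k m f' = sl5_e k m g' := congrArg Prod.snd heq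
    rw [key f hff.1.1 g hgg.1.1 e1, key f' hff.1.2 g' hgg.1.2 e2]

variable [Fintype α] [DecidableEq α]

/-- a successful search bounds the number of pairs of a block of `k` men -/
theorem link {S : Finset (α → ℕ)} {c : α → ℕ} (h : Sys S c) (k P : ℕ) (hk : k ≤ 4) (m : ℕ → α)
    (K : Finset α) (hK : ∀ a, a ∈ K ↔ ∃ p < k, m p = a)
    (hm : ∀ p < k, ∀ q < k, m p = m q → p = q) (cc : ℕ → ℕ) (hc : ∀ p < k, cc p = c (m p))
    (hc' : ∀ p, k ≤ p → cc p = 1) (ls : List ℕ) (hls : ∀ l ∈ ls, l < 3 * k) (E : List (ℕ × ℕ))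
    (F : List ℕ) (hE : ∀ e ∈ E, e.1 < 3 * k ∧ e.2 < 3 * k ∧
      Lq S (m (e.1 / 3)) (e.1 % 3 + 1) (m (e.2 / 3)) (e.2 % 3 + 1))
    (hF : ∀ l ∈ F, l < 3 * k ∧ Agr S K (m (l / 3)) (l % 3 + 1))
    (hs : go k P ls cc E F = true) : QK S K ^ 2 ≤ P := by
  classical
  have hlt4 : ∀ s ∈ S, ∀ p < k, s (m p) < 4 := by
    intro s hs p _
    have h1 := h.lt s hs (m p)
    have h2 := h.le4 (m p)
    omega
  set R : Finset ℕ := S.image (sl5_e k m) with hR
  let eqv : ℕ → ℕ → Prop := fun l l' =>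
    l < 3 * k ∧ l' < 3 * k ∧ Lq S (m (l / 3)) (l % 3 + 1) (m (l' / 3)) (l' % 3 + 1)
  let agr : ℕ → Prop := fun l => l < 3 * k ∧ Agr S K (m (l / 3)) (l % 3 + 1)
  have hsymm : ∀ l l', eqv l l' → eqv l' l := by
    rintro l l' ⟨h1, h2, h3⟩
    exact ⟨h2, h1, fun s hs => (h3 s hs).symm⟩
  have htr : ∀ l l', eqv l l' → agr l' → agr l := by
    rintro l l' ⟨h1, h2, h3⟩ ⟨h4, h5⟩
    refine ⟨h1, ?_⟩
    rcases h5 with h5 | ⟨b, hb, j, hj1, hj3, hj⟩
    · left
      intro s hs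
      have h6 := h3 s hs
      have h7 := h5 s hs
      by_contra hcon
      push Not at hcon
      have := h6.1 hcon
      omega
    · right
      exact ⟨b, hb, j, hj1, hj3, fun s hs => (h3 s hs).trans (hj s hs)⟩
  have hbit : ∀ l l', eqv l l' → ∀ x ∈ R, bt x l = bt x l' := by
    rintro l l' ⟨h1, h2, h3⟩ x hx
    obtain ⟨s, hs, rfl⟩ := Finset.mem_image.1 hx
    exact sl5_e_congr hk (hlt4 s hs) (hlt4 s hs) h1 h2 (h3 s hs)
  have hdiv : ∀ q j, q < k → 1 ≤ j → j ≤ 3 → 3 * q + (j - 1) < 3 * k ∧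
      (3 * q + (j - 1)) / 3 = q ∧ (3 * q + (j - 1)) % 3 + 1 = j := by
    intro q j h1 h2 h3
    omega
  have hreal : ∀ l, l < 3 * k → ¬ (l % 3 + 1 < c (m (l / 3))) → agr l := by
    intro l hl hn
    refine ⟨hl, Or.inl fun s hs => ?_⟩
    have := h.lt s hs (m (l / 3))
    omega
  have h1 : ∀ l, l < 3 * k → agr l ∨ ∃ l', l' < 3 * k ∧ l' / 3 ≠ l / 3 ∧ eqv l l' := by
    intro l hl
    by_cases hreal' : l % 3 + 1 < c (m (l / 3))
    · obtain ⟨b, hb, j, hj1, hjc, hj⟩ := h.a1 (m (l / 3)) (l % 3 + 1) (by omega) hreal'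
      have hj3 : j ≤ 3 := by
        have := h.le4 b
        omega
      by_cases hbK : b ∈ K
      · obtain ⟨q, hq, rfl⟩ := (hK b).1 hbK
        obtain ⟨e1, e2, e3⟩ := hdiv q j hq hj1 hj3
        right
        refine ⟨3 * q + (j - 1), e1, ?_, hl, e1, ?_⟩
        · rw [e2]
          intro hcon
          exact hb (by rw [hcon])
        · rw [e2, e3]
          exact hj
      · left
        exact ⟨hl, Or.inr ⟨b, hbK, j, hj1, hj3, hj⟩⟩
    · exact Or.inl (hreal l hl hreal')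
  have h2 : ∀ l l1 l2, l % 3 ≤ 1 → l1 / 3 = l2 / 3 → l / 3 ≠ l1 / 3 → eqv l l1 → eqv (l + 1) l2 →
      agr l ∨ agr (l + 1) ∨ ∃ l', l' < 3 * k ∧ l' / 3 ≠ l / 3 ∧ l' / 3 ≠ l1 / 3 ∧
        (eqv l l' ∨ eqv (l + 1) l') := by
    rintro l l1 l2 hl3 hl12 hll1 ⟨g1, g2, g3⟩ ⟨g4, g5, g6⟩
    have e1 : (l + 1) / 3 = l / 3 := by omega
    have e2 : (l + 1) % 3 = l % 3 + 1 := by omega
    by_cases hreal' : (l + 1) % 3 + 1 < c (m ((l + 1) / 3))
    · rw [e1, e2, ← hl12] at g6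
      rw [e1, e2] at hreal'
      have hne : m (l / 3) ≠ m (l1 / 3) := by
        intro hcon
        exact hll1 (hm _ (by omega) _ (by omega) hcon)
      obtain ⟨b, hb1, hb2, j, hj1, hjc, hj⟩ := h.a2 (m (l / 3)) (m (l1 / 3)) (l % 3 + 1)
        (l1 % 3 + 1) (l2 % 3 + 1) hne (by omega) hreal' (by omega) (by omega) g3 g6
      have hj3 : j ≤ 3 := by
        have := h.le4 b
        omega
      by_cases hbK : b ∈ K
      · obtain ⟨q, hq, rfl⟩ := (hK b).1 hbK
        obtain ⟨f1, f2, f3⟩ := hdiv q j hq hj1 hj3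
        right; right
        refine ⟨3 * q + (j - 1), f1, ?_, ?_, ?_⟩
        · rw [f2]
          intro hcon
          exact hb1 (by rw [hcon])
        · rw [f2]
          intro hcon
          exact hb2 (by rw [hcon])
        · rcases hj with hj | hj
          · left
            refine ⟨g1, f1, ?_⟩
            rw [f2, f3]
            exact hj
          · right
            refine ⟨g4, f1, ?_⟩
            rw [f2, f3, e1, e2]
            exact hj
      · rcases hj with hj | hj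
        · left
          exact ⟨g1, Or.inr ⟨b, hbK, j, hj1, hj3, hj⟩⟩
        · right; left
          refine ⟨g4, Or.inr ⟨b, hbK, j, hj1, hj3, ?_⟩⟩
          rw [e1, e2]
          exact hj
    · exact Or.inr (Or.inl (hreal (l + 1) g4 hreal'))
  have hE' : ∀ e ∈ E, eqv e.1 e.2 := fun e he => hE e he
  have hA : ∀ l, bt (Nat.lor (dmk k cc) (F.foldl (fun A l => Nat.lor A (2 ^ l)) 0)) l = 1 →
      agr l := by
    intro l hl
    rw [sl5_bt_lor] at hl
    rcases hl with hl | hl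
    · unfold dmk at hl
      rcases sl5_foldl_if (fun l => cc (l / 3) ≤ l % 3 + 1) _ 0 l hl with h3 | ⟨h3, h4⟩
      · rw [sl5_bt_zero] at h3
        exact absurd h3 (by norm_num)
      · have h5 : l < 3 * k := List.mem_range.1 h3
        apply hreal l h5
        rw [← hc (l / 3) (by omega)]
        omega
    · rcases sl5_foldl F 0 l hl with h3 | h3
      · rw [sl5_bt_zero] at h3
        exact absurd h3 (by norm_num)
      · exact hF l h3
  have hC : ∀ x ∈ R, ∀ y ∈ R, (∀ l, agr l → bt x l = bt y l) →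
      ∃ T ∈ spl F (fle E [sts (cc 0) (cc 1) (cc 2) (cc 3)]), x ∈ T ∧ y ∈ T := by
    intro x hx y hy hxy
    apply sl5_spl (fun l hl => hxy l (hF l hl))
    apply sl5_fle (fun e he => hbit _ _ (hE' e he) x hx) (fun e he => hbit _ _ (hE' e he) y hy)
    have hin : ∀ z ∈ R, z ∈ sts (cc 0) (cc 1) (cc 2) (cc 3) := by
      intro z hz
      obtain ⟨s, hs, rfl⟩ := Finset.mem_image.1 hz
      have hb : ∀ p, sl5_g k m s p < cc p := by
        intro p
        unfold sl5_g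
        split_ifs with hp
        · rw [hc p hp]
          exact h.lt s hs _
        · rw [hc' p (by omega)]
          exact Nat.one_pos
      exact sl5_mem_sts (hb 0) (hb 1) (hb 2) (hb 3)
    exact ⟨_, List.mem_cons_self, hin x hx, hin y hy⟩
  have hfin := srch_sound k P R eqv agr hsymm htr hbit h1 h2 ls hls E
    (Nat.lor (dmk k cc) (F.foldl (fun A l => Nat.lor A (2 ^ l)) 0))
    (Nat.lor (dmk k cc) (lmk E)) (spl F (fle E [sts (cc 0) (cc 1) (cc 2) (cc 3)])) hE' hA hC hs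
  exact le_trans (Nat.pow_le_pow_left (sl5_card S k hk m K hK hlt4 R
    (fun s hs => Finset.mem_image_of_mem _ hs) agr (fun l hl => hl)) 2) hfin

end SL
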