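import Mathlib

set_option autoImplicit false

namespace SL

/-- stable matchings of an instance on a type `I` with ranks in `Fin n` -/
def sl7_T {I : Type} {n : ℕ} (mp wp : I → (I ≃ Fin n)) : Set (Equiv.Perm I) :=
  {σ | ∀ m w, ¬ (mp m w < mp m (σ m) ∧ wp w m < wp w (σ.symm w))}

/-- transport of a permutation -/
def sl7_c {I J : Type} (e : I ≃ J) (σ : Equiv.Perm I) : Equiv.Perm J := (e.symm.trans σ).trans e

theorem sl7_c_inj {I J : Type} (e : I ≃ J) : Function.Injective (sl7_c e) := by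
  intro σ τ h
  ext i
  have := congrArg (fun f : Equiv.Perm J => e.symm (f (e i))) h
  simpa [sl7_c] using this

theorem sl7_transport {I : Type} {n : ℕ} (e : I ≃ Fin n) (mp wp : I → (I ≃ Fin n)) :
    {σ : Equiv.Perm (Fin n) | ∀ m w,
      ¬ ((e.symm.trans (mp (e.symm m)) : Equiv.Perm (Fin n)) w <
          (e.symm.trans (mp (e.symm m)) : Equiv.Perm (Fin n)) (σ m) ∧
        (e.symm.trans (wp (e.symm w)) : Equiv.Perm (Fin n)) m <
          (e.symm.trans (wp (e.symm w)) : Equiv.Perm (Fin n)) (σ.symm w))} =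
      (sl7_c e) '' (sl7_T mp wp) := by
  ext σ
  constructor
  · intro h
    refine ⟨sl7_c e.symm σ, ?_, ?_⟩
    · intro m w
      have := h (e m) (e w)
      simpa [sl7_c] using this
    · ext i
      simp [sl7_c]
  · rintro ⟨τ, hτ, rfl⟩
    intro m w
    have := hτ (e.symm m) (e.symm w)
    simpa [sl7_c] using this

/-- the ranks of the direct sum -/
def sl7_r {a b : ℕ} (p : Fin a → Equiv.Perm (Fin a)) (q : Fin b → Equiv.Perm (Fin b)) :
    Fin a ⊕ Fin b → (Fin a ⊕ Fin b ≃ Fin (a + b))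
  | Sum.inl m => (Equiv.sumCongr (p m) (Equiv.refl (Fin b))).trans finSumFinEquiv
  | Sum.inr m => (Equiv.sumComm (Fin a) (Fin b)).trans
      ((Equiv.sumCongr (q m) (Equiv.refl (Fin a))).trans
        (finSumFinEquiv.trans (finCongr (Nat.add_comm b a))))

theorem sl7_ll {a b : ℕ} (p : Fin a → Equiv.Perm (Fin a)) (q : Fin b → Equiv.Perm (Fin b))
    (m w w' : Fin a) :
    sl7_r p q (Sum.inl m) (Sum.inl w) < sl7_r p q (Sum.inl m) (Sum.inl w') ↔ p m w < p m w' := by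
  rw [Fin.lt_def, Fin.lt_def]
  simp [sl7_r, -Fin.val_fin_lt]

theorem sl7_lr {a b : ℕ} (p : Fin a → Equiv.Perm (Fin a)) (q : Fin b → Equiv.Perm (Fin b))
    (m w : Fin a) (w' : Fin b) :
    sl7_r p q (Sum.inl m) (Sum.inl w) < sl7_r p q (Sum.inl m) (Sum.inr w') := by
  rw [Fin.lt_def]
  have := (p m w).isLt
  simp [sl7_r, -Fin.val_fin_lt]
  omega

theorem sl7_rr {a b : ℕ} (p : Fin a → Equiv.Perm (Fin a)) (q : Fin b → Equiv.Perm (Fin b))
    (m w w' : Fin b) :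
    sl7_r p q (Sum.inr m) (Sum.inr w) < sl7_r p q (Sum.inr m) (Sum.inr w') ↔ q m w < q m w' := by
  rw [Fin.lt_def, Fin.lt_def]
  simp [sl7_r, -Fin.val_fin_lt]

theorem sl7_rl {a b : ℕ} (p : Fin a → Equiv.Perm (Fin a)) (q : Fin b → Equiv.Perm (Fin b))
    (m w : Fin b) (w' : Fin a) :
    sl7_r p q (Sum.inr m) (Sum.inr w) < sl7_r p q (Sum.inr m) (Sum.inl w') := by
  rw [Fin.lt_def]
  have := (q m w).isLt
  simp [sl7_r, -Fin.val_fin_lt]
  omega

/-- the stable matchings of the direct sum -/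
theorem sl7_sum {a b : ℕ} (p1 w1 : Fin a → Equiv.Perm (Fin a)) (p2 w2 : Fin b → Equiv.Perm (Fin b)) :
    sl7_T (sl7_r p1 p2) (sl7_r w1 w2) =
      (fun x : Equiv.Perm (Fin a) × Equiv.Perm (Fin b) => Equiv.sumCongr x.1 x.2) ''
        ({σ : Equiv.Perm (Fin a) | ∀ m w, ¬ (p1 m w < p1 m (σ m) ∧ w1 w m < w1 w (σ.symm w))} ×ˢ
         {σ : Equiv.Perm (Fin b) | ∀ m w, ¬ (p2 m w < p2 m (σ m) ∧ w2 w m < w2 w (σ.symm w))}) := by
  ext σ
  constructor
  · intro h
    have hm : Set.MapsTo σ (Set.range Sum.inl) (Set.range Sum.inl) := by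
      rintro _ ⟨m, rfl⟩
      cases hs : σ (Sum.inl m) with
      | inl w => exact ⟨w, rfl⟩
      | inr w' =>
        exfalso
        have hex : ∃ w : Fin a, ∃ m' : Fin b, σ.symm (Sum.inl w) = Sum.inr m' := by
          by_contra hc
          push Not at hc
          have hl : ∀ w : Fin a, ∃ m' : Fin a, σ.symm (Sum.inl w) = Sum.inl m' := by
            intro w
            cases h2 : σ.symm (Sum.inl w) with
            | inl m' => exact ⟨m', rfl⟩
            | inr m' => exact absurd h2 (hc w m')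
          choose f hf using hl
          have hinj : Function.Injective f := by
            intro x y hxy
            have : σ.symm (Sum.inl x) = σ.symm (Sum.inl y) := by rw [hf, hf, hxy]
            simpa using this
          obtain ⟨w, hw⟩ := (Finite.surjective_of_injective hinj) m
          have h3 := hf w
          rw [hw, Equiv.symm_apply_eq, hs] at h3
          cases h3
        obtain ⟨w, m', hw⟩ := hex
        refine h (Sum.inl m) (Sum.inl w) ⟨?_, ?_⟩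
        · rw [hs]; exact sl7_lr p1 p2 m w w'
        · rw [hw]; exact sl7_lr w1 w2 w m m'
    obtain ⟨⟨x, y⟩, hxy⟩ := Equiv.Perm.mem_sumCongrHom_range_of_perm_mapsTo_inl hm
    have hxy' : Equiv.sumCongr x y = σ := hxy
    subst hxy'
    refine ⟨(x, y), ⟨?_, ?_⟩, rfl⟩
    · intro m w hb
      refine h (Sum.inl m) (Sum.inl w) ⟨?_, ?_⟩
      · exact (sl7_ll p1 p2 m w (x m)).2 hb.1
      · exact (sl7_ll w1 w2 w m (x.symm w)).2 hb.2
    · intro m w hb
      refine h (Sum.inr m) (Sum.inr w) ⟨?_, ?_⟩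
      · exact (sl7_rr p1 p2 m w (y m)).2 hb.1
      · exact (sl7_rr w1 w2 w m (y.symm w)).2 hb.2
  · rintro ⟨⟨x, y⟩, ⟨hx, hy⟩, rfl⟩
    rintro (m | m) (w | w) ⟨h1, h2⟩
    · exact hx m w ⟨(sl7_ll p1 p2 m w (x m)).1 h1, (sl7_ll w1 w2 w m (x.symm w)).1 h2⟩
    · exact absurd (sl7_lr p1 p2 m (x m) w) (not_lt.2 h1.le)
    · exact absurd (sl7_rl p1 p2 m (y m) w) (not_lt.2 h1.le)
    · exact hy m w ⟨(sl7_rr p1 p2 m w (y m)).1 h1, (sl7_rr w1 w2 w m (y.symm w)).1 h2⟩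

theorem sl7_two {a b : ℕ} (p1 w1 : Fin a → Equiv.Perm (Fin a)) (p2 w2 : Fin b → Equiv.Perm (Fin b)) :
    ∃ mp wp : Fin (a + b) → Equiv.Perm (Fin (a + b)),
      {σ : Equiv.Perm (Fin (a + b)) |
        ∀ m w, ¬ (mp m w < mp m (σ m) ∧ wp w m < wp w (σ.symm w))}.ncard =
      {σ : Equiv.Perm (Fin a) | ∀ m w, ¬ (p1 m w < p1 m (σ m) ∧ w1 w m < w1 w (σ.symm w))}.ncard *
      {σ : Equiv.Perm (Fin b) | ∀ m w, ¬ (p2 m w < p2 m (σ m) ∧ w2 w m < w2 w (σ.symm w))}.ncard ∧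
      ∀ t : ℕ, (∀ m, ((fun σ : Equiv.Perm (Fin a) => σ m) '' {σ : Equiv.Perm (Fin a) |
        ∀ m w, ¬ (p1 m w < p1 m (σ m) ∧ w1 w m < w1 w (σ.symm w))}).ncard ≤ t) →
        (∀ m, ((fun σ : Equiv.Perm (Fin b) => σ m) '' {σ : Equiv.Perm (Fin b) |
        ∀ m w, ¬ (p2 m w < p2 m (σ m) ∧ w2 w m < w2 w (σ.symm w))}).ncard ≤ t) →
        ∀ m, ((fun σ : Equiv.Perm (Fin (a + b)) => σ m) '' {σ : Equiv.Perm (Fin (a + b)) |
        ∀ m w, ¬ (mp m w < mp m (σ m) ∧ wp w m < wp w (σ.symm w))}).ncard ≤ t := by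
  refine ⟨fun x => finSumFinEquiv.symm.trans (sl7_r p1 p2 (finSumFinEquiv.symm x)),
    fun x => finSumFinEquiv.symm.trans (sl7_r w1 w2 (finSumFinEquiv.symm x)), ?_, ?_⟩
  · rw [sl7_transport finSumFinEquiv (sl7_r p1 p2) (sl7_r w1 w2), sl7_sum,
      Set.ncard_image_of_injective _ (sl7_c_inj _), Set.ncard_image_of_injective, Set.ncard_prod]
    rintro ⟨x, y⟩ ⟨x', y'⟩ h
    have hx : ∀ i, x i = x' i := by
      intro i
      have := congrArg (fun f : Equiv.Perm (Fin a ⊕ Fin b) => f (Sum.inl i)) h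
      simpa using this
    have hy : ∀ i, y i = y' i := by
      intro i
      have := congrArg (fun f : Equiv.Perm (Fin a ⊕ Fin b) => f (Sum.inr i)) h
      simpa using this
    rw [Prod.mk.injEq]
    exact ⟨Equiv.ext hx, Equiv.ext hy⟩
  · intro t h1 h2 m
    rw [sl7_transport finSumFinEquiv (sl7_r p1 p2) (sl7_r w1 w2), sl7_sum]
    obtain ⟨i, rfl⟩ := finSumFinEquiv.surjective m
    cases i with
    | inl i =>
      refine le_trans (Set.ncard_le_ncard (t := (fun w : Fin a => finSumFinEquiv (Sum.inl w)) ''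
        ((fun σ : Equiv.Perm (Fin a) => σ i) '' {σ : Equiv.Perm (Fin a) |
        ∀ m w, ¬ (p1 m w < p1 m (σ m) ∧ w1 w m < w1 w (σ.symm w))})) ?_ (Set.toFinite _)) ?_
      · rintro _ ⟨_, ⟨_, ⟨⟨x, y⟩, ⟨hx, hy⟩, rfl⟩, rfl⟩, rfl⟩
        exact ⟨x i, ⟨x, hx, rfl⟩, by simp [sl7_c]⟩
      · exact (Set.ncard_image_le (Set.toFinite _)).trans (h1 i)
    | inr i =>
      refine le_trans (Set.ncard_le_ncard (t := (fun w : Fin b => finSumFinEquiv (Sum.inr w)) ''
        ((fun σ : Equiv.Perm (Fin b) => σ i) '' {σ : Equiv.Perm (Fin b) |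
        ∀ m w, ¬ (p2 m w < p2 m (σ m) ∧ w2 w m < w2 w (σ.symm w))})) ?_ (Set.toFinite _)) ?_
      · rintro _ ⟨_, ⟨_, ⟨⟨x, y⟩, ⟨hx, hy⟩, rfl⟩, rfl⟩, rfl⟩
        exact ⟨y i, ⟨y, hy, rfl⟩, by simp [sl7_c]⟩
      · exact (Set.ncard_image_le (Set.toFinite _)).trans (h2 i)

/-- direct sums: if an instance with 4 men and 4 women has `N` stable matchings and every man has at most
`t` stable partners in it, then for every `k` there is an instance with `4 * k` men and `4 * k` women with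
`N ^ k` stable matchings in which every man has at most `t` stable partners -/
theorem direct_sum (t N : ℕ) (mp₀ wp₀ : Fin 4 → Equiv.Perm (Fin 4))
    (h0 : {σ : Equiv.Perm (Fin 4) | ∀ m w, ¬ (mp₀ m w < mp₀ m (σ m) ∧ wp₀ w m < wp₀ w (σ.symm w))}.ncard
      = N)
    (ht : ∀ m, ((fun σ : Equiv.Perm (Fin 4) => σ m) '' {σ : Equiv.Perm (Fin 4) |
      ∀ m w, ¬ (mp₀ m w < mp₀ m (σ m) ∧ wp₀ w m < wp₀ w (σ.symm w))}).ncard ≤ t) (k : ℕ) :
    ∃ mp wp : Fin (4 * k) → Equiv.Perm (Fin (4 * k)),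
      {σ : Equiv.Perm (Fin (4 * k)) |
        ∀ m w, ¬ (mp m w < mp m (σ m) ∧ wp w m < wp w (σ.symm w))}.ncard = N ^ k ∧
      ∀ m, ((fun σ : Equiv.Perm (Fin (4 * k)) => σ m) '' {σ : Equiv.Perm (Fin (4 * k)) |
        ∀ m w, ¬ (mp m w < mp m (σ m) ∧ wp w m < wp w (σ.symm w))}).ncard ≤ t := by
  induction k with
  | zero =>
    refine ⟨fun _ => 1, fun _ => 1, ?_, fun m => m.elim0⟩
    rw [pow_zero, Set.ncard_eq_one]
    refine ⟨1, ?_⟩
    ext σ
    constructor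
    · intro _
      exact Equiv.ext fun i => i.elim0
    · intro _ m
      exact m.elim0
  | succ k ih =>
    obtain ⟨mp, wp, h1, h2⟩ := ih
    obtain ⟨mp', wp', h3, h4⟩ := sl7_two mp wp mp₀ wp₀
    refine ⟨mp', wp', ?_, ?_⟩
    · have h5 := h3
      rw [h1, h0, ← pow_succ] at h5
      exact h5
    · exact h4 t h2 ht

end SL
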