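import Mathlib

set_option autoImplicit false

namespace SL

theorem sl7b_aux (mp₀ wp₀ : Fin 4 → Equiv.Perm (Fin 4)) (N t : ℕ)
    (h : (Finset.univ.filter (fun σ : Equiv.Perm (Fin 4) =>
        ∀ m w, ¬ (mp₀ m w < mp₀ m (σ m) ∧ wp₀ w m < wp₀ w (σ.symm w)))).card = N ∧
      ∀ m, ((Finset.univ.filter (fun σ : Equiv.Perm (Fin 4) =>
        ∀ m w, ¬ (mp₀ m w < mp₀ m (σ m) ∧ wp₀ w m < wp₀ w (σ.symm w)))).image (fun σ => σ m)).card ≤ t) :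
    {σ : Equiv.Perm (Fin 4) | ∀ m w, ¬ (mp₀ m w < mp₀ m (σ m) ∧ wp₀ w m < wp₀ w (σ.symm w))}.ncard
      = N ∧
    ∀ m, ((fun σ : Equiv.Perm (Fin 4) => σ m) '' {σ : Equiv.Perm (Fin 4) |
      ∀ m w, ¬ (mp₀ m w < mp₀ m (σ m) ∧ wp₀ w m < wp₀ w (σ.symm w))}).ncard ≤ t := by
  have e : {σ : Equiv.Perm (Fin 4) | ∀ m w, ¬ (mp₀ m w < mp₀ m (σ m) ∧ wp₀ w m < wp₀ w (σ.symm w))} =
      ((Finset.univ.filter (fun σ : Equiv.Perm (Fin 4) =>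
        ∀ m w, ¬ (mp₀ m w < mp₀ m (σ m) ∧ wp₀ w m < wp₀ w (σ.symm w))) :
          Finset (Equiv.Perm (Fin 4))) : Set (Equiv.Perm (Fin 4))) := by
    ext σ
    simp only [Finset.coe_filter, Finset.mem_univ, true_and]
  rw [e]
  refine ⟨?_, fun m => ?_⟩
  · rw [Set.ncard_coe_finset]
    exact h.1
  · rw [← Finset.coe_image, Set.ncard_coe_finset]
    exact h.2 m

/-- the instances with 4 men and `1`, `4`, `7`, `10` stable matchings in which every man has at most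
`1`, `2`, `3`, `4` stable partners -/
theorem base (t : ℕ) (h1 : 1 ≤ t) (h4 : t ≤ 4) : ∃ mp₀ wp₀ : Fin 4 → Equiv.Perm (Fin 4),
    {σ : Equiv.Perm (Fin 4) | ∀ m w, ¬ (mp₀ m w < mp₀ m (σ m) ∧ wp₀ w m < wp₀ w (σ.symm w))}.ncard
      = 3 * t - 2 ∧
    ∀ m, ((fun σ : Equiv.Perm (Fin 4) => σ m) '' {σ : Equiv.Perm (Fin 4) |
      ∀ m w, ¬ (mp₀ m w < mp₀ m (σ m) ∧ wp₀ w m < wp₀ w (σ.symm w))}).ncard ≤ t := by
  obtain rfl | rfl | rfl | rfl : t = 1 ∨ t = 2 ∨ t = 3 ∨ t = 4 := by omega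
  · refine ⟨![⟨![0, 3, 1, 2], ![0, 2, 3, 1], by decide, by decide⟩,
        ⟨![3, 0, 1, 2], ![1, 2, 3, 0], by decide, by decide⟩,
        ⟨![0, 2, 1, 3], ![0, 2, 1, 3], by decide, by decide⟩,
        ⟨![1, 2, 0, 3], ![2, 0, 1, 3], by decide, by decide⟩],
      ![⟨![1, 0, 2, 3], ![1, 0, 2, 3], by decide, by decide⟩,
        ⟨![2, 1, 3, 0], ![3, 1, 0, 2], by decide, by decide⟩,
        ⟨![2, 1, 0, 3], ![2, 1, 0, 3], by decide, by decide⟩,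
        ⟨![2, 1, 3, 0], ![3, 1, 0, 2], by decide, by decide⟩],
      sl7b_aux _ _ _ _ ?_⟩
    decide +kernel
  · refine ⟨![⟨![2, 3, 0, 1], ![2, 3, 0, 1], by decide, by decide⟩,
        ⟨![1, 0, 3, 2], ![1, 0, 3, 2], by decide, by decide⟩,
        ⟨![0, 1, 3, 2], ![0, 1, 3, 2], by decide, by decide⟩,
        ⟨![1, 3, 2, 0], ![3, 0, 2, 1], by decide, by decide⟩],
      ![⟨![2, 0, 1, 3], ![1, 2, 0, 3], by decide, by decide⟩,
        ⟨![2, 3, 0, 1], ![2, 3, 0, 1], by decide, by decide⟩,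
        ⟨![3, 0, 1, 2], ![1, 2, 3, 0], by decide, by decide⟩,
        ⟨![1, 0, 3, 2], ![1, 0, 3, 2], by decide, by decide⟩],
      sl7b_aux _ _ _ _ ?_⟩
    decide +kernel
  · refine ⟨![⟨![2, 3, 0, 1], ![2, 3, 0, 1], by decide, by decide⟩,
        ⟨![1, 0, 3, 2], ![1, 0, 3, 2], by decide, by decide⟩,
        ⟨![0, 1, 3, 2], ![0, 1, 3, 2], by decide, by decide⟩,
        ⟨![3, 2, 1, 0], ![3, 2, 1, 0], by decide, by decide⟩],
      ![⟨![0, 2, 3, 1], ![0, 3, 1, 2], by decide, by decide⟩,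
        ⟨![2, 3, 1, 0], ![3, 2, 0, 1], by decide, by decide⟩,
        ⟨![3, 0, 1, 2], ![1, 2, 3, 0], by decide, by decide⟩,
        ⟨![1, 0, 2, 3], ![1, 0, 2, 3], by decide, by decide⟩],
      sl7b_aux _ _ _ _ ?_⟩
    decide +kernel
  · refine ⟨![⟨![0, 1, 2, 3], ![0, 1, 2, 3], by decide, by decide⟩,
        ⟨![1, 0, 3, 2], ![1, 0, 3, 2], by decide, by decide⟩,
        ⟨![2, 3, 0, 1], ![2, 3, 0, 1], by decide, by decide⟩,
        ⟨![3, 2, 1, 0], ![3, 2, 1, 0], by decide, by decide⟩],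
      ![⟨![3, 2, 1, 0], ![3, 2, 1, 0], by decide, by decide⟩,
        ⟨![2, 3, 0, 1], ![2, 3, 0, 1], by decide, by decide⟩,
        ⟨![1, 0, 3, 2], ![1, 0, 3, 2], by decide, by decide⟩,
        ⟨![0, 1, 2, 3], ![0, 1, 2, 3], by decide, by decide⟩],
      sl7b_aux _ _ _ _ ?_⟩
    decide +kernel

end SL
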